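import Pool.Agent.Lib.MP_1a91b9_nuX.DG.Ab
import Pool.Agent.Lib.MP_1a91b9_nuX.TG.Abel

/-!
# The modulus of a base field, with additional divisors
-/

set_option autoImplicit false
set_option linter.unusedSectionVars false

namespace Pool.Agent.Lib.MP_1a91b9_nuY.BF

variable [Pool.Agent.Lib.MP_1a91b9_nuT.CD]

open NumberField IsDedekindDomain WeierstrassCurve Pool.Agent.Lib.MP_1a91b9_nuT
open Pool.Agent.Lib.MP_1a91b9_nuX Pool.Agent.Lib.MP_1a91b9_nuX.DB Pool.Agent.Lib.MP_1a91b9_nuX.DG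
open Pool.Agent.Lib.MP_1a91b9_nuX.TG (gB nAb nAb_ne dvd_nAb)

noncomputable section

variable [HC]

/-- a multiple of a modulus is a modulus -/
theorem md_mul {μ ν : 𝓞 K} (h : Md μ) (hν : ν ≠ 0) : Md (μ * ν) :=
  ⟨mul_ne_zero h.ne hν, fun P hP => P.asIdeal.mul_mem_right _ (h.bad P hP),
    fun a ha => h.ray a ((dvd_mul_right _ _).trans ha),
    fun h2 => h.two ((dvd_mul_right _ _).trans h2)⟩

theorem nAb_eq (μ : 𝓞 K) : (nAb μ : 𝓞 K) = μ * cj μ := (mul_cj μ).symm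

/-- a modulus whose places are the places of `gB` -/
theorem exists_mdD {m : 𝓞 K} (hm : m ≠ 0) : ∃ μ : 𝓞 K, Md μ ∧ m ∣ μ ∧
    ∀ v : HeightOneSpectrum (𝓞 K), gB μ ∈ v.asIdeal → μ ∈ v.asIdeal := by
  obtain ⟨ν, hM, hν⟩ := exists_md (mul_ne_zero hm HC.hd.ne)
  have hn0 : (nAb ν : 𝓞 K) ≠ 0 := Nat.cast_ne_zero.2 (nAb_ne hM.ne)
  refine ⟨ν * (nAb ν : 𝓞 K), md_mul hM hn0,
    ((dvd_mul_right _ _).trans hν).trans (dvd_mul_right _ _), fun v hv => ?_⟩
  have hp := v.isPrime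
  have h1 : gB (ν * (nAb ν : 𝓞 K)) = HC.f * (((CD.bad : ℤ) : 𝓞 K) *
      (nAb (ν * (nAb ν : 𝓞 K)) : 𝓞 K)) := rfl
  rw [h1] at hv
  rcases hp.mem_or_mem hv with h2 | h2
  · have h3 : HC.f ∣ ν := (dvd_mul_left _ _).trans hν
    exact v.asIdeal.mul_mem_right _ (v.asIdeal.mem_of_dvd h3 h2)
  rcases hp.mem_or_mem h2 with h3 | h3
  · exact v.asIdeal.mul_mem_right _ (hM.bad v h3)
  · rw [nAb_eq] at h3
    rcases hp.mem_or_mem h3 with h4 | h4
    · exact h4
    · have h5 : cj (ν * (nAb ν : 𝓞 K)) = cj ν * (nAb ν : 𝓞 K) := by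
        rw [map_mul, map_natCast]
      rw [h5] at h4
      rcases hp.mem_or_mem h4 with h6 | h6
      · rw [nAb_eq]
        exact v.asIdeal.mul_mem_left _ (v.asIdeal.mul_mem_left _ h6)
      · exact v.asIdeal.mul_mem_left _ h6

section
variable {L : Type} [Field L] [NumberField L] [Algebra K L] [DecidableEq L]

omit [NumberField L] [HC] in
/-- the annihilator of a torsion point -/
private theorem mod_ann {T : Pt L} {n : ℕ} (hn : n ≠ 0) (h : n • T = 0) :
    ∃ ν : 𝓞 K, ν ≠ 0 ∧ Ord ν T := by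
  let I : Ideal (𝓞 K) :=
    { carrier := {a | sm L a T = 0}
      add_mem' := fun {a b} ha hb => by
        change sm L (a + b) T = 0
        have ha' : sm L a T = 0 := ha
        have hb' : sm L b T = 0 := hb
        rw [map_add]
        change sm L a T + sm L b T = 0
        rw [ha', hb', add_zero]
      zero_mem' := by
        change sm L 0 T = 0
        rw [map_zero]
        rfl
      smul_mem' := fun c a ha => by
        change sm L (c * a) T = 0
        have ha' : sm L a T = 0 := ha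
        rw [← sm_sm, ha', map_zero] }
  have hI : ∀ a, a ∈ I ↔ sm L a T = 0 := fun a => Iff.rfl
  obtain ⟨ν, hν⟩ := (IsPrincipalIdealRing.principal I).principal
  have hν' : ∀ a, a ∈ I ↔ ν ∣ a := by
    intro a
    rw [hν, Ideal.submodule_span_eq, Ideal.mem_span_singleton]
  refine ⟨ν, ?_, fun c => by rw [← hI, hν']⟩
  rintro rfl
  have h1 : ((n : ℕ) : 𝓞 K) ∈ I := by
    rw [hI, sm_nat, h]
  rw [hν', zero_dvd_iff] at h1
  exact hn (by exact_mod_cast h1)

end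

/-- a field generated by a torsion point whose annihilator is divisible by `D` -/
theorem exists_abD (F₀ : Type) [Field F₀] [NumberField F₀] [Algebra K F₀]
    {L : Type} [Field L] [NumberField L] [Algebra K L] [Algebra F₀ L]
    [IsScalarTower K F₀ L] [DecidableEq L] {T₀ : Pt L} {n : ℕ} (hn : n ≠ 0) (hT : n • T₀ = 0)
    (hgen : IntermediateField.adjoin K {xc T₀, yc T₀} = ⊤) {D : 𝓞 K} (hD : D ≠ 0) :
    ∃ (μ : 𝓞 K) (_ : Md μ) (_ : D ∣ μ)
      (_ : ∀ v : HeightOneSpectrum (𝓞 K), gB μ ∈ v.asIdeal → μ ∈ v.asIdeal)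
      (H : Subgroup (CU μ)) (L' : Type) (_ : Field L')
      (_ : NumberField L') (_ : Algebra K L') (_ : Algebra F₀ L') (_ : IsScalarTower K F₀ L')
      (_ : DecidableEq L') (J : Pt L'), AB H F₀ L' J := by
  obtain ⟨m, hm0, hm⟩ := mod_ann hn hT
  obtain ⟨μ, hM, hmk, hv⟩ := exists_mdD (mul_ne_zero hm0 hD)
  obtain ⟨L1, i1, i2, i3, i4, R, hG, hR, -, hg⟩ := exists_tf hM.ne
  obtain ⟨f⟩ := emb_tf hM.ne ((dvd_mul_right _ _).trans hmk) ((hm m).2 dvd_rfl) hgen hR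
  let f0 : F₀ →+* L1 := (f : L →+* L1).comp (algebraMap F₀ L)
  letI a1 : Algebra F₀ L1 := f0.toAlgebra
  have t1 : IsScalarTower K F₀ L1 := IsScalarTower.of_algebraMap_eq fun x => by
    change algebraMap K L1 x = f (algebraMap F₀ L (algebraMap K F₀ x))
    rw [← IsScalarTower.algebraMap_apply K F₀ L, f.commutes]
  obtain ⟨H, hH⟩ := exists_sub F₀ hM.ne hR hg
  exact ⟨μ, hM, (dvd_mul_left _ _).trans hmk, hv, H, L1, i1, i2, i3, a1, t1, i4, R, hH⟩

end

end Pool.Agent.Lib.MP_1a91b9_nuY.BF
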