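import Pool.Agent.Lib.MP_1a91b9_nuY.BF.XN
import Pool.Agent.Lib.MP_1a91b9_nuX.DG.AddK
import Pool.Agent.Lib.MP_1a91b9_nuX.DG.GalU

/-!
# Non-degeneracy from the determinant

If the determinant of the twisted traces of `lamQ J` is a unit at the places above `ϖ`, the values
`lamQ (u J)` are non-degenerate on the equivariant functions.
-/

set_option autoImplicit false
set_option linter.unusedSectionVars false

namespace Pool.Agent.Lib.MP_1a91b9_nuY.BF

variable [Pool.Agent.Lib.MP_1a91b9_nuT.CD]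

open NumberField IsDedekindDomain WeierstrassCurve Pool.Agent.Lib.MP_1a91b9_nuT
open Pool.Agent.Lib.MP_1a91b9_nuX Pool.Agent.Lib.MP_1a91b9_nuX.DB Pool.Agent.Lib.MP_1a91b9_nuX.DG
open Pool.Agent.Lib.MP_1a91b9_nuX.DX (rs toF rs_apply rs_mul rs_toF toF_apply ga_toF exists_lift exists_of_rs_one)
open Pool.Agent.Lib.MP_1a91b9_nuY.TS

noncomputable section

variable [FP]

omit [FP] in
private theorem nd_place {L : Type} [Field L] [NumberField L] [Algebra K L] {ϖ : 𝓞 K}
    (hϖ : Prime ϖ) :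
    ∃ W : HeightOneSpectrum (𝓞 L), W.valuation L (algebraMap K L (ϖ : K)) < 1 := by
  have hp : (Ideal.span {ϖ}).IsPrime := (Ideal.span_singleton_prime hϖ.ne_zero).2 hϖ
  obtain ⟨v, hv⟩ : ∃ v : HeightOneSpectrum (𝓞 K), v.asIdeal = Ideal.span {ϖ} :=
    ⟨⟨Ideal.span {ϖ}, hp, by
      rw [Ne, Ideal.span_singleton_eq_bot]
      exact hϖ.ne_zero⟩, rfl⟩
  have hm : v.asIdeal.IsMaximal := v.isMaximal
  obtain ⟨Q, hQm, hQ⟩ := Ideal.exists_maximal_ideal_liesOver_of_isIntegral (S := 𝓞 L) v.asIdeal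
  have hne : Q ≠ ⊥ := Ideal.ne_bot_of_liesOver_of_ne_bot v.ne_bot Q
  refine ⟨⟨Q, hQm.isPrime, hne⟩, ?_⟩
  have hu : (⟨Q, hQm.isPrime, hne⟩ : HeightOneSpectrum (𝓞 L)).under (𝓞 K) = v := by
    apply HeightOneSpectrum.ext
    exact hQ.over.symm
  rw [DB.val_map_lt, hu]
  refine (HeightOneSpectrum.valuation_lt_one_iff_mem v ϖ).2 ?_
  rw [hv]
  exact Ideal.mem_span_singleton_self ϖ

omit [FP] in
private theorem nd_above {A L : Type} [Field A] [NumberField A] [Field L] [NumberField L]
    [Algebra A L] (v : HeightOneSpectrum (𝓞 A)) :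
    ∃ W : HeightOneSpectrum (𝓞 L), W.under (𝓞 A) = v := by
  have hm : v.asIdeal.IsMaximal := v.isMaximal
  obtain ⟨Q, hQm, hQ⟩ := Ideal.exists_maximal_ideal_liesOver_of_isIntegral (S := 𝓞 L) v.asIdeal
  have hne : Q ≠ ⊥ := Ideal.ne_bot_of_liesOver_of_ne_bot v.ne_bot Q
  refine ⟨⟨Q, hQm.isPrime, hne⟩, ?_⟩
  apply HeightOneSpectrum.ext
  exact hQ.over.symm

omit [FP] in
private theorem nd_det {G : Type*} [Fintype G] [DecidableEq G] {L : Type*} [Field L] {Γ : Type*}
    [LinearOrderedCommGroupWithZero Γ] (v : Valuation L Γ) (M : Matrix G G L)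
    (hM : ∀ i j, v (M i j) ≤ 1) (hdet : v M.det = 1) (c : G → L)
    (hc : ∀ i, v (∑ j, M i j * c j) < 1) (s : G) : v (c s) < 1 := by
  have hadj : ∀ i j, v (M.adjugate i j) ≤ 1 := by
    intro i j
    obtain ⟨M', h1⟩ : ∃ M' : Matrix G G v.integer, M = v.integer.subtype.mapMatrix M' :=
      ⟨Matrix.of fun i j => ⟨M i j, hM i j⟩, by
        ext i j
        rfl⟩
    rw [h1, ← RingHom.map_adjugate]
    exact (M'.adjugate i j).2
  have h1 : (M.adjugate * M).mulVec c = M.det • c := by
    rw [Matrix.adjugate_mul, Matrix.smul_mulVec, Matrix.one_mulVec]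
  have h2 : M.det * c s = ∑ i, M.adjugate s i * ∑ j, M i j * c j := by
    have h3 := congrFun h1 s
    rw [← Matrix.mulVec_mulVec] at h3
    exact h3.symm
  have h3 : v (M.det * c s) < 1 := by
    rw [h2]
    refine Valuation.map_sum_lt v one_ne_zero (fun i _ => ?_)
    rw [map_mul]
    exact (mul_le_of_le_one_left' (hadj s i)).trans_lt (hc i)
  rwa [map_mul, hdet, one_mul] at h3

omit [FP] in
private theorem nd_alg_mul {L : Type*} [Field L] [Algebra K L] (a b : 𝓞 K) :
    algebraMap K L ((a * b : 𝓞 K) : K) = algebraMap K L (a : K) * algebraMap K L (b : K) := by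
  rw [← map_mul]
  rfl

omit [FP] in
private theorem nd_alg_sub {L : Type*} [Field L] [Algebra K L] (a b : 𝓞 K) :
    algebraMap K L ((a - b : 𝓞 K) : K) = algebraMap K L (a : K) - algebraMap K L (b : K) := by
  rw [← map_sub]
  rfl

omit [FP] in
private theorem nd_alg_le {L : Type} [Field L] [NumberField L] [Algebra K L]
    (w : HeightOneSpectrum (𝓞 L)) (d : 𝓞 K) :
    w.valuation L (algebraMap K L (d : K)) ≤ 1 := by
  have h1 : algebraMap K L (d : K) = ((algebraMap (𝓞 K) (𝓞 L) d : 𝓞 L) : L) :=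
    IsScalarTower.algebraMap_apply K K L (d : K)
  rw [h1]
  exact w.valuation_le_one _

section
variable {μ : 𝓞 K} {H : Subgroup (CU μ)} {ϖ : 𝓞 K} {ℓ q : ℕ} {F G N : Type}
  [Field F] [NumberField F] [Algebra K F] [Field G] [NumberField G] [Algebra K G] [Algebra F G]
  [IsScalarTower K F G] [IsGalois F G] [DecidableEq G] [Field N] [NumberField N] [Algebra K N]
  [Algebra F N] [Algebra G N] [IsScalarTower K F N] [IsScalarTower K G N] [IsScalarTower F G N]
  [IsGalois F N] [IsGalois G N] [DecidableEq N] {k : Gal(G/F) → 𝓞 K} {P : Pt N} {J : Pt G}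

variable (D : TwX H ϖ ℓ q F G N k P J)
include D

omit [IsGalois F N] [IsGalois G N] D in
private theorem nd_resK (s : Gal(G/F)) (Q : Pt G) :
    ga (AlgEquiv.restrictScalars K s : Gal(G/K)) Q = ga s Q := by
  rcases cases_pt Q with rfl | ⟨x, y, h, rfl⟩
  · rw [map_zero, map_zero]
  · rfl

private theorem nd_lamle (w : HeightOneSpectrum (𝓞 G))
    (hw : w.valuation G (algebraMap K G (ϖ : K)) < 1) (u : U H) :
    w.valuation G (lamQ (smU J u)) ≤ 1 := by
  obtain ⟨W, hW⟩ := nd_above (L := N) w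
  have h1 : W.valuation N (algebraMap K N (ϖ : K)) < 1 := by
    rw [IsScalarTower.algebraMap_apply K G N, DB.val_map_lt, hW]
    exact hw
  have h2 := lamQ_val D.top.pd D.top.ordP D.top.copw (smU_kill D.top.ord u)
    (smU_lam D.top.ord D.top.nlam u) (W.valuation N) h1
  have h3 : smU (up N J) u = up N (smU J u) :=
    (pm_sm (IsScalarTower.toAlgHom K G N) (rp u) J).symm
  have h4 : lamQ (up N (smU J u)) = algebraMap G N (lamQ (smU J u)) :=
    lamQ_pm (IsScalarTower.toAlgHom K G N) (smU J u)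
  rw [h3, h4, DB.val_map_le, hW] at h2
  exact h2

theorem TwX.ndx {r : Gal(F/K) → Gal(G/K)}
    (hr : ∀ (s : Gal(F/K)) (x : F), r s (algebraMap F G x) = algebraMap F G (s x))
    (hd : ∀ w : HeightOneSpectrum (𝓞 G), w.valuation G (algebraMap K G (ϖ : K)) < 1 →
      w.valuation G (dX F k r J) = 1) : NDX F H k ϖ J := by
  classical
  have hgK : IsGalois K G := D.ab.gal
  have hgF : IsGalois K F := D.ab.galF
  have hfin : Finite (U H) := by
    have h1 : Finite (𝓞 K ⧸ Ideal.span {μ}) := by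
      refine Ideal.finiteQuotientOfFreeOfNeBot _ ?_
      rw [Ne, Ideal.span_singleton_eq_bot]
      exact D.ab.ne
    infer_instance
  have hft : Fintype (U H) := Fintype.ofFinite _
  -- the classes of the automorphisms
  obtain ⟨cl, hcl⟩ : ∃ cl : Gal(G/K) → U H, ∀ σ, ga σ J = smU J (cl σ) :=
    ⟨fun σ => (D.ab.mem σ).choose, fun σ => (D.ab.mem σ).choose_spec⟩
  have hginj : ∀ {σ τ : Gal(G/K)}, ga σ J = ga τ J → σ = τ := by
    intro σ τ h
    have h1 : ga (τ⁻¹ * σ) J = J := by rw [ga_mul, h, ← ga_mul, inv_mul_cancel, ga_one]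
    exact (inv_mul_eq_one.1 (D.ab.gen _ h1)).symm
  have hclmul : ∀ σ τ : Gal(G/K), cl (σ * τ) = cl σ * cl τ := by
    intro σ τ
    refine smU_inj D.ab.ord ?_
    have h2 : ga σ (smU J (cl τ)) = sm G (rp (cl τ)) (ga σ J) := ga_sm σ (rp (cl τ)) J
    rw [← hcl, ga_mul, hcl τ, h2, hcl σ, smU_mul D.ab.ord, mul_comm]
  have hclbij : Function.Bijective cl := by
    constructor
    · intro σ τ h
      exact hginj (by rw [hcl, hcl, h])
    · intro u
      obtain ⟨σ, hσ⟩ := D.ab.surj u
      exact ⟨σ, smU_inj D.ab.ord (by rw [← hcl, hσ])⟩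
  have hlamcl : ∀ σ : Gal(G/K), lamQ (smU J (cl σ)) = σ (lamQ J) := by
    intro σ
    rw [← hcl]
    exact lamQ_ga σ J
  -- the automorphisms of `G/K` as products
  obtain ⟨e, he⟩ : ∃ e : Gal(F/K) × Gal(G/F) → Gal(G/K),
      ∀ s β, e (s, β) = r s * AlgEquiv.restrictScalars K β :=
    ⟨fun p => r p.1 * AlgEquiv.restrictScalars K p.2, fun _ _ => rfl⟩
  have hebij : Function.Bijective e := by
    constructor
    · rintro ⟨s, β⟩ ⟨s', β'⟩ h
      rw [he, he] at h
      have hs : s = s' := by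
        refine AlgEquiv.ext fun x => (algebraMap F G).injective ?_
        have h1 := congrArg (fun ρ : Gal(G/K) => ρ (algebraMap F G x)) h
        have h2 : ∀ (a : Gal(F/K)) (b : Gal(G/F)),
            (r a * AlgEquiv.restrictScalars K b : Gal(G/K)) (algebraMap F G x) =
              algebraMap F G (a x) := by
          intro a b
          rw [AlgEquiv.mul_apply, AlgEquiv.restrictScalars_apply, b.commutes, hr]
        rw [← h2 s β, ← h2 s' β']
        exact h1
      subst hs
      have hβ := mul_left_cancel h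
      have hβ' : β = β' := by
        refine AlgEquiv.ext fun x => ?_
        exact congrArg (fun ρ : Gal(G/K) => ρ x) hβ
      rw [hβ']
    · intro σ
      obtain ⟨s, hs⟩ : ∃ s : Gal(F/K), ∀ x : F, algebraMap F G (s x) = σ (algebraMap F G x) :=
        ⟨σ.restrictNormal F, fun x => AlgEquiv.restrictNormal_commutes σ F x⟩
      have h9 : ∀ x : F, ((r s)⁻¹ * σ) (algebraMap F G x) = algebraMap F G x := by
        intro x
        rw [AlgEquiv.mul_apply, ← hs, ← hr, ← AlgEquiv.mul_apply, inv_mul_cancel,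
          AlgEquiv.one_apply]
      refine ⟨(s, AlgEquiv.ofRingEquiv (f := ((r s)⁻¹ * σ : Gal(G/K)).toRingEquiv) h9), ?_⟩
      rw [he]
      refine AlgEquiv.ext fun x => ?_
      show r s (((r s)⁻¹ * σ) x) = σ x
      rw [← AlgEquiv.mul_apply, mul_inv_cancel_left]
  obtain ⟨w, hw⟩ := nd_place (L := G) D.top.pd.prime
  intro c hTI hval
  -- the congruences
  have hcong : ∀ (s : Gal(F/K)) (β : Gal(G/F)),
      ϖ ∣ c (cl (e (s, β))) - cj (k β) * c (cl (r s)) := by
    intro s β
    have h1 : ga β J = smU J (cl (AlgEquiv.restrictScalars K β : Gal(G/K))) := by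
      rw [← hcl, nd_resK]
    have h2 := hTI β _ (cl (r s)) h1
    rw [← hclmul, ← he] at h2
    have h3 : c (cl (e (s, β))) - cj (k β) * c (cl (r s)) =
        cj (k β) * (k β * c (cl (e (s, β))) - c (cl (r s))) := by
      have h4 := D.kap.nrm β
      linear_combination (-(c (cl (e (s, β))))) * h4
    rw [h3]
    exact Dvd.dvd.mul_left h2 _
  -- the relation for the traces at all places
  have hsum : ∀ f : Gal(G/K) → G, ∑ σ : Gal(G/K), f σ =
      ∑ s : Gal(F/K), ∑ β : Gal(G/F), f (e (s, β)) := by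
    intro f
    rw [← hebij.sum_comp f, Fintype.sum_prod_type]
  have hrel : ∀ w : HeightOneSpectrum (𝓞 G), w.valuation G (algebraMap K G (ϖ : K)) < 1 →
      w.valuation G (∑ s : Gal(F/K), r s (thX F k J) * algebraMap K G (c (cl (r s)) : K)) < 1 := by
    intro w hw
    have h1 := hval w hw
    rw [finsum_eq_sum_of_fintype, ← hclbij.sum_comp
      (fun u : U H => algebraMap K G (c u : K) * lamQ (smU J u)), hsum] at h1
    have h2 : ∑ s : Gal(F/K), r s (thX F k J) * algebraMap K G (c (cl (r s)) : K) =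
        ∑ s : Gal(F/K), ∑ β : Gal(G/F),
          algebraMap K G (c (cl (e (s, β))) : K) * lamQ (smU J (cl (e (s, β)))) -
        ∑ s : Gal(F/K), ∑ β : Gal(G/F),
          algebraMap K G ((c (cl (e (s, β))) - cj (k β) * c (cl (r s)) : 𝓞 K) : K) *
            lamQ (smU J (cl (e (s, β)))) := by
      rw [← Finset.sum_sub_distrib]
      refine Finset.sum_congr rfl fun s _ => ?_
      rw [← Finset.sum_sub_distrib]
      unfold thX
      rw [map_sum, Finset.sum_mul]
      refine Finset.sum_congr rfl fun β _ => ?_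
      rw [nd_alg_sub, nd_alg_mul, hlamcl, he, map_mul, AlgEquiv.commutes, AlgEquiv.mul_apply,
        AlgEquiv.restrictScalars_apply]
      ring
    rw [h2]
    refine Valuation.map_sub_lt _ h1 ?_
    refine Valuation.map_sum_lt _ one_ne_zero (fun s _ => ?_)
    refine Valuation.map_sum_lt _ one_ne_zero (fun β _ => ?_)
    rw [map_mul]
    exact (mul_le_of_le_one_right' (nd_lamle D w hw _)).trans_lt
      ((D.top.pd.val_iff hw _).2 (hcong s β))
  -- the translates
  have hmat : ∀ t : Gal(F/K), w.valuation G (∑ s : Gal(F/K), r t (r s (thX F k J)) *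
      algebraMap K G (c (cl (r s)) : K)) < 1 := by
    intro t
    have h1 : (gpl (r t)⁻¹ w).valuation G (algebraMap K G (ϖ : K)) < 1 := by
      have h2 := gpl_val (r t)⁻¹ w (algebraMap K G (ϖ : K))
      rw [AlgEquiv.commutes] at h2
      rw [h2]
      exact hw
    have h2 := hrel _ h1
    have h3 := gpl_val (r t)⁻¹ w
      (r t (∑ s : Gal(F/K), r s (thX F k J) * algebraMap K G (c (cl (r s)) : K)))
    have h4 : (r t)⁻¹ (r t (∑ s : Gal(F/K), r s (thX F k J) *
        algebraMap K G (c (cl (r s)) : K))) =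
        ∑ s : Gal(F/K), r s (thX F k J) * algebraMap K G (c (cl (r s)) : K) := by
      rw [← AlgEquiv.mul_apply, inv_mul_cancel]
      rfl
    rw [h4] at h3
    rw [h3, map_sum] at h2
    refine lt_of_eq_of_lt (congrArg _ (Finset.sum_congr rfl fun s _ => ?_)) h2
    rw [map_mul, AlgEquiv.commutes]
  -- the matrix
  have hthX : ∀ σ : Gal(G/K), w.valuation G (σ (thX F k J)) ≤ 1 := by
    intro σ
    unfold thX
    rw [map_sum]
    refine Valuation.map_sum_le _ (fun β _ => ?_)
    have h1 : σ (algebraMap K G (cj (k β) : K) * β (lamQ J)) =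
        algebraMap K G (cj (k β) : K) *
          lamQ (smU J (cl (σ * AlgEquiv.restrictScalars K β))) := by
      rw [hlamcl, map_mul, AlgEquiv.commutes, AlgEquiv.mul_apply, AlgEquiv.restrictScalars_apply]
    rw [h1, map_mul]
    exact mul_le_one' (nd_alg_le w _) (nd_lamle D w hw _)
  have hM : ∀ i j : Gal(F/K), w.valuation G (r i (r j (thX F k J))) ≤ 1 := by
    intro i j
    exact hthX (r i * r j)
  have hdet : w.valuation G (Matrix.det (Matrix.of fun i j : Gal(F/K) =>
      r i (r j (thX F k J)))) = 1 := by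
    have h1 := hd w hw
    have h2 : dX F k r J = Matrix.det (Matrix.of fun i j : Gal(F/K) =>
        r i (r j (thX F k J))) := by
      unfold dX
      have h3 : ∀ (i1 i2 : DecidableEq Gal(F/K)) (A B : Matrix Gal(F/K) Gal(F/K) G), A = B →
          @Matrix.det _ i1 _ _ _ A = @Matrix.det _ i2 _ _ _ B := by
        intro i1 i2 A B h
        rw [h, Subsingleton.elim i1 i2]
      exact h3 _ _ _ _ rfl
    rw [← h2]
    exact h1
  have hfinal := nd_det (w.valuation G) (Matrix.of fun i j : Gal(F/K) =>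
      r i (r j (thX F k J))) hM hdet (fun s => algebraMap K G (c (cl (r s)) : K)) hmat
  intro u
  obtain ⟨σ, rfl⟩ := hclbij.2 u
  obtain ⟨⟨s, β⟩, rfl⟩ := hebij.2 σ
  have h1 : ϖ ∣ c (cl (r s)) := (D.top.pd.val_iff hw _).1 (hfinal s)
  have h2 := dvd_add (hcong s β) (Dvd.dvd.mul_left h1 (cj (k β)))
  rwa [sub_add_cancel] at h2

end

end

end Pool.Agent.Lib.MP_1a91b9_nuY.BF
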