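import Pool.Agent.Lib.MP_1a91b9_nuY.BF.Grp
import Pool.Agent.Lib.MP_1a91b9_nuX.DG.Comp
import Pool.Agent.Lib.MP_1a91b9_nuX.DG.Unr

/-!
# The field `N` over `K`

The field `N` is Galois over `K`, and it carries the structure `TopG` of the field of the base
points for itself.
-/

set_option autoImplicit false
set_option linter.unusedSectionVars false

namespace Pool.Agent.Lib.MP_1a91b9_nuY.BF

variable [Pool.Agent.Lib.MP_1a91b9_nuT.CD]

open NumberField IsDedekindDomain WeierstrassCurve Pool.Agent.Lib.MP_1a91b9_nuT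
open Pool.Agent.Lib.MP_1a91b9_nuX Pool.Agent.Lib.MP_1a91b9_nuX.DB Pool.Agent.Lib.MP_1a91b9_nuX.DG
open Pool.Agent.Lib.MP_1a91b9_nuX.DX (rs toF rs_apply rs_mul rs_toF toF_apply ga_toF exists_lift exists_of_rs_one)
open Pool.Agent.Lib.MP_1a91b9_nuY.TS

noncomputable section

section
variable {μ : 𝓞 K} {H : Subgroup (CU μ)} {ϖ : 𝓞 K} {ℓ q : ℕ} {F G N : Type}
  [Field F] [NumberField F] [Algebra K F] [Field G] [NumberField G] [Algebra K G] [Algebra F G]
  [IsScalarTower K F G] [DecidableEq G] [Field N] [NumberField N] [Algebra K N]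
  [Algebra G N] [IsScalarTower K G N] [IsGalois G N] [DecidableEq N] {P : Pt N} {J : Pt G}

omit [NumberField N] [NumberField G] in
private theorem btn_res [IsGalois K G] (σ : Gal(N/K)) (Q : Pt G) :
    ga σ (up N Q) = up N (ga (σ.restrictNormal G) Q) := by
  have e : (IsScalarTower.toAlgHom K G N).comp
      (((σ.restrictNormal G : G ≃ₐ[K] G) : G →ₐ[K] G).restrictScalars K) =
      ((σ : N →ₐ[K] N).restrictScalars K).comp (IsScalarTower.toAlgHom K G N) := by
    ext x
    exact σ.restrictNormal_commutes G x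
  unfold up
  rw [Affine.Point.map_map, Affine.Point.map_map, e]

private theorem btn_key (hAB : AB H F G J) (σ : Gal(N/K)) (hσ : ga σ (up N J) = up N J) (x : G) :
    σ (algebraMap G N x) = algebraMap G N x := by
  have hg : IsGalois K G := hAB.gal
  have h1 := btn_res (N := N) σ J
  rw [hσ] at h1
  have h2 : ga (σ.restrictNormal G) J = J := (up_inj h1).symm
  have h3 := hAB.gen _ h2
  have h4 := σ.restrictNormal_commutes G x
  rw [h3] at h4
  exact h4.symm

private theorem btn_eq (τ : Gal(N/G)) (σ : Gal(N/K)) (h : ∀ x, τ x = σ x) (Q : Pt N) :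
    ga τ Q = ga σ Q := by
  have e : ((τ : N →ₐ[G] N).restrictScalars K) = ((σ : N →ₐ[K] N).restrictScalars K) := by
    ext x
    exact h x
  unfold ga
  rw [e]

private theorem btn_gen (hAB : AB H F G J) (hg : ∀ τ : Gal(N/G), ga τ P = P → τ = 1)
    (σ : Gal(N/K)) (h1 : ga σ (up N J) = up N J) (h2 : ga σ P = P) : σ = 1 := by
  obtain ⟨τ, hτ⟩ : ∃ τ : Gal(N/G), ∀ x, τ x = σ x :=
    ⟨AlgEquiv.ofRingEquiv (f := (σ : N ≃+* N)) (btn_key hAB σ h1), fun _ => rfl⟩
  have h3 := hg τ ((btn_eq τ σ hτ P).trans h2)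
  ext x
  rw [← hτ x, h3]
  rfl

/-- the place `v` of `G` above `ϖ` -/
private theorem btn_v [FP] (hAB : AB H F G J) (h : PD ϖ ℓ q) (hμϖ : CW ℓ μ)
    (v : HeightOneSpectrum (𝓞 G))
    (hv1 : v.valuation G (algebraMap K G (ϖ : K)) < 1) :
    od v (algebraMap K G (ϖ : K)) = 1 ∧ v.valuation G (bD G) = 1 := by
  have hb : v.valuation G (bD G) = 1 := bad_of_pi h _ hv1
  have hr := unramA hAB v hb (v_cop _ (hμϖ.copμ h) hv1)
  refine ⟨?_, hb⟩
  rw [od_map (k := K), hr, Nat.cast_one, one_mul]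
  exact od_prime_K h.prime _ ((val_map_lt (k := K) v _).1 hv1)

theorem galKN (hAB : AB H F G J) (h : PD ϖ ℓ q) (hF : Full G ϖ P) : IsGalois K N := by
  classical
  have hg : IsGalois K G := hAB.gal
  obtain ⟨L, iL, iNL, iK, i0, iGL, t1, t2, t3, g1, g2, R, hR, hgen⟩ :=
    exists_ext K G h.prime.ne_zero
  have e : i0 = iK := by
    refine Algebra.algebra_ext _ _ fun r => ?_
    have h2 := @IsScalarTower.algebraMap_apply K K L _ _ _ _ i0 iK t1 r
    exact h2.symm
  subst e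
  obtain ⟨g⟩ := exists_embN (F := G) h.prime hF hR
  let iNL2 : Algebra N L := g.toRingHom.toAlgebra
  have tGN : IsScalarTower G N L := IsScalarTower.of_algebraMap_eq fun x => (g.commutes x).symm
  have tKN : IsScalarTower K N L := by
    refine IsScalarTower.of_algebraMap_eq fun x => ?_
    rw [IsScalarTower.algebraMap_apply K G L, IsScalarTower.algebraMap_apply K G N,
      IsScalarTower.algebraMap_apply G N L]
  have hϖ0 : ϖ ≠ 0 := h.prime.ne_zero
  have key : ∀ τ : Gal(L/N), τ = 1 := by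
    intro τ
    have h1 : ga (toF G τ) (up L P) = up L P := by
      rw [ga_toF]
      exact yyb_fix P τ
    have h2 : toF G τ = 1 := by
      obtain ⟨f⟩ := exists_emb L
      obtain ⟨c, hc⟩ := ord_cases f hϖ0 (up_ord (L := L) hF.ord) ((hR ϖ).2 dvd_rfl)
      apply hgen
      rw [hc, ga_sm, h1]
    apply AlgEquiv.ext
    intro x
    have h3 := congrArg (fun f : Gal(L/G) => f x) h2
    exact h3
  have gNL : IsGalois N L := IsGalois.tower_top_of_isGalois G N L
  have hfd : FiniteDimensional N L := Module.Finite.of_restrictScalars_finite ℚ N L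
  have hs : Function.Surjective (algebraMap N L) := by
    intro x
    have h1 : x ∈ (⊥ : IntermediateField N L) := by
      rw [IsGalois.mem_bot_iff_fixed]
      intro f
      rw [key f]
      rfl
    exact IntermediateField.mem_bot.1 h1
  have e2 : N ≃ₐ[K] L := AlgEquiv.ofBijective (IsScalarTower.toAlgHom K N L)
    ⟨(algebraMap N L).injective, hs⟩
  exact IsGalois.of_algEquiv e2.symm

theorem topN [FP] (hAB : AB H F G J) (hk : ¬ μ ∣ pk) (h : PD ϖ ℓ q) (hμϖ : CW ℓ μ)
    (hcu : ¬ ℓ ∣ Nat.card (U H)) (hF : Full G ϖ P) : TopG H ϖ ℓ q G N N P (up N J) := by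
  have hg : IsGalois K G := hAB.gal
  have hgN : IsGalois K N := galKN hAB h hF
  have hϖ0 : ϖ ≠ 0 := h.prime.ne_zero
  have hJ : Ord μ (up N J) := up_ord hAB.ord
  have hP : Ord ϖ P := hF.ord
  refine ⟨h, hgN, hF, hAB.ne, hJ, hk, hμϖ, hcu, ?_, ?_, ?_, ?_, ?_⟩
  · intro σ h1 h2
    rw [up_self] at h2
    exact btn_gen hAB hF.gen σ h1 h2
  · intro σ
    obtain ⟨u, hu⟩ := hAB.mem (σ.restrictNormal G)
    refine ⟨u, ?_⟩
    rw [btn_res, hu]
    exact up_sm (L := N) (rp u) J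
  · intro u d hd
    obtain ⟨σ', hσ'⟩ := hAB.surj u
    obtain ⟨σ, hσ⟩ := AlgEquiv.restrictNormalHom_surjective (F := K) (K₁ := G) N σ'
    have hσJ : ga σ (up N J) = smU (up N J) u := by
      rw [btn_res]
      have e1 : σ.restrictNormal G = σ' := hσ
      rw [e1, hσ']
      exact up_sm (L := N) (rp u) J
    obtain ⟨c, hc, hcP⟩ := gal_sm (k := K) hϖ0 hP σ
    have hcn : ¬ ϖ ∣ c := fun h1 => h.prime.not_isUnit (hc.isUnit_of_dvd' h1 dvd_rfl)
    obtain ⟨e, he⟩ := h.inv hcn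
    have hen : ¬ ϖ ∣ e := by
      intro h1
      apply h.prime.not_isUnit
      apply isUnit_of_dvd_one
      have h2 := dvd_sub (Dvd.dvd.mul_left h1 c) he
      rwa [sub_sub_cancel] at h2
    obtain ⟨τ, hτ⟩ := hF.all (d * e) (fun h1 => (h.prime.dvd_or_dvd h1).elim hd hen)
    obtain ⟨τ', hτ'⟩ : ∃ τ' : Gal(N/K), ∀ x, τ x = τ' x :=
      ⟨τ.restrictScalars K, fun _ => rfl⟩
    have hττ := btn_eq τ τ' hτ'
    refine ⟨σ * τ', ?_, ?_⟩
    · rw [ga_mul, ← hττ, yyb_fix, hσJ]
    · rw [up_self, ga_mul, ← hττ, hτ, ga_sm, hcP, sm_sm, hP.sm_eq_iff]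
      obtain ⟨z, hz⟩ := he
      exact ⟨d * z, by linear_combination d * hz⟩
  · intro σ hσ x
    exact btn_key hAB σ hσ x
  · intro W hW
    obtain ⟨v, hv⟩ : ∃ v : HeightOneSpectrum (𝓞 G), v = W.under (𝓞 G) := ⟨_, rfl⟩
    have hv1 : v.valuation G (algebraMap K G (ϖ : K)) < 1 := by
      rw [hv, ← val_map_lt (k := G) W, ← IsScalarTower.algebraMap_apply K G N]
      exact hW
    obtain ⟨ho, hb⟩ := btn_v hAB h hμϖ v hv1
    rw [up_self]
    exact ((ram (k := G) (F := N) h.prime hP hF.gen v ho hb).2.1 W hv.symm).2.2.1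

end

end

end Pool.Agent.Lib.MP_1a91b9_nuY.BF
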