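import Pool.Agent.Lib.MP_1a91b9_nuY.BF.Iso
import Pool.Agent.Lib.MP_1a91b9_nuT.DB.Cl
import Pool.Agent.Lib.MP_1a91b9_nuT.DB.Thaine
import Pool.Agent.Lib.MP_1a91b9_nuX.DB.El

/-!
# The class group step

An element whose divisor is divisible by `ℓ` is a unit times an `ℓ`-th power, or there is a nonzero
isotypic function on the places which vanishes on the principal divisors (cyclic action).
-/

set_option autoImplicit false
set_option linter.unusedSectionVars false

namespace Pool.Agent.Lib.MP_1a91b9_nuY.BF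

variable [Pool.Agent.Lib.MP_1a91b9_nuT.CD]

open NumberField IsDedekindDomain WeierstrassCurve Pool.Agent.Lib.MP_1a91b9_nuT
open Pool.Agent.Lib.MP_1a91b9_nuX Pool.Agent.Lib.MP_1a91b9_nuX.DB Pool.Agent.Lib.MP_1a91b9_nuX.DG
open Pool.Agent.Lib.MP_1a91b9_nuX.DX (rs toF rs_apply rs_mul rs_toF toF_apply ga_toF exists_lift exists_of_rs_one)
open Pool.Agent.Lib.MP_1a91b9_nuY.TS

noncomputable section

universe u

section
open Polynomial
variable {k N : Type u} [Field k] [NumberField k] [Field N] [NumberField N] [Algebra k N]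
  {ϖ : 𝓞 K} {ℓ q : ℕ}

theorem cl_units (h : PD ϖ ℓ q) {g : 𝓞 K} (hg : ∀ c : 𝓞 K, ¬ ϖ ∣ c → ∃ i : ℕ, ϖ ∣ c - g ^ i)
    {τ : Gal(N/k)} {α : Nˣ} (hα : ∀ w : HeightOneSpectrum (𝓞 N), (ℓ : ℤ) ∣ od w (α : N))
    (hA : IsoT ϖ g ℓ τ α) :
    (∃ ε y : Nˣ, (∀ w : HeightOneSpectrum (𝓞 N), od w (ε : N) = 0) ∧ α = ε * y ^ ℓ) ∨
    ∃ f : HeightOneSpectrum (𝓞 N) → ZMod ℓ, (∃ v, f v ≠ 0) ∧ PrincZero f ∧ IsoPT ϖ g ℓ τ f := by
  classical
  have hl0 : (ℓ : ℤ) ≠ 0 := by exact_mod_cast h.hl.ne_zero
  obtain ⟨A, hA0, hA⟩ := hA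
  -- the divisor `I`
  obtain ⟨I, hI⟩ : ∃ I : MP_1a91b9_nuT.DB.DD N, (ℓ : ℤ) • I = dv N (Additive.ofMul α) := by
    refine ⟨Finsupp.mapRange (fun n : ℤ => n / (ℓ : ℤ)) (Int.zero_ediv _)
      (dv N (Additive.ofMul α)), ?_⟩
    ext w
    rw [Finsupp.smul_apply, Finsupp.mapRange_apply, smul_eq_mul]
    exact Int.mul_ediv_cancel' (hα w)
  by_cases hx0 : (QuotientAddGroup.mk I : CC N) = 0
  · left
    rw [QuotientAddGroup.eq_zero_iff] at hx0
    obtain ⟨y, hy⟩ := hx0
    refine ⟨α * ((Additive.toMul y) ^ ℓ)⁻¹, Additive.toMul y, ?_, by rw [inv_mul_cancel_right]⟩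
    intro w
    have h1 : od w ((α : Nˣ) : N) = (ℓ : ℤ) * od w ((Additive.toMul y : Nˣ) : N) := by
      have h2 := DFunLike.congr_fun hI w
      rw [← hy, Finsupp.smul_apply, dv_apply, dv_apply, smul_eq_mul] at h2
      exact h2.symm
    rw [Units.val_mul, od_mul w (Units.ne_zero _) (Units.ne_zero _), Units.val_inv_eq_inv_val,
      od_inv, Units.val_pow_eq_pow_val, od_pow, h1]
    ring
  right
  -- the three endomorphisms
  set TU : Module.End ℤ (Additive Nˣ) :=
    (MonoidHom.toAdditive (Units.map (τ : N →* N))).toIntLinearMap with hTU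
  set TD : Module.End ℤ (MP_1a91b9_nuT.DB.DD N) := (tauD τ).toIntLinearMap with hTD
  set TC : Module.End ℤ (CC N) := (tauC τ).toIntLinearMap with hTC
  have hTU1 : ∀ y : Additive Nˣ, TU y = Additive.ofMul (sg τ (Additive.toMul y)) := fun y => rfl
  -- compatibility of polynomials
  have comp : ∀ {M M' : Type u} [AddCommGroup M] [AddCommGroup M'] (F : M →+ M')
      (S : Module.End ℤ M) (T : Module.End ℤ M'), (∀ y, F (S y) = T (F y)) →
      ∀ (f : ℤ[X]) (y : M), F (aeval S f y) = aeval T f (F y) := by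
    intro M M' _ _ F S T hST f y
    have hpow : ∀ (i : ℕ) (y : M), F ((S ^ i) y) = (T ^ i) (F y) := by
      intro i
      induction i with
      | zero => intro y; simp
      | succ i ih => intro y; rw [pow_succ, pow_succ, Module.End.mul_apply, ih, hST]; rfl
    induction f using Polynomial.induction_on' with
    | add p q hp hq => rw [map_add, map_add, LinearMap.add_apply, LinearMap.add_apply, map_add, hp, hq]
    | monomial n a =>
      rw [aeval_monomial, aeval_monomial, Module.End.mul_apply, Module.End.mul_apply,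
        Module.algebraMap_end_apply, Module.algebraMap_end_apply, map_zsmul, hpow]
  have hdv : ∀ (f : ℤ[X]) (y : Additive Nˣ), dv N (aeval TU f y) = aeval TD f (dv N y) :=
    comp (dv N) TU TD (fun y => (tauD_dv τ (Additive.toMul y)).symm)
  have hmk : ∀ (f : ℤ[X]) (y : MP_1a91b9_nuT.DB.DD N), (QuotientAddGroup.mk (aeval TD f y) : CC N) =
      aeval TC f (QuotientAddGroup.mk y : CC N) :=
    comp (QuotientAddGroup.mk' _) TD TC (fun y => rfl)
  -- the class in `El` of a polynomial of `α`
  have hel : ∀ f : ℤ[X], (QuotientAddGroup.mk (aeval TU f (Additive.ofMul α)) : El ℓ N) =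
      A (aeval g f) := by
    intro f
    have hpow : ∀ i : ℕ, (TU ^ i) (Additive.ofMul α) = Additive.ofMul (sg (τ ^ i) α) := by
      intro i
      induction i with
      | zero => rw [pow_zero, pow_zero]; rfl
      | succ i ih =>
        rw [pow_succ', Module.End.mul_apply, ih, hTU1, pow_succ', sg_sg]
        rfl
    induction f using Polynomial.induction_on' with
    | add p q hp hq =>
      rw [map_add, map_add, LinearMap.add_apply, map_add, QuotientAddGroup.mk_add, hp, hq]
    | monomial n a =>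
      rw [aeval_monomial, aeval_monomial, Module.End.mul_apply, Module.algebraMap_end_apply,
        hpow, QuotientAddGroup.mk_zsmul, algebraMap_int_eq, eq_intCast, ← zsmul_eq_mul, map_zsmul,
        ← hA n]
      rfl
  have hx : ∀ f : ℤ[X], ϖ ∣ aeval g f → aeval TC f (QuotientAddGroup.mk I : CC N) = 0 := by
    intro f hf
    have h1 := hel f
    rw [hA0 _ hf, QuotientAddGroup.eq_zero_iff] at h1
    obtain ⟨z, hz⟩ := h1
    have h2 : (ℓ : ℤ) • dv N z = (ℓ : ℤ) • aeval TD f I := by
      rw [← map_zsmul, ← map_zsmul, hI, ← hdv, ← hz]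
      exact congrArg (dv N) (natCast_zsmul z ℓ)
    have h3 : dv N z = aeval TD f I := by
      ext w
      have h4 := DFunLike.congr_fun h2 w
      rw [Finsupp.smul_apply, Finsupp.smul_apply, smul_eq_mul, smul_eq_mul] at h4
      exact mul_left_cancel₀ hl0 h4
    rw [← hmk, ← h3, QuotientAddGroup.eq_zero_iff]
    exact ⟨z, rfl⟩
  have hfin : Finite (CC N) := finite_cc N
  obtain ⟨φ, hφ0, hφ⟩ := exists_fun h TC hx0 hx
  set f : HeightOneSpectrum (𝓞 N) → ZMod ℓ :=
    fun v => φ (QuotientAddGroup.mk (Finsupp.single v 1) : CC N) with hf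
  have hfD : ∀ D : MP_1a91b9_nuT.DB.DD N, φ (QuotientAddGroup.mk D : CC N) = ∑ v ∈ D.support, D v • f v := by
    intro D
    conv_lhs => rw [← D.sum_single]
    rw [Finsupp.sum]
    have h1 : (QuotientAddGroup.mk (∑ v ∈ D.support, Finsupp.single v (D v)) : CC N) =
        ∑ v ∈ D.support, (QuotientAddGroup.mk (Finsupp.single v (D v)) : CC N) :=
      map_sum (QuotientAddGroup.mk' _) _ _
    rw [h1, map_sum]
    refine Finset.sum_congr rfl fun v _ => ?_
    have h2 : Finsupp.single v (D v) = D v • Finsupp.single v (1 : ℤ) := by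
      rw [Finsupp.smul_single, smul_eq_mul, mul_one]
    rw [h2, QuotientAddGroup.mk_zsmul, map_zsmul]
  refine ⟨f, ?_, ?_, ?_⟩
  · by_contra hcon
    push Not at hcon
    apply hφ0
    refine AddMonoidHom.ext fun x => ?_
    obtain ⟨D, rfl⟩ := QuotientAddGroup.mk_surjective x
    rw [hfD, AddMonoidHom.zero_apply]
    exact Finset.sum_eq_zero fun v _ => by rw [hcon v, smul_zero]
  · intro x hx
    have h1 := hfD (dv N (Additive.ofMul (Units.mk0 x hx)))
    have h2 : (QuotientAddGroup.mk (dv N (Additive.ofMul (Units.mk0 x hx))) : CC N) = 0 := by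
      rw [QuotientAddGroup.eq_zero_iff]
      exact ⟨_, rfl⟩
    rw [h2, map_zero] at h1
    rw [finsum_eq_sum_of_support_subset (s := (dv N (Additive.ofMul (Units.mk0 x hx))).support)]
    · exact h1.symm
    · intro v hv
      rw [Finset.mem_coe, Finsupp.mem_support_iff]
      intro h3
      apply hv
      have h4 : od v x = 0 := h3
      change od v x • f v = 0
      rw [h4, zero_smul]
  · intro w
    -- a polynomial for each class
    have hFc : ∀ c : 𝓞 K, ∃ F : ℤ[X], ϖ ∣ aeval g F - c := by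
      intro c
      by_cases hc : ϖ ∣ c
      · exact ⟨0, by rw [map_zero, zero_sub]; exact (dvd_neg).mpr hc⟩
      · obtain ⟨i, hi⟩ := hg c hc
        refine ⟨X ^ i, ?_⟩
        rw [map_pow, aeval_X, ← neg_sub]
        exact (dvd_neg).mpr hi
    choose F hFF using hFc
    have huniq : ∀ (p q : ℤ[X]), ϖ ∣ aeval g p - aeval g q →
        φ (aeval TC p (QuotientAddGroup.mk (Finsupp.single w 1) : CC N)) =
        φ (aeval TC q (QuotientAddGroup.mk (Finsupp.single w 1) : CC N)) := by
      intro p q hpq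
      rw [← map_sub] at hpq
      have h1 := hφ (p - q) (QuotientAddGroup.mk (Finsupp.single w 1) : CC N) hpq
      rw [map_sub, LinearMap.sub_apply, map_sub, sub_eq_zero] at h1
      exact h1
    refine ⟨AddMonoidHom.mk' (fun c => φ (aeval TC (F c)
      (QuotientAddGroup.mk (Finsupp.single w 1) : CC N))) ?_, ?_, ?_⟩
    · intro a b
      change φ (aeval TC (F (a + b)) _) = φ (aeval TC (F a) _) + φ (aeval TC (F b) _)
      rw [← map_add φ, ← LinearMap.add_apply, ← map_add (aeval TC)]
      apply huniq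
      rw [map_add]
      have e : aeval g (F (a + b)) - (aeval g (F a) + aeval g (F b)) =
          (aeval g (F (a + b)) - (a + b)) - (aeval g (F a) - a) - (aeval g (F b) - b) := by ring
      rw [e]
      exact dvd_sub (dvd_sub (hFF _) (hFF _)) (hFF _)
    · intro x hx
      change φ (aeval TC (F x) _) = 0
      rw [huniq (F x) 0]
      · rw [map_zero, LinearMap.zero_apply, map_zero]
      · rw [map_zero, sub_zero]
        have e : aeval g (F x) = (aeval g (F x) - x) + x := by ring
        rw [e]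
        exact dvd_add (hFF _) hx
    · intro i
      change f (gpl (τ ^ i) w) = φ (aeval TC (F (g ^ i)) _)
      rw [huniq (F (g ^ i)) (X ^ i)]
      · rw [map_pow, aeval_X]
        have h1 : ∀ j : ℕ, (TC ^ j) (QuotientAddGroup.mk (Finsupp.single w 1) : CC N) =
            (QuotientAddGroup.mk (Finsupp.single (gpl (τ ^ j) w) 1) : CC N) := by
          intro j
          induction j with
          | zero => rw [pow_zero, pow_zero, gpl_one]; rfl
          | succ j ih =>
            rw [pow_succ', Module.End.mul_apply, ih, pow_succ', gpl_mul]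
            exact tauC_single τ _
        rw [h1]
      · rw [map_pow, aeval_X]
        exact hFF _

end

end

end Pool.Agent.Lib.MP_1a91b9_nuY.BF
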