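import Pool.Agent.Lib.MP_1a91b9_nuY.BF.Grp

/-!
# The field of the invariants

The automorphisms which fix `P` for the twisted action form a subgroup of the commutative group
`Gal(N/K)`; its field of invariants is the field `N₁`.
-/

set_option autoImplicit false
set_option linter.unusedSectionVars false

namespace Pool.Agent.Lib.MP_1a91b9_nuY.BF

variable [Pool.Agent.Lib.MP_1a91b9_nuT.CD]

open NumberField IsDedekindDomain WeierstrassCurve Pool.Agent.Lib.MP_1a91b9_nuT
open Pool.Agent.Lib.MP_1a91b9_nuX Pool.Agent.Lib.MP_1a91b9_nuX.DB Pool.Agent.Lib.MP_1a91b9_nuX.DG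
open Pool.Agent.Lib.MP_1a91b9_nuX.DX (rs toF rs_apply rs_mul rs_toF toF_apply ga_toF exists_lift exists_of_rs_one)
open Pool.Agent.Lib.MP_1a91b9_nuY.TS

noncomputable section

variable [FP]

section
variable {μ : 𝓞 K} {H : Subgroup (CU μ)} {ϖ : 𝓞 K} {ℓ q : ℕ} {F G N : Type}
  [Field F] [NumberField F] [Algebra K F] [Field G] [NumberField G] [Algebra K G] [Algebra F G]
  [IsScalarTower K F G] [IsGalois F G] [DecidableEq G] [Field N] [NumberField N] [Algebra K N]
  [Algebra F N] [Algebra G N] [IsScalarTower K F N] [IsScalarTower K G N] [IsScalarTower F G N]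
  [IsGalois F N] [IsGalois G N] [DecidableEq N] {k : Gal(G/F) → 𝓞 K} {P : Pt N} {J : Pt G}

private def fix_res {F N : Type} [Field F] [Algebra K F] [Field N] [Algebra K N] [Algebra F N]
    [IsScalarTower K F N] : Gal(N/F) →* Gal(N/K) where
  toFun σ := AlgEquiv.restrictScalars K σ
  map_one' := rfl
  map_mul' _ _ := rfl

private theorem fix_res_apply {F N : Type} [Field F] [Algebra K F] [Field N] [Algebra K N]
    [Algebra F N] [IsScalarTower K F N] (s : Gal(N/F)) (z : N) : fix_res s z = s z := rfl

private theorem fix_res_inj {F N : Type} [Field F] [Algebra K F] [Field N] [Algebra K N]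
    [Algebra F N] [IsScalarTower K F N] : Function.Injective (fix_res (F := F) (N := N)) := by
  intro σ τ h
  apply AlgEquiv.ext
  intro x
  exact congrArg (fun ρ : Gal(N/K) => ρ x) h

variable (D : TwX H ϖ ℓ q F G N k P J)
include D

private theorem fix_gen {g : 𝓞 K} (hg : ∀ c : 𝓞 K, ¬ ϖ ∣ c → ∃ i : ℕ, ϖ ∣ c - g ^ i)
    {τ : Gal(N/G)} (hτ : ga τ P = sm N g P) (σ : Gal(N/G)) : σ ∈ Subgroup.zpowers τ := by
  have h := D.pd
  have hF := D.full
  obtain ⟨c, _, hσ⟩ := gal_sm h.prime.ne_zero hF.ord σ
  obtain ⟨i, hi⟩ := hg c (Full.c_ne h hF hσ)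
  have h1 : ∀ i : ℕ, ga (τ ^ i) P = sm N (g ^ i) P := by
    intro i
    induction i with
    | zero =>
      rw [pow_zero, pow_zero, ga_one, map_one]
      rfl
    | succ i ih =>
      rw [pow_succ, ga_mul, hτ, ga_sm, ih, pow_succ', map_mul]
      rfl
  have h2 : ga σ P = ga (τ ^ i) P := by
    rw [hσ, h1]
    exact (hF.ord.sm_eq_iff c (g ^ i)).2 hi
  have h3 : ga ((τ ^ i)⁻¹ * σ) P = P := by
    rw [ga_mul, h2, ← ga_mul, inv_mul_cancel, ga_one]
  have h4 := hF.gen _ h3
  refine ⟨i, ?_⟩
  show τ ^ (i : ℤ) = σ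
  rw [zpow_natCast]
  exact inv_mul_eq_one.1 h4

theorem TwX.exists_sub {g : 𝓞 K} (hg : ∀ c : 𝓞 K, ¬ ϖ ∣ c → ∃ i : ℕ, ϖ ∣ c - g ^ i)
    {τ : Gal(N/G)} (hτ : ga τ P = sm N g P) :
    ∃ (N₁ : Type) (_ : Field N₁) (_ : NumberField N₁) (_ : Algebra K N₁) (_ : Algebra N₁ N)
      (_ : IsScalarTower K N₁ N) (τ₁ : Gal(N₁/K)), SubX ℓ q F G N N₁ k P τ τ₁ := by
  have hgal : IsGalois K N := D.top.gal
  have hcomm : ∀ σ ρ : Gal(N/K), σ * ρ = ρ * σ := fun σ ρ => D.top.comm' σ ρ
  let T' : Subgroup Gal(N/K) := (TT D.kap P).map fix_res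
  have hT'n : T'.Normal := by
    constructor
    intro a ha b
    rw [hcomm b a, mul_assoc, mul_inv_cancel, mul_one]
    exact ha
  have hcT : Nat.card T' = Module.finrank F G := by
    rw [← D.card_TT]
    exact (Nat.card_congr ((TT D.kap P).equivMapOfInjective fix_res fix_res_inj).toEquiv).symm
  have hmT : ∀ σ : Gal(N/K), σ ∈ T' ↔ ∃ s : Gal(N/F), gk G k s P = P ∧ fix_res s = σ := by
    intro σ
    constructor
    · rintro ⟨s, hs, rfl⟩
      exact ⟨s, hs, rfl⟩
    · rintro ⟨s, hs, rfl⟩
      exact ⟨s, hs, rfl⟩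
  have hfix : Module.finrank (IntermediateField.fixedField T') N = Module.finrank F G := by
    rw [IntermediateField.finrank_fixedField_eq_card, hcT]
  have hgal1 : IsGalois K (IntermediateField.fixedField T') :=
    IsGalois.of_fixedField_normal_subgroup T'
  have hgal2 : IsGalois (IntermediateField.fixedField T') N :=
    IsGalois.tower_top_of_isGalois K (IntermediateField.fixedField T') N
  have hres : ∀ z₁ : IntermediateField.fixedField T',
      algebraMap (IntermediateField.fixedField T') N
        ((AlgEquiv.restrictNormal (AlgEquiv.restrictScalars K τ) (IntermediateField.fixedField T')) z₁) =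
      τ (algebraMap (IntermediateField.fixedField T') N z₁) := fun z₁ =>
    AlgEquiv.restrictNormal_commutes (AlgEquiv.restrictScalars K τ)
      (IntermediateField.fixedField T') z₁
  set τ₁ : Gal((IntermediateField.fixedField T')/K) :=
    AlgEquiv.restrictNormal (AlgEquiv.restrictScalars K τ) (IntermediateField.fixedField T')
  have hresp : ∀ (i : ℕ) (z₁ : IntermediateField.fixedField T'),
      algebraMap (IntermediateField.fixedField T') N ((τ₁ ^ i) z₁) =
      (τ ^ i) (algebraMap (IntermediateField.fixedField T') N z₁) := by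
    intro i
    induction i with
    | zero =>
      intro z₁
      rw [pow_zero, pow_zero]
      rfl
    | succ i ih =>
      intro z₁
      rw [pow_succ, pow_succ, AlgEquiv.mul_apply, AlgEquiv.mul_apply, ih, hres]
  have hcard := Full.card D.pd D.full
  have hordτ : orderOf τ = Module.finrank G N := by
    rw [orderOf_eq_card_of_forall_mem_zpowers (fix_gen D hg hτ), IsGalois.card_aut_eq_finrank]
  have hord : orderOf τ₁ = orderOf τ := by
    rw [orderOf_eq_orderOf_iff]
    intro i
    constructor
    · intro h1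
      have h2 : fix_res (τ ^ i) ∈ T' := by
        rw [← IntermediateField.fixingSubgroup_fixedField T',
          IntermediateField.mem_fixingSubgroup_iff]
        intro x hx
        have h3 := hresp i ⟨x, hx⟩
        rw [h1] at h3
        exact h3.symm
      obtain ⟨s, hs, hs2⟩ := (hmT _).mp h2
      have h4 : s = toF F (τ ^ i) := by
        apply AlgEquiv.ext
        intro z
        have h5 := congrArg (fun ρ : Gal(N/K) => ρ z) hs2
        exact h5
      have h6 : s = 1 := D.rs_inj hs (by rw [h4]; exact rs_toF (τ ^ i))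
      apply AlgEquiv.ext
      intro z
      have h7 := congrArg (fun ρ : Gal(N/F) => ρ z) (h4.symm.trans h6)
      exact h7
    · intro h1
      apply AlgEquiv.ext
      intro z₁
      apply (algebraMap (IntermediateField.fixedField T') N).injective
      rw [hresp, h1]
      rfl
  refine ⟨IntermediateField.fixedField T', inferInstance, inferInstance, inferInstance,
    inferInstance, inferInstance, τ₁, hgal1, hgal2, ?_, ?_, ?_, ?_, ?_, hres⟩
  · rw [hfix, ← D.card_TT]
    exact D.cop_TT
  · intro z hz
    have h1 : z ∈ IntermediateField.fixedField T' := by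
      rw [IntermediateField.mem_fixedField_iff]
      intro f hf
      obtain ⟨s, hs, rfl⟩ := (hmT f).mp hf
      exact hz s hs
    exact ⟨⟨z, h1⟩, rfl⟩
  · intro z₁ s hs
    have h1 := (IntermediateField.mem_fixedField_iff T' (z₁ : N)).mp z₁.2
    exact h1 (fix_res s) ((hmT _).mpr ⟨s, hs, rfl⟩)
  · rw [hord, hordτ]
    omega
  · have e1 := Module.finrank_mul_finrank K (IntermediateField.fixedField T') N
    have e2 := Module.finrank_mul_finrank K F N
    have e3 := Module.finrank_mul_finrank F G N
    have e4 : 0 < Module.finrank F G := Module.finrank_pos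
    have e5 : Module.finrank G N = q - 1 := by omega
    rw [hfix] at e1
    rw [← e3, e5] at e2
    have e6 : Module.finrank K (IntermediateField.fixedField T') * Module.finrank F G =
        Module.finrank K F * (q - 1) * Module.finrank F G := by
      rw [e1, ← e2]
      ring
    exact Nat.eq_of_mul_eq_mul_right e4 e6

end

end

end Pool.Agent.Lib.MP_1a91b9_nuY.BF
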