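import Pool.Agent.Lib.MP_1a91b9_nuY.BF.Defs
import Pool.Agent.Lib.MP_1a91b9_nuT.DG.F2
import Pool.Agent.Lib.MP_1a91b9_nuX.DG.F2

/-!
# Isotypic elements and functions for a cyclic group

`IsoT`: the element `y` is isotypic modulo `ℓ`-th powers for the action of `τ`; `IsoPT`: the same for functions on the places.
-/

set_option autoImplicit false
set_option linter.unusedSectionVars false

namespace Pool.Agent.Lib.MP_1a91b9_nuY.BF

variable [Pool.Agent.Lib.MP_1a91b9_nuT.CD]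

open NumberField IsDedekindDomain WeierstrassCurve Pool.Agent.Lib.MP_1a91b9_nuT
open Pool.Agent.Lib.MP_1a91b9_nuX Pool.Agent.Lib.MP_1a91b9_nuX.DB Pool.Agent.Lib.MP_1a91b9_nuX.DG
open Pool.Agent.Lib.MP_1a91b9_nuX.DX (rs toF rs_apply rs_mul rs_toF toF_apply ga_toF exists_lift exists_of_rs_one)
open Pool.Agent.Lib.MP_1a91b9_nuY.TS

noncomputable section

universe u

/-- the quadratic equation of an element of `𝓞 K` -/
private theorem iso_alg (g : 𝓞 K) : g ^ 2 - ((Algebra.trace ℤ (𝓞 K) g : ℤ) : 𝓞 K) * g +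
    ((Algebra.norm ℤ g : ℤ) : 𝓞 K) = 0 := by
  have hfr : Module.finrank ℤ (𝓞 K) = 2 := finrank_O
  let b : Module.Basis (Fin 2) ℤ (𝓞 K) := Module.finBasisOfFinrankEq ℤ (𝓞 K) hfr
  have h1 := Matrix.aeval_self_charpoly (Algebra.leftMulMatrix b g)
  rw [Polynomial.aeval_algHom_apply] at h1
  have h2 : Polynomial.aeval g (Algebra.leftMulMatrix b g).charpoly = 0 :=
    Algebra.leftMulMatrix_injective b (by rw [h1, map_zero])
  rw [Matrix.charpoly_fin_two] at h2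
  rw [Algebra.trace_eq_matrix_trace b, Algebra.norm_eq_matrix_det b]
  simpa using h2

section
variable {k N : Type u} [Field k] [Field N] [Algebra k N]

/-- `y` is isotypic for `τ`, the eigenvalue is the class of `g` modulo `ϖ` -/
def IsoT (ϖ g : 𝓞 K) (ℓ : ℕ) (τ : Gal(N/k)) (y : Nˣ) : Prop :=
  ∃ A : 𝓞 K →+ El ℓ N, (∀ x : 𝓞 K, ϖ ∣ x → A x = 0) ∧
    ∀ i : ℕ, el ℓ (sg (τ ^ i) y) = A (g ^ i)

end

section
variable {k N : Type u} [Field k] [NumberField k] [Field N] [NumberField N] [Algebra k N]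

/-- the function `f` on the places is isotypic for `τ` -/
def IsoPT (ϖ g : 𝓞 K) (ℓ : ℕ) (τ : Gal(N/k)) (f : HeightOneSpectrum (𝓞 N) → ZMod ℓ) : Prop :=
  ∀ w : HeightOneSpectrum (𝓞 N), ∃ B : 𝓞 K →+ ZMod ℓ, (∀ x : 𝓞 K, ϖ ∣ x → B x = 0) ∧
    ∀ i : ℕ, f (gpl (τ ^ i) w) = B (g ^ i)

end

section
variable {k N : Type u} [Field k] [Field N] [Algebra k N] {ϖ g : 𝓞 K} {ℓ : ℕ} {τ : Gal(N/k)}

theorem IsoT.mul {a b : Nˣ} (ha : IsoT ϖ g ℓ τ a) (hb : IsoT ϖ g ℓ τ b) :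
    IsoT ϖ g ℓ τ (a * b) := by
  obtain ⟨A, hA0, hA⟩ := ha
  obtain ⟨B, hB0, hB⟩ := hb
  refine ⟨AddMonoidHom.mk' (fun c => A c + B c) (fun x y => ?_), fun x hx => ?_, fun i => ?_⟩
  · rw [map_add, map_add]
    exact add_add_add_comm _ _ _ _
  · show A x + B x = 0
    rw [hA0 x hx, hB0 x hx]
    exact add_zero (0 : El ℓ N)
  · rw [sg_mul, el_mul, hA, hB]
    rfl

theorem IsoT.inv {a : Nˣ} (ha : IsoT ϖ g ℓ τ a) : IsoT ϖ g ℓ τ a⁻¹ := by
  obtain ⟨A, hA0, hA⟩ := ha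
  refine ⟨AddMonoidHom.mk' (fun c => -A c) (fun x y => ?_), fun x hx => ?_, fun i => ?_⟩
  · rw [map_add]
    exact neg_add (α := El ℓ N) _ _
  · show -A x = 0
    rw [hA0 x hx]
    exact neg_zero (G := El ℓ N)
  · rw [sg_inv, el_inv, hA]
    rfl

theorem IsoT.pow_ell (a : Nˣ) : IsoT ϖ g ℓ τ (a ^ ℓ) := by
  refine ⟨0, fun x _ => rfl, fun i => ?_⟩
  rw [sg_pow, el_pow, nsmul_el]
  rfl

/-- the quadratic equation -/
theorem IsoT.quad {y : Nˣ} (hy : IsoT ϖ g ℓ τ y) : ∃ z : Nˣ, sg (τ ^ 2) y *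
    (sg τ y) ^ (-Algebra.trace ℤ (𝓞 K) g) * y ^ (Algebra.norm ℤ g) = z ^ ℓ := by
  obtain ⟨A, -, hA⟩ := hy
  have e2 := hA 2
  have e1 := hA 1
  have e0 := hA 0
  rw [pow_one, pow_one] at e1
  rw [pow_zero, pow_zero] at e0
  have e0' : el ℓ y = A 1 := by
    rw [← e0]
    congr 1
  have hm : ∀ (t : ℤ) (x : 𝓞 K), t • A x = A (t • x) := fun t x => (map_zsmul A t x).symm
  rw [← el_eq_zero, el_mul, el_mul, el_zpow, el_zpow, e2, e1, e0', hm, hm, ← map_add, ← map_add]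
  have h3 : g ^ 2 + (-Algebra.trace ℤ (𝓞 K) g) • g + (Algebra.norm ℤ g) • (1 : 𝓞 K) = 0 := by
    rw [zsmul_eq_mul, zsmul_eq_mul]
    push_cast
    linear_combination iso_alg g
  rw [h3, map_zero]

end

end

end Pool.Agent.Lib.MP_1a91b9_nuY.BF
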