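import Pool.Agent.Lib.MP_1a91b9_nuY.BF.Grp
import Pool.Agent.Lib.MP_1a91b9_nuY.BF.Iso
import Pool.Agent.Lib.MP_1a91b9_nuT.DS.Defs
import Pool.Agent.Lib.MP_1a91b9_nuT.DB.Dens

/-!
# Descent to the field of the invariants

`N/N₁` is a Galois extension of degree prime to `ℓ`: `ℓ`-th powers, orders divisible by `ℓ` and the
isotypic elements for the twisted action descend to `N₁`.
-/

set_option autoImplicit false
set_option linter.unusedSectionVars false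

namespace Pool.Agent.Lib.MP_1a91b9_nuY.BF

variable [Pool.Agent.Lib.MP_1a91b9_nuT.CD]

open NumberField IsDedekindDomain WeierstrassCurve Pool.Agent.Lib.MP_1a91b9_nuT
open Pool.Agent.Lib.MP_1a91b9_nuX Pool.Agent.Lib.MP_1a91b9_nuX.DB Pool.Agent.Lib.MP_1a91b9_nuX.DG
open Pool.Agent.Lib.MP_1a91b9_nuX.DX (rs toF rs_apply rs_mul rs_toF toF_apply ga_toF exists_lift exists_of_rs_one)
open Pool.Agent.Lib.MP_1a91b9_nuY.TS

noncomputable section

variable [FP]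

section
variable {μ : 𝓞 K} {H : Subgroup (CU μ)} {ϖ : 𝓞 K} {ℓ q : ℕ} {F G N : Type}
  [Field F] [NumberField F] [Algebra K F] [Field G] [NumberField G] [Algebra K G] [Algebra F G]
  [IsScalarTower K F G] [IsGalois F G] [DecidableEq G] [Field N] [NumberField N] [Algebra K N]
  [Algebra F N] [Algebra G N] [IsScalarTower K F N] [IsScalarTower K G N] [IsScalarTower F G N]
  [IsGalois F N] [IsGalois G N] [DecidableEq N] {k : Gal(G/F) → 𝓞 K} {P : Pt N} {J : Pt G}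

variable {N₁ : Type} [Field N₁] [NumberField N₁] [Algebra K N₁] [Algebra N₁ N]
  [IsScalarTower K N₁ N] {τ : Gal(N/G)} {τ₁ : Gal(N₁/K)}

private theorem dsc_ram (k L : Type) [Field k] [NumberField k] [Field L] [NumberField L]
    [Algebra k L] [IsGalois k L] (W : HeightOneSpectrum (𝓞 L)) :
    W.asIdeal.ramificationIdx (𝓞 k) ∣ Module.finrank k L := by
  have i1 : (W.under (𝓞 k)).asIdeal.IsPrime := (W.under (𝓞 k)).isPrime
  have i1m : (W.under (𝓞 k)).asIdeal.IsMaximal := (W.under (𝓞 k)).isMaximal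
  have i2 : W.asIdeal.IsPrime := W.isPrime
  have i3 : W.asIdeal.LiesOver (W.under (𝓞 k)).asIdeal := ⟨rfl⟩
  have hfund := Ideal.ncard_primesOver_mul_ramificationIdxIn_mul_inertiaDegIn
    (W.under (𝓞 k)).asIdeal (𝓞 L) Gal(L/k)
  rw [IsGalois.card_aut_eq_finrank, Ideal.ramificationIdxIn_eq_ramificationIdx
    (W.under (𝓞 k)).asIdeal W.asIdeal Gal(L/k), Ideal.inertiaDegIn_eq_inertiaDeg
    (W.under (𝓞 k)).asIdeal W.asIdeal Gal(L/k)] at hfund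
  rw [← hfund]
  exact (Dvd.intro _ rfl).mul_left _

private theorem dsc_over {k N : Type} [Field k] [NumberField k] [Field N] [NumberField N]
    [Algebra k N] (v : HeightOneSpectrum (𝓞 k)) :
    ∃ W : HeightOneSpectrum (𝓞 N), W.under (𝓞 k) = v := by
  obtain ⟨P, hPm, hP⟩ := Ideal.exists_maximal_ideal_liesOver_of_isIntegral (S := 𝓞 N) v.asIdeal
  refine ⟨⟨P, hPm.isPrime, ?_⟩, ?_⟩
  · intro hb
    apply v.ne_bot
    rw [hP.over, hb]
    exact Ideal.comap_bot_of_injective _ (FaithfulSMul.algebraMap_injective (𝓞 k) (𝓞 N))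
  · apply HeightOneSpectrum.ext
    exact hP.over.symm

theorem SubX.pow_desc (S : SubX ℓ q F G N N₁ k P τ τ₁) {y : N₁ˣ}
    (hy : ∃ z : Nˣ, MP_1a91b9_nuT.DS.inU N₁ N y = z ^ ℓ) : ∃ z : N₁ˣ, y = z ^ ℓ := by
  by_contra h
  obtain ⟨z, hz⟩ := hy
  refine MP_1a91b9_nuT.DB.not_pow_up S.deg (ξ := (y : N₁)) y.ne_zero ?_ ⟨(z : N), ?_⟩
  · rintro ⟨w, hw⟩
    apply h
    rcases eq_or_ne ℓ 0 with h0 | h0
    · refine ⟨1, Units.ext ?_⟩
      rw [hw, h0, pow_zero, pow_zero]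
      rfl
    · have hw0 : w ≠ 0 := by
        rintro rfl
        rw [zero_pow h0] at hw
        exact y.ne_zero hw
      exact ⟨Units.mk0 w hw0, Units.ext hw⟩
  · have h1 := congrArg (fun u : Nˣ => (u : N)) hz
    exact h1

theorem SubX.od_desc (S : SubX ℓ q F G N N₁ k P τ τ₁) (hℓ : ℓ.Prime) {y : N₁} (hy0 : y ≠ 0)
    (hy : ∀ W : HeightOneSpectrum (𝓞 N), (ℓ : ℤ) ∣ od W (algebraMap N₁ N y))
    (w : HeightOneSpectrum (𝓞 N₁)) : (ℓ : ℤ) ∣ od w y := by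
  have _ := hℓ
  have _ := hy0
  have := S.gal
  obtain ⟨W, hW⟩ := dsc_over (k := N₁) (N := N) w
  have h1 := hy W
  rw [od_map (k := N₁) W y, hW] at h1
  have h2 := dsc_ram N₁ N W
  have h3 : (W.asIdeal.ramificationIdx (𝓞 N₁)).Coprime ℓ := Nat.Coprime.coprime_dvd_left h2 S.deg
  have h4 : IsCoprime (ℓ : ℤ) (W.asIdeal.ramificationIdx (𝓞 N₁) : ℤ) :=
    (Nat.isCoprime_iff_coprime.mpr h3).symm
  exact h4.dvd_of_dvd_mul_left h1

theorem SubX.od_zero (S : SubX ℓ q F G N N₁ k P τ τ₁) {y : N₁} (hy0 : y ≠ 0)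
    (hy : ∀ W : HeightOneSpectrum (𝓞 N), od W (algebraMap N₁ N y) = 0)
    (w : HeightOneSpectrum (𝓞 N₁)) : od w y = 0 := by
  have _ := hy0
  have _ := S.gal
  obtain ⟨W, hW⟩ := dsc_over (k := N₁) (N := N) w
  have h1 := hy W
  rw [od_map (k := N₁) W y, hW] at h1
  have h2 : 0 < W.asIdeal.ramificationIdx (𝓞 N₁) := ramIdx_pos W
  rcases mul_eq_zero.mp h1 with h3 | h3
  · exact absurd (Nat.cast_eq_zero.mp h3) h2.ne'
  · exact h3

theorem TwX.proj (D : TwX H ϖ ℓ q F G N k P J) (S : SubX ℓ q F G N N₁ k P τ τ₁) {y : Nˣ}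
    (hy : IsoK G k ℓ P y) :
    ∃ (y₁ : N₁ˣ) (z : Nˣ), y = MP_1a91b9_nuT.DS.inU N₁ N y₁ * z ^ ℓ := by
  classical
  let _ : Fintype (TT D.kap P) := Fintype.ofFinite _
  obtain ⟨A, hA⟩ := hy
  let y₀ : Nˣ := ∏ s : TT D.kap P, sg (s : Gal(N/F)) y
  have h1 : ∀ t : Gal(N/F), gk G k t P = P → sg t y₀ = y₀ := by
    intro t ht
    have e1 : sg t y₀ = ∏ s : TT D.kap P, sg t (sg (s : Gal(N/F)) y) := by
      show Units.map (t : N →* N) (∏ s : TT D.kap P, sg (s : Gal(N/F)) y) = _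
      rw [map_prod]
      rfl
    rw [e1]
    exact Fintype.prod_equiv (Equiv.mulLeft (⟨t, ht⟩ : TT D.kap P)) _ _ (fun s => rfl)
  obtain ⟨z₁, hz₁⟩ := S.mem ((y₀ : Nˣ) : N) (fun s hs => by
    have h2 := congrArg (fun u : Nˣ => (u : N)) (h1 s hs)
    exact h2)
  have hz0 : z₁ ≠ 0 := by
    rintro rfl
    rw [map_zero] at hz₁
    exact y₀.ne_zero hz₁.symm
  have hu : MP_1a91b9_nuT.DS.inU N₁ N (Units.mk0 z₁ hz0) = y₀ := Units.ext hz₁
  have hfixP : ∀ s : Gal(N/F), gk G k s P = P → el ℓ (sg s y) = A 1 := by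
    intro s hs
    apply hA
    rw [hs, map_one]
    rfl
  have hA1 : el ℓ y = A 1 := by
    have h2 := hfixP 1 (gk_one D.kap P)
    rw [← h2]
    congr 1
  have hel : el ℓ y₀ = (Nat.card (TT D.kap P)) • el ℓ y := by
    show el ℓ (∏ s : TT D.kap P, sg (s : Gal(N/F)) y) = _
    rw [el_prod, Finset.sum_congr rfl (fun (s : TT D.kap P) _ => hfixP s s.2), Finset.sum_const,
      Finset.card_univ, Nat.card_eq_fintype_card, hA1]
  have hbez := Nat.gcd_eq_gcd_ab (Nat.card (TT D.kap P)) ℓ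
  rw [show Nat.gcd (Nat.card (TT D.kap P)) ℓ = 1 from D.cop_TT] at hbez
  set a := Nat.gcdA (Nat.card (TT D.kap P)) ℓ
  set b := Nat.gcdB (Nat.card (TT D.kap P)) ℓ
  obtain ⟨z, hz⟩ := el_eq.mp (hel.trans (el_pow y _).symm)
  refine ⟨(Units.mk0 z₁ hz0) ^ a, y ^ b * z ^ (-a), ?_⟩
  have e1 : (Nat.card (TT D.kap P) : ℤ) * a + b * (ℓ : ℤ) = 1 := by
    push_cast at hbez
    linarith
  have e2 : (ℓ : ℤ) * a + -a * (ℓ : ℤ) = 0 := by ring
  rw [map_zpow, hu, hz, mul_zpow, mul_pow, ← zpow_natCast y (Nat.card (TT D.kap P)),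
    ← zpow_natCast z ℓ, ← zpow_mul, ← zpow_mul, ← zpow_natCast (y ^ b) ℓ,
    ← zpow_natCast (z ^ (-a)) ℓ, ← zpow_mul, ← zpow_mul, mul_mul_mul_comm, ← zpow_add,
    ← zpow_add, e1, e2, zpow_one, zpow_zero, mul_one]

theorem TwX.isoT (D : TwX H ϖ ℓ q F G N k P J) (S : SubX ℓ q F G N N₁ k P τ τ₁) {g : 𝓞 K}
    (hg : ∀ c : 𝓞 K, ¬ ϖ ∣ c → ∃ i : ℕ, ϖ ∣ c - g ^ i) (hτ : ga τ P = sm N g P) {y₁ : N₁ˣ}
    (hy : Iso G ℓ P (MP_1a91b9_nuT.DS.inU N₁ N y₁)) : IsoT ϖ g ℓ τ₁ y₁ := by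
  have h := D.pd
  have hF := D.full
  have hτi : ∀ i : ℕ, ga (τ ^ i) P = sm N (g ^ i) P := by
    intro i
    induction i with
    | zero =>
      rw [pow_zero, pow_zero, ga_one, map_one]
      rfl
    | succ i ih =>
      rw [pow_succ, ga_mul, hτ, ga_sm, ih, pow_succ', map_mul]
      rfl
  have hres : ∀ (i : ℕ) (z₁ : N₁), algebraMap N₁ N ((τ₁ ^ i) z₁) = (τ ^ i) (algebraMap N₁ N z₁) := by
    intro i
    induction i with
    | zero =>
      intro z₁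
      rw [pow_zero, pow_zero]
      rfl
    | succ i ih =>
      intro z₁
      rw [pow_succ, pow_succ, AlgEquiv.mul_apply, AlgEquiv.mul_apply, ih, S.res]
  have hsg : ∀ i : ℕ, sg (τ ^ i) (MP_1a91b9_nuT.DS.inU N₁ N y₁) =
      MP_1a91b9_nuT.DS.inU N₁ N (sg (τ₁ ^ i) y₁) := fun i => Units.ext (hres i y₁).symm
  obtain ⟨A, hA⟩ := hy
  let j : El ℓ N₁ →+ El ℓ N := MP_1a91b9_nuT.DS.elm ℓ (MP_1a91b9_nuT.DS.inU N₁ N)
  have hjel : ∀ u : N₁ˣ, j (el ℓ u) = el ℓ (MP_1a91b9_nuT.DS.inU N₁ N u) := fun u => rfl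
  have hj : Function.Injective j := by
    rw [injective_iff_map_eq_zero]
    intro x hx
    obtain ⟨u, rfl⟩ := el_surj x
    rw [hjel, el_eq_zero] at hx
    rw [el_eq_zero]
    exact S.pow_desc hx
  have hA0 : ∀ x : 𝓞 K, ϖ ∣ x → A x = 0 := fun x hx => Iso.map_dvd h hF hA hx
  have hAg : ∀ i : ℕ, j (el ℓ (sg (τ₁ ^ i) y₁)) = A (g ^ i) := by
    intro i
    rw [hjel, ← hsg]
    exact hA (τ ^ i) (g ^ i) (hτi i)
  have hex : ∀ c : 𝓞 K, ∃ x : El ℓ N₁, j x = A c := by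
    intro c
    by_cases hc : ϖ ∣ c
    · exact ⟨0, by rw [map_zero, hA0 c hc]⟩
    · obtain ⟨i, hi⟩ := hg c hc
      refine ⟨el ℓ (sg (τ₁ ^ i) y₁), ?_⟩
      rw [hAg]
      have h1 := hA0 _ hi
      rw [map_sub, sub_eq_zero] at h1
      exact h1.symm
  choose B hB using hex
  refine ⟨AddMonoidHom.mk' B ?_, ?_, ?_⟩
  · intro a b
    apply hj
    rw [map_add, hB, hB, hB, map_add]
  · intro x hx
    apply hj
    show j (B x) = j 0
    rw [hB, map_zero, hA0 x hx]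
  · intro i
    apply hj
    show j (el ℓ (sg (τ₁ ^ i) y₁)) = j (B (g ^ i))
    rw [hAg, hB]

end

end

end Pool.Agent.Lib.MP_1a91b9_nuY.BF
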