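import Pool.Agent.Lib.MP_1a91b9_nuY.BF.Grp
import Pool.Agent.Lib.MP_1a91b9_nuX.DG.XIso
import Pool.Agent.Lib.MP_1a91b9_nuX.DG.Root
import Pool.Agent.Lib.MP_1a91b9_nuX.DG.Grc

/-!
# The units `XX c` for equivariant functions

`XX_fix`: the units attached to equivariant functions are fixed by the automorphisms which fix `P` for the
twisted action. `exists_CX`: there are `q ^ [F : K]` equivariant functions modulo `ϖ`.
-/

set_option autoImplicit false
set_option linter.unusedSectionVars false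

namespace Pool.Agent.Lib.MP_1a91b9_nuY.BF

variable [Pool.Agent.Lib.MP_1a91b9_nuT.CD]

open NumberField IsDedekindDomain WeierstrassCurve Pool.Agent.Lib.MP_1a91b9_nuT
open Pool.Agent.Lib.MP_1a91b9_nuX Pool.Agent.Lib.MP_1a91b9_nuX.DB Pool.Agent.Lib.MP_1a91b9_nuX.DG
open Pool.Agent.Lib.MP_1a91b9_nuX.DX (rs toF rs_apply rs_mul rs_toF toF_apply ga_toF exists_lift exists_of_rs_one)
open Pool.Agent.Lib.MP_1a91b9_nuY.TS

noncomputable section

variable [FP]

omit [FP] in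
private theorem xn_id {N : Type} [Field N] (σ : Gal(N/N)) : σ = 1 :=
  AlgEquiv.ext fun x => σ.commutes x

private theorem xn_pow2 {N : Type} [Field N] {ϖ : 𝓞 K} {ℓ q : ℕ} (h : PD ϖ ℓ q) {a y : Nˣ}
    (ha : a ^ 2 = y ^ ℓ) : ∃ z : Nˣ, a = z ^ ℓ := by
  refine pow_coprime (n := 2) ?_ ⟨y, ha⟩
  have h5 := h.five
  rw [Nat.coprime_comm, Nat.Prime.coprime_iff_not_dvd h.hl]
  intro h2
  have := Nat.le_of_dvd (by norm_num) h2
  omega

private theorem xn_neg {k N : Type} [Field k] [NumberField k] [Algebra K k] [Field N]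
    [NumberField N] [Algebra K N] [Algebra k N] [IsScalarTower K k N] [DecidableEq N]
    [IsGalois k N] {ϖ : 𝓞 K} {ℓ q : ℕ} (h : PD ϖ ℓ q) {P : Pt N} (hF : Full k ϖ P) :
    ∃ σ : Gal(N/k), ga σ P = sm N (-1) P :=
  hF.all (-1) (by rw [dvd_neg]; exact h.prime.not_dvd_one)

omit [FP] in
private theorem xn_over {k N : Type} [Field k] [NumberField k] [Field N] [NumberField N]
    [Algebra k N] (v : HeightOneSpectrum (𝓞 k)) :
    ∃ W : HeightOneSpectrum (𝓞 N), W.under (𝓞 k) = v := by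
  obtain ⟨P, hPm, hP⟩ := Ideal.exists_maximal_ideal_liesOver_of_isIntegral (S := 𝓞 N) v.asIdeal
  refine ⟨⟨P, hPm.isPrime, ?_⟩, ?_⟩
  · intro hb
    apply v.ne_bot
    rw [hP.over, hb]
    exact Ideal.comap_bot_of_injective _ (FaithfulSMul.algebraMap_injective (𝓞 k) (𝓞 N))
  · apply HeightOneSpectrum.ext
    exact hP.over.symm

omit [FP] in
private theorem xn_res {F G : Type} [Field F] [Algebra K F] [Field G] [Algebra K G] [Algebra F G]
    [IsScalarTower K F G] [DecidableEq G] (σ : Gal(G/F)) (Q : Pt G) :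
    ga (AlgEquiv.restrictScalars K σ : Gal(G/K)) Q = ga σ Q := by
  rcases cases_pt Q with rfl | ⟨x, y, h, rfl⟩
  · rw [map_zero, map_zero]
  · rfl

section
variable {μ : 𝓞 K} {H : Subgroup (CU μ)} {F G : Type}
  [Field F] [NumberField F] [Algebra K F] [Field G] [NumberField G] [Algebra K G] [Algebra F G]
  [IsScalarTower K F G] [DecidableEq G] {J : Pt G} (hA : AB H F G J)
include hA

omit [FP] in
private theorem xn_uniq {σ τ : Gal(G/F)} (h : ga σ J = ga τ J) : σ = τ := by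
  have h2 : (AlgEquiv.restrictScalars K (τ⁻¹ * σ) : Gal(G/K)) = 1 := by
    refine hA.gen _ ?_
    rw [xn_res, ga_mul, h, ← ga_mul, inv_mul_cancel, ga_one]
  have h3 : τ⁻¹ * σ = 1 := by
    apply AlgEquiv.ext
    intro x
    exact congrArg (fun ρ : Gal(G/K) => ρ x) h2
  exact (inv_mul_eq_one.1 h3).symm

omit [FP] in
private theorem xn_mul {σ τ : Gal(G/F)} {a b : U H} (ha : ga σ J = smU J a)
    (hb : ga τ J = smU J b) : ga (σ * τ) J = smU J (a * b) := by
  rw [ga_mul, hb, mul_comm a b, ← smU_mul hA.ord, ← ha]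
  exact ga_sm _ _ _

omit [FP] in
private theorem xn_inv {σ : Gal(G/F)} {a : U H} (ha : ga σ J = smU J a) :
    ga σ⁻¹ J = smU J a⁻¹ := by
  obtain ⟨u, hu⟩ := hA.mem (AlgEquiv.restrictScalars K σ⁻¹ : Gal(G/K))
  rw [xn_res] at hu
  have h1 := xn_mul hA ha hu
  rw [mul_inv_cancel, ga_one] at h1
  have h2 : smU J (1 : U H) = smU J (a * u) := by rw [smU_one hA.ord]; exact h1
  have h3 := smU_inj hA.ord h2
  rw [hu, eq_inv_of_mul_eq_one_right h3.symm]

/-- the classes of the automorphisms over `F` -/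
private def xn_B : Subgroup (U H) where
  carrier := {b | ∃ σ : Gal(G/F), ga σ J = smU J b}
  mul_mem' := by
    rintro a b ⟨σ, hσ⟩ ⟨τ, hτ⟩
    exact ⟨σ * τ, xn_mul hA hσ hτ⟩
  one_mem' := ⟨1, by rw [ga_one, smU_one hA.ord]⟩
  inv_mem' := by
    rintro a ⟨σ, hσ⟩
    exact ⟨σ⁻¹, xn_inv hA hσ⟩

omit [FP] in
private theorem xn_card [IsGalois F G] : Nat.card (xn_B hA) = Module.finrank F G := by
  have hex : ∀ σ : Gal(G/F), ∃ b : xn_B hA, ga σ J = smU J b.1 := by
    intro σ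
    obtain ⟨u, h1⟩ := hA.mem (AlgEquiv.restrictScalars K σ : Gal(G/K))
    rw [xn_res] at h1
    exact ⟨⟨u, σ, h1⟩, h1⟩
  choose f hf using hex
  rw [← IsGalois.card_aut_eq_finrank F G]
  refine (Nat.card_congr (Equiv.ofBijective f ⟨?_, ?_⟩)).symm
  · intro σ τ hστ
    exact xn_uniq hA (by rw [hf σ, hf τ, hστ])
  · rintro ⟨b, σ, hσ⟩
    refine ⟨σ, Subtype.ext ?_⟩
    have h1 := hf σ
    rw [hσ] at h1
    exact (smU_inj hA.ord h1).symm

end

section
variable {μ : 𝓞 K} {H : Subgroup (CU μ)} {ϖ : 𝓞 K} {ℓ q : ℕ} {F G N : Type}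
  [Field F] [NumberField F] [Algebra K F] [Field G] [NumberField G] [Algebra K G] [Algebra F G]
  [IsScalarTower K F G] [IsGalois F G] [DecidableEq G] [Field N] [NumberField N] [Algebra K N]
  [Algebra F N] [Algebra G N] [IsScalarTower K F N] [IsScalarTower K G N] [IsScalarTower F G N]
  [IsGalois F N] [IsGalois G N] [DecidableEq N] {k : Gal(G/F) → 𝓞 K} {P : Pt N} {J : Pt G}

variable (D : TwX H ϖ ℓ q F G N k P J)
include D

/-- there is no invariance condition over `N` itself -/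
theorem TwX.bi (c : U H → 𝓞 K) : BI N ϖ (up N J) c := by
  rintro b u ⟨σ, hσ⟩
  rw [xn_id σ, ga_one] at hσ
  have h1 : smU (up N J) (1 : U H) = smU (up N J) b := by rw [smU_one D.top.ord]; exact hσ
  rw [← smU_inj D.top.ord h1, mul_one, sub_self]
  exact dvd_zero _

theorem TwX.exists_CX : ∃ C : Finset (U H → 𝓞 K), C.card = q ^ Module.finrank K F ∧
    (∀ c ∈ C, TI F k ϖ J c) ∧ ∀ c ∈ C, ∀ c' ∈ C, (∀ u, ϖ ∣ c u - c' u) → c = c' := by
  classical
  have hA := D.ab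
  have hfU : Finite (U H) := D.top.finU
  have hX : Nat.card (U H ⧸ xn_B hA) = Module.finrank K F := by
    have h1 := Subgroup.card_eq_card_quotient_mul_card_subgroup (xn_B hA)
    have h2 := D.card_U
    rw [h1, xn_card hA] at h2
    exact Nat.eq_of_mul_eq_mul_right Module.finrank_pos h2
  have : Fintype (U H ⧸ xn_B hA) := Fintype.ofFinite _
  obtain ⟨T, hT, hcard⟩ := exists_isRes D.pd.prime.ne_zero
  have h0 : (0 : 𝓞 K) ∉ T := fun h => hT.nz 0 h (dvd_zero _)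
  have hD : (insert 0 T).card = q := by
    rw [Finset.card_insert_of_notMem h0, hcard, D.pd.norm]
  have huniq : ∀ x ∈ insert 0 T, ∀ y ∈ insert 0 T, ϖ ∣ x - y → x = y := by
    intro x hx y hy hxy
    rw [Finset.mem_insert] at hx hy
    rcases hx with rfl | hx <;> rcases hy with rfl | hy
    · rfl
    · rw [zero_sub, dvd_neg] at hxy
      exact absurd hxy (hT.nz y hy)
    · rw [sub_zero] at hxy
      exact absurd hxy (hT.nz x hx)
    · exact hT.uniq x hx y hy hxy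
  -- a set of representatives
  have hβ : ∀ u : U H, ∃ σ : Gal(G/F),
      ga σ J = smU J ((Quotient.out (QuotientGroup.mk u : U H ⧸ xn_B hA))⁻¹ * u) := by
    intro u
    have h1 : (QuotientGroup.mk (Quotient.out (QuotientGroup.mk u : U H ⧸ xn_B hA)) :
        U H ⧸ xn_B hA) = QuotientGroup.mk u := QuotientGroup.out_eq' _
    exact QuotientGroup.eq.1 h1
  choose s hs using hβ
  have hsmul : ∀ (σ : Gal(G/F)) (b u : U H), ga σ J = smU J b →
      (QuotientGroup.mk (u * b) : U H ⧸ xn_B hA) = QuotientGroup.mk u ∧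
        s (u * b) = s u * σ := by
    intro σ b u hb
    have h1 : (QuotientGroup.mk (u * b) : U H ⧸ xn_B hA) = QuotientGroup.mk u :=
      QuotientGroup.mk_mul_of_mem u ⟨σ, hb⟩
    refine ⟨h1, xn_uniq hA ?_⟩
    rw [hs, xn_mul hA (hs u) hb, h1, mul_assoc]
  let φ : ((U H ⧸ xn_B hA) → {x // x ∈ insert 0 T}) → (U H → 𝓞 K) :=
    fun f u => cj (k (s u)) * (f (QuotientGroup.mk u)).1
  have hdis : ∀ f g : (U H ⧸ xn_B hA) → {x // x ∈ insert 0 T},
      (∀ u, ϖ ∣ φ f u - φ g u) → f = g := by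
    intro f g hfg
    funext x
    obtain ⟨u, rfl⟩ := QuotientGroup.mk_surjective x
    refine Subtype.ext (huniq _ (f (QuotientGroup.mk u)).2 _ (g (QuotientGroup.mk u)).2 ?_)
    have h1 : ϖ ∣ k (s u) * (cj (k (s u)) * (f (QuotientGroup.mk u)).1 -
        cj (k (s u)) * (g (QuotientGroup.mk u)).1) := dvd_mul_of_dvd_right (hfg u) _
    have h2 : k (s u) * (cj (k (s u)) * (f (QuotientGroup.mk u)).1 -
        cj (k (s u)) * (g (QuotientGroup.mk u)).1) =
        (f (QuotientGroup.mk u)).1 - (g (QuotientGroup.mk u)).1 := by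
      linear_combination ((f (QuotientGroup.mk u)).1 - (g (QuotientGroup.mk u)).1) *
        D.kap.nrm (s u)
    rwa [h2] at h1
  have hφ : Function.Injective φ := by
    intro f g hfg
    refine hdis f g fun u => ?_
    rw [hfg, sub_self]
    exact dvd_zero _
  refine ⟨Finset.univ.image φ, ?_, ?_, ?_⟩
  · rw [Finset.card_image_of_injective _ hφ, Finset.card_univ, Fintype.card_fun, Fintype.card_coe, hD,
      ← Nat.card_eq_fintype_card, hX]
  · intro c hc σ b u hb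
    obtain ⟨f, _, rfl⟩ := Finset.mem_image.1 hc
    obtain ⟨h5, h6⟩ := hsmul σ b u hb
    show ϖ ∣ k σ * (cj (k (s (u * b))) * (f (QuotientGroup.mk (u * b))).1) -
      cj (k (s u)) * (f (QuotientGroup.mk u)).1
    rw [h5, h6, D.kap.mul, map_mul]
    have h7 : k σ * (cj (k (s u)) * cj (k σ) * (f (QuotientGroup.mk u)).1) -
        cj (k (s u)) * (f (QuotientGroup.mk u)).1 = 0 := by
      linear_combination cj (k (s u)) * (f (QuotientGroup.mk u)).1 * D.kap.nrm σ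
    rw [h7]
    exact dvd_zero _
  · intro c hc c' hc' h
    obtain ⟨f, _, rfl⟩ := Finset.mem_image.1 hc
    obtain ⟨f', _, rfl⟩ := Finset.mem_image.1 hc'
    rw [hdis f f' h]

variable [Fintype (U H)]

theorem TwX.ndx_up (hnd : NDX F H k ϖ J) {c : U H → 𝓞 K} (hc : TI F k ϖ J c)
    (hw : ∀ W : HeightOneSpectrum (𝓞 N), W.valuation N (algebraMap K N (ϖ : K)) < 1 →
      W.valuation N (∑ u : U H, algebraMap K N (c u : K) * lamQ (smU (up N J) u)) < 1)
    (u : U H) : ϖ ∣ c u := by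
  refine hnd c hc (fun w hwϖ => ?_) u
  obtain ⟨W, hW⟩ := xn_over (k := G) (N := N) w
  have hK : algebraMap K N (ϖ : K) = algebraMap G N (algebraMap K G (ϖ : K)) :=
    IsScalarTower.algebraMap_apply K G N _
  have h1 := hw W (by rw [hK, val_map_lt, hW]; exact hwϖ)
  have h2 : (∑ u : U H, algebraMap K N (c u : K) * lamQ (smU (up N J) u)) =
      algebraMap G N (∑ u : U H, algebraMap K G (c u : K) * lamQ (smU J u)) := by
    rw [map_sum]
    refine Finset.sum_congr rfl fun v _ => ?_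
    have h3 : smU (up N J) v = up N (smU J v) := (up_sm _ _).symm
    rw [map_mul, h3, ← IsScalarTower.algebraMap_apply K G N]
    congr 1
    exact lamQ_pm (IsScalarTower.toAlgHom K G N) (smU J v)
  rw [h2, val_map_lt, hW] at h1
  rw [finsum_eq_sum_of_fintype]
  exact h1

variable {T : Finset (𝓞 K)} {iv : 𝓞 K → 𝓞 K} {n : 𝓞 K → ℤ} (hT : TrD ϖ ℓ T iv n)
include hT

theorem TwX.XX_fix {c : U H → 𝓞 K} (hc : TI F k ϖ J c) {s : Gal(N/F)} (hs : gk G k s P = P) :
    s (XX T iv n (up N P) (up N J) c) = XX T iv n (up N P) (up N J) c := by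
  obtain ⟨b, d, hd0, h1, h2, h3⟩ := D.act s
  have hk := D.coef hs h3
  have h3' : ga s (up N P) = sm N d (up N P) := by rw [up_self]; exact h3
  rw [XX_ga D.pd hT D.top.ordP D.top.copw D.top.nlam D.top.ord hd0 h2 h3' c]
  refine XX_cong D.pd hT D.top.ordP D.top.copw D.top.nlam D.top.ord fun u => ?_
  have h8 := hc (rs G s) b (b⁻¹ * u) h1
  rw [mul_comm b⁻¹ u, inv_mul_cancel_right] at h8
  have h9 : c (b⁻¹ * u) * d - c u =
      (k (rs G s) * d - 1) * c u - (k (rs G s) * c u - c (u * b⁻¹)) * d := by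
    rw [mul_comm b⁻¹ u]
    ring
  rw [h9]
  exact dvd_sub (dvd_mul_of_dvd_left hk _) (dvd_mul_of_dvd_left h8 _)

/-- `XX c` as a unit of `N` -/
theorem TwX.XX_unit (c : U H → 𝓞 K) : ∃ x : Nˣ, (x : N) = XX T iv n (up N P) (up N J) c ∧
    Iso G ℓ P x := by
  have h0 := XX_ne_zero D.pd hT D.top.ordP D.top.copw D.top.nlam D.top.ord c
  exact ⟨Units.mk0 _ h0, rfl, D.top.XN_iso hT (D.bi c) rfl⟩

/-- `XX c` as a unit of `N₁` -/
theorem TwX.XX_up {N₁ : Type} [Field N₁] [NumberField N₁] [Algebra K N₁] [Algebra N₁ N]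
  [IsScalarTower K N₁ N] {τ : Gal(N/G)} {τ₁ : Gal(N₁/K)}
    (S : SubX ℓ q F G N N₁ k P τ τ₁) {c : U H → 𝓞 K} (hc : TI F k ϖ J c) :
    ∃ x₁ : N₁ˣ, (∀ w : HeightOneSpectrum (𝓞 N₁), od w (x₁ : N₁) = 0) ∧
      algebraMap N₁ N (x₁ : N₁) = XX T iv n (up N P) (up N J) c := by
  obtain ⟨z₁, hz₁⟩ := S.mem _ fun s hs => D.XX_fix hT hc hs
  have hx0 : z₁ ≠ 0 := by
    rintro rfl
    rw [map_zero] at hz₁
    exact XX_ne_zero D.pd hT D.top.ordP D.top.copw D.top.nlam D.top.ord c hz₁.symm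
  refine ⟨Units.mk0 z₁ hx0, fun w => ?_, hz₁⟩
  obtain ⟨W, hW⟩ := xn_over (k := N₁) (N := N) w
  have h1 : W.valuation N (algebraMap N₁ N z₁) = 1 := by
    rw [hz₁]
    exact XX_val D.pd hT D.top.ordP D.top.copw D.top.nlam D.top.ord _ c
  rw [val_map_eq, hW] at h1
  exact (val_eq_one_iff w hx0).1 h1

theorem TwX.ne_powX (hnd : NDX F H k ϖ J) {c : U H → 𝓞 K} (hc : TI F k ϖ J c)
    (hz : ∃ z : N, XX T iv n (up N P) (up N J) c = z ^ ℓ) (u : U H) : ϖ ∣ c u := by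
  obtain ⟨z, hz⟩ := hz
  refine D.ndx_up hnd hc (fun W hW => ?_) u
  refine XX_pow D.pd hT D.top.ordP D.top.copw D.top.nlam D.top.ord W hW (D.top.odP W hW) (z := z) ?_
  rw [hz, sub_self, map_zero]
  exact zero_le

theorem TwX.diffX (hU : MP_1a91b9_nuT.DS.UnrL ℓ G) (hnd : NDX F H k ϖ J) {c c' : U H → 𝓞 K}
    (hc : TI F k ϖ J c) (hc' : TI F k ϖ J c') {x x' z t : Nˣ}
    (hx : (x : N) = XX T iv n (up N P) (up N J) c)
    (hx' : (x' : N) = XX T iv n (up N P) (up N J) c') {m : ℕ} (hm : m ≠ 0) (ht : t ^ m = 1)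
    (he : x = x' * z ^ ℓ * t) (u : U H) : ϖ ∣ c u - c' u := by
  have hbi : TI F k ϖ J (fun u => c u + -c' u) := by
    intro σ b u hb
    have h1 := dvd_sub (hc σ b u hb) (hc' σ b u hb)
    have h2 : k σ * (c (u * b) + -c' (u * b)) - (c u + -c' u) =
        k σ * c (u * b) - c u - (k σ * c' (u * b) - c' u) := by ring
    show ϖ ∣ k σ * (c (u * b) + -c' (u * b)) - (c u + -c' u)
    rw [h2]
    exact h1
  obtain ⟨x2, hx2, hiso⟩ := D.XX_unit hT (fun u => c u + -c' u)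
  obtain ⟨z1, hz1, -, hz⟩ := XX_add D.pd hT D.top.ordP D.top.copw D.top.nlam D.top.ord c
    (fun u => -c' u)
  rw [XX_neg D.pd hT D.top.ordP D.top.copw D.top.nlam D.top.ord, ← hx, ← hx', ← hx2] at hz
  obtain ⟨y, hy⟩ : ∃ y : Nˣ, y = z * Units.mk0 z1 hz1 := ⟨_, rfl⟩
  have hxy : x2 = y ^ ℓ * t := by
    have h3 : x2 = x * x'⁻¹ * (Units.mk0 z1 hz1) ^ ℓ := by
      apply Units.ext
      rw [hz, Units.val_mul, Units.val_mul, Units.val_inv_eq_inv_val, Units.val_pow_eq_pow_val]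
      rfl
    rw [h3, he, hy, mul_pow]
    have h4 : x' * z ^ ℓ * t * x'⁻¹ = z ^ ℓ * t := by
      rw [mul_assoc x', mul_comm x', mul_inv_cancel_right]
    rw [h4, mul_right_comm]
  obtain ⟨σ, hσ⟩ := xn_neg D.pd D.full
  obtain ⟨z2, h1⟩ := Iso.neg_one D.pd D.full hiso hσ
  obtain ⟨z3, h2⟩ := root_evenG D.pd D.full hU hm ht hσ
  obtain ⟨s, hs⟩ := xn_pow2 (N := N) D.pd (a := t) (y := z2 / (sg σ y * z3 * y)) (by
    rw [div_pow, eq_div_iff_mul_eq', ← h1, hxy, sg_mul, sg_pow, h2, mul_pow, mul_pow, sq]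
    ac_rfl)
  have h6 := D.ne_powX hT hnd hbi ⟨((y * s : Nˣ) : N), by
    rw [← hx2, ← Units.val_pow_eq_pow_val, mul_pow, ← hs, hxy]⟩ u
  rwa [← sub_eq_add_neg] at h6

end

end

end Pool.Agent.Lib.MP_1a91b9_nuY.BF
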