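import Pool.Agent.Lib.MP_1a91b9_nuY.BF.Cnt
import Pool.Agent.Lib.MP_1a91b9_nuY.BF.XN
import Pool.Agent.Lib.MP_1a91b9_nuY.BF.Dsc

/-!
# The isotypic units are the units `XX c`

The isotypic units are the units `XX c` up to `ℓ`-th powers: both are counted (`cnt_units`, `exists_CX`).
-/

set_option autoImplicit false
set_option linter.unusedSectionVars false

namespace Pool.Agent.Lib.MP_1a91b9_nuY.BF

variable [Pool.Agent.Lib.MP_1a91b9_nuT.CD]

open NumberField IsDedekindDomain WeierstrassCurve Pool.Agent.Lib.MP_1a91b9_nuT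
open Pool.Agent.Lib.MP_1a91b9_nuX Pool.Agent.Lib.MP_1a91b9_nuX.DB Pool.Agent.Lib.MP_1a91b9_nuX.DG
open Pool.Agent.Lib.MP_1a91b9_nuX.DX (rs toF rs_apply rs_mul rs_toF toF_apply ga_toF exists_lift exists_of_rs_one)
open Pool.Agent.Lib.MP_1a91b9_nuY.TS

noncomputable section

variable [FP]

private theorem isou_pow2 {N : Type} [Field N] {ϖ : 𝓞 K} {ℓ q : ℕ} (h : PD ϖ ℓ q) {a y : Nˣ}
    (ha : a ^ 2 = y ^ ℓ) : ∃ z : Nˣ, a = z ^ ℓ := by
  refine pow_coprime (n := 2) ?_ ⟨y, ha⟩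
  have h5 := h.five
  rw [Nat.coprime_comm, Nat.Prime.coprime_iff_not_dvd h.hl]
  intro h2
  have := Nat.le_of_dvd (by norm_num) h2
  omega

private theorem isou_root {k N : Type} [Field k] [NumberField k] [Algebra K k] [Field N]
    [NumberField N] [Algebra K N] [Algebra k N] [IsScalarTower K k N] [DecidableEq N]
    [IsGalois k N] {ϖ : 𝓞 K} {ℓ q : ℕ} (h : PD ϖ ℓ q) {P : Pt N} (hF : Full k ϖ P)
    (hU : MP_1a91b9_nuT.DS.UnrL ℓ k) {t : Nˣ} {m : ℕ} (hm : m ≠ 0) (ht : t ^ m = 1)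
    (hiso : Iso k ℓ P t) : ∃ z : Nˣ, t = z ^ ℓ := by
  obtain ⟨σ, hσ⟩ : ∃ σ : Gal(N/k), ga σ P = sm N (-1) P :=
    hF.all (-1) (by rw [dvd_neg]; exact h.prime.not_dvd_one)
  obtain ⟨z1, h1⟩ := Iso.neg_one h hF hiso hσ
  obtain ⟨z2, h2⟩ := root_evenG h hF hU hm ht hσ
  refine isou_pow2 h (y := z1 / z2) ?_
  rw [h2] at h1
  rw [div_pow, ← h1, eq_div_iff_mul_eq', sq]
  ac_rfl

section
variable {μ : 𝓞 K} {H : Subgroup (CU μ)} {ϖ : 𝓞 K} {ℓ q : ℕ} {F G N : Type}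
  [Field F] [NumberField F] [Algebra K F] [Field G] [NumberField G] [Algebra K G] [Algebra F G]
  [IsScalarTower K F G] [IsGalois F G] [DecidableEq G] [Field N] [NumberField N] [Algebra K N]
  [Algebra F N] [Algebra G N] [IsScalarTower K F N] [IsScalarTower K G N] [IsScalarTower F G N]
  [IsGalois F N] [IsGalois G N] [DecidableEq N] {k : Gal(G/F) → 𝓞 K} {P : Pt N} {J : Pt G}

variable (D : TwX H ϖ ℓ q F G N k P J) {N₁ : Type} [Field N₁] [NumberField N₁] [Algebra K N₁] [Algebra N₁ N]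
  [IsScalarTower K N₁ N] {τ : Gal(N/G)} {τ₁ : Gal(N₁/K)}

include D

theorem TwX.iso_unitX (S : SubX ℓ q F G N N₁ k P τ τ₁) [Fintype (U H)]
    {T : Finset (𝓞 K)} {iv : 𝓞 K → 𝓞 K} {n : 𝓞 K → ℤ} (hT : TrD ϖ ℓ T iv n)
    (hU : MP_1a91b9_nuT.DS.UnrL ℓ G) (hnd : NDX F H k ϖ J) {g : 𝓞 K}
    (hg : ∀ c : 𝓞 K, ¬ ϖ ∣ c → ∃ i : ℕ, ϖ ∣ c - g ^ i)
    (hg3 : ¬ ((ℓ * q : ℕ) : ℤ) ∣ Algebra.norm ℤ (g ^ (q - 1) - 1)) (hτ : ga τ P = sm N g P)
    {ε : N₁ˣ} (hε : ∀ w : HeightOneSpectrum (𝓞 N₁), od w (ε : N₁) = 0)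
    (hiso : Iso G ℓ P (MP_1a91b9_nuT.DS.inU N₁ N ε)) :
    ∃ (c : U H → 𝓞 K) (x z : Nˣ), TI F k ϖ J c ∧ (x : N) = XX T iv n (up N P) (up N J) c ∧
      MP_1a91b9_nuT.DS.inU N₁ N ε = x * z ^ ℓ := by
  classical
  have h := D.pd
  have hF := D.full
  have hgal : IsGalois K N₁ := S.galK
  obtain ⟨C, hC1, hC2, hC3⟩ := D.exists_CX
  -- the elements
  have hex : ∀ c : U H → 𝓞 K, ∃ x : N₁ˣ, (∀ w : HeightOneSpectrum (𝓞 N₁), od w (x : N₁) = 0) ∧
      (TI F k ϖ J c → algebraMap N₁ N (x : N₁) = XX T iv n (up N P) (up N J) c) := by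
    intro c
    by_cases hc : TI F k ϖ J c
    · obtain ⟨x, h1, h2⟩ := D.XX_up hT S hc
      exact ⟨x, h1, fun _ => h2⟩
    · refine ⟨1, fun w => ?_, fun h1 => absurd h1 hc⟩
      exact (val_eq_one_iff w (Units.ne_zero _)).1 (by rw [Units.val_one, map_one])
  choose X hX1 hX2 using hex
  have hXx : ∀ c ∈ C, ((MP_1a91b9_nuT.DS.inU N₁ N (X c) : Nˣ) : N) =
      XX T iv n (up N P) (up N J) c := fun c hc => by
    rw [MP_1a91b9_nuT.DS.inU_coe]
    exact hX2 c (hC2 c hc)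
  have hXiso : ∀ c ∈ C, Iso G ℓ P (MP_1a91b9_nuT.DS.inU N₁ N (X c)) := by
    intro c hc
    obtain ⟨x, hx, hxi⟩ := D.XX_unit (hT := hT) c
    have h1 : MP_1a91b9_nuT.DS.inU N₁ N (X c) = x := Units.ext (by rw [hXx c hc, hx])
    rw [h1]
    exact hxi
  have hff : ∀ c ∈ C, ∀ d ∈ C, c ≠ d →
      ¬ ∃ (z t : N₁ˣ) (m : ℕ), m ≠ 0 ∧ t ^ m = 1 ∧ X c = X d * z ^ ℓ * t := by
    rintro c hc d hd hcd ⟨z, t, m, hm, ht, he⟩
    apply hcd
    apply hC3 c hc d hd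
    refine D.diffX hT hU hnd (hC2 c hc) (hC2 d hd) (hXx c hc) (hXx d hd)
      (z := MP_1a91b9_nuT.DS.inU N₁ N z) (t := MP_1a91b9_nuT.DS.inU N₁ N t) hm ?_ ?_
    · rw [← map_pow, ht, map_one]
    · rw [he, map_mul, map_mul, map_pow]
  by_cases hε' : ∃ c ∈ C, ∃ (z t : N₁ˣ) (m : ℕ), m ≠ 0 ∧ t ^ m = 1 ∧ ε = X c * z ^ ℓ * t
  · obtain ⟨c, hcC, z, t, m, hm, ht, he⟩ := hε'
    have ht' : (MP_1a91b9_nuT.DS.inU N₁ N t) ^ m = 1 := by rw [← map_pow, ht, map_one]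
    have h3 : MP_1a91b9_nuT.DS.inU N₁ N ε = MP_1a91b9_nuT.DS.inU N₁ N (X c) *
        (MP_1a91b9_nuT.DS.inU N₁ N z) ^ ℓ * MP_1a91b9_nuT.DS.inU N₁ N t := by
      rw [he, map_mul, map_mul, map_pow]
    have h4 : MP_1a91b9_nuT.DS.inU N₁ N t = MP_1a91b9_nuT.DS.inU N₁ N ε *
        (MP_1a91b9_nuT.DS.inU N₁ N (X c))⁻¹ * ((MP_1a91b9_nuT.DS.inU N₁ N z) ^ ℓ)⁻¹ := by
      rw [eq_mul_inv_iff_mul_eq, eq_mul_inv_iff_mul_eq, h3]
      ac_rfl
    have h5 : Iso G ℓ P (MP_1a91b9_nuT.DS.inU N₁ N t) := by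
      rw [h4]
      exact Iso.mul h hF (Iso.mul h hF hiso (Iso.inv h hF (hXiso c hcC))) (Iso.inv h hF
        (Iso.pow_ell h hF _))
    obtain ⟨z', hz'⟩ := isou_root h hF hU hm ht' h5
    refine ⟨c, MP_1a91b9_nuT.DS.inU N₁ N (X c), MP_1a91b9_nuT.DS.inU N₁ N z * z', hC2 c hcC,
      hXx c hcC, ?_⟩
    rw [h3, hz', mul_pow, mul_assoc]
  · exfalso
    have hsymm : ∀ {y y' : N₁ˣ}, (∃ (z t : N₁ˣ) (m : ℕ), m ≠ 0 ∧ t ^ m = 1 ∧ y = y' * z ^ ℓ * t) →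
        ∃ (z t : N₁ˣ) (m : ℕ), m ≠ 0 ∧ t ^ m = 1 ∧ y' = y * z ^ ℓ * t := by
      rintro y y' ⟨z, t, m, hm, ht, he⟩
      refine ⟨z⁻¹, t⁻¹, m, hm, by rw [inv_pow, ht, inv_one], ?_⟩
      rw [he, inv_pow, mul_right_comm (y' * z ^ ℓ), mul_inv_cancel_right, mul_inv_cancel_right]
    have hnot : ε ∉ C.image X := by
      intro hmem
      obtain ⟨c, hc, hce⟩ := Finset.mem_image.1 hmem
      exact hε' ⟨c, hc, 1, 1, 1, one_ne_zero, one_pow _, by rw [hce, one_pow, mul_one, mul_one]⟩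
    have hinj : Set.InjOn X (C : Set (U H → 𝓞 K)) := by
      intro c hc d hd hcd
      by_contra hne
      exact hff c hc d hd hne ⟨1, 1, 1, one_ne_zero, one_pow _, by
        rw [hcd, one_pow, mul_one, mul_one]⟩
    have hF0 : 0 < Module.finrank K F := Module.finrank_pos
    have hq5 := PD.q_five h
    have hYcard : (insert ε (C.image X)).card ≤ q ^ Module.finrank K F := by
      refine cnt_units h hg3 S.ord S.rk (by rw [S.rk]; nlinarith [Nat.sub_add_cancel (by omega : 1 ≤ q)]) _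
        ?_ ?_ ?_
      · intro y hy
        rw [Finset.mem_insert, Finset.mem_image] at hy
        rcases hy with rfl | ⟨c, _, rfl⟩
        · exact hε
        · exact hX1 c
      · intro y hy
        rw [Finset.mem_insert, Finset.mem_image] at hy
        rcases hy with rfl | ⟨c, hc, rfl⟩
        · exact D.isoT S hg hτ hiso
        · exact D.isoT S hg hτ (hXiso c hc)
      · intro y hy y' hy' hne
        rw [Finset.mem_insert, Finset.mem_image] at hy hy'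
        rcases hy with hy | ⟨c, hc, hy⟩
        · rcases hy' with hy' | ⟨d, hd, hy'⟩
          · exact absurd (hy.trans hy'.symm) hne
          · rintro ⟨z, t, m, hm, ht, he⟩
            rw [hy, ← hy'] at he
            exact hε' ⟨d, hd, z, t, m, hm, ht, he⟩
        · rcases hy' with hy' | ⟨d, hd, hy'⟩
          · intro hh
            have hh2 := hsymm hh
            rw [← hy, hy'] at hh2
            exact hε' ⟨c, hc, hh2⟩
          · rw [← hy, ← hy']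
            refine hff c hc d hd ?_
            intro hcd
            apply hne
            rw [← hy, ← hy', hcd]
    rw [Finset.card_insert_of_notMem hnot, Finset.card_image_of_injOn hinj, hC1] at hYcard
    omega

end

end

end Pool.Agent.Lib.MP_1a91b9_nuY.BF
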