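import Pool.Agent.Lib.MP_1a91b9_nuY.BF.Grp
import Pool.Agent.Lib.MP_1a91b9_nuY.BF.Iso
import Pool.Agent.Lib.MP_1a91b9_nuX.DG.F2

/-!
# Functions on the places of `N`

The function `f2 f₁` on the places of `N` is principal-zero, isotypic for `P`, and invariant under the
automorphisms which fix `P` for the twisted action.
-/

set_option autoImplicit false
set_option linter.unusedSectionVars false

namespace Pool.Agent.Lib.MP_1a91b9_nuY.BF

variable [Pool.Agent.Lib.MP_1a91b9_nuT.CD]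

open NumberField IsDedekindDomain WeierstrassCurve Pool.Agent.Lib.MP_1a91b9_nuT
open Pool.Agent.Lib.MP_1a91b9_nuX Pool.Agent.Lib.MP_1a91b9_nuX.DB Pool.Agent.Lib.MP_1a91b9_nuX.DG
open Pool.Agent.Lib.MP_1a91b9_nuX.DX (rs toF rs_apply rs_mul rs_toF toF_apply ga_toF exists_lift exists_of_rs_one)
open Pool.Agent.Lib.MP_1a91b9_nuY.TS

noncomputable section

variable [FP]

section
variable {μ : 𝓞 K} {H : Subgroup (CU μ)} {ϖ : 𝓞 K} {ℓ q : ℕ} {F G N : Type}
  [Field F] [NumberField F] [Algebra K F] [Field G] [NumberField G] [Algebra K G] [Algebra F G]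
  [IsScalarTower K F G] [IsGalois F G] [DecidableEq G] [Field N] [NumberField N] [Algebra K N]
  [Algebra F N] [Algebra G N] [IsScalarTower K F N] [IsScalarTower K G N] [IsScalarTower F G N]
  [IsGalois F N] [IsGalois G N] [DecidableEq N] {k : Gal(G/F) → 𝓞 K} {P : Pt N} {J : Pt G}

variable {N₁ : Type} [Field N₁] [NumberField N₁] [Algebra K N₁] [Algebra N₁ N]
  [IsScalarTower K N₁ N] {τ : Gal(N/G)} {τ₁ : Gal(N₁/K)}

omit [FP] [NumberField F] [Algebra K F] [IsScalarTower K F G] [IsGalois F G] [IsGalois F N]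
  [IsScalarTower K F N] [IsScalarTower F G N] [IsGalois G N] in
private theorem pl_ga {g : 𝓞 K} (hτ : ga τ P = sm N g P) (i : ℕ) :
    ga (τ ^ i) P = sm N (g ^ i) P := by
  induction i with
  | zero =>
    rw [pow_zero, pow_zero, ga_one, map_one]
    rfl
  | succ i ih =>
    rw [pow_succ', ga_mul, ih, ga_sm, hτ, pow_succ, map_mul]
    rfl

theorem TwX.f_up (D : TwX H ϖ ℓ q F G N k P J) (S : SubX ℓ q F G N N₁ k P τ τ₁) {g : 𝓞 K}
    (hg : ∀ c : 𝓞 K, ¬ ϖ ∣ c → ∃ i : ℕ, ϖ ∣ c - g ^ i) (hτ : ga τ P = sm N g P)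
    {f₁ : HeightOneSpectrum (𝓞 N₁) → ZMod ℓ} (hf : PrincZero f₁) (hi : IsoPT ϖ g ℓ τ₁ f₁) :
    PrincZero (f2 (L := N) f₁) ∧ IsoPl G ℓ P (f2 (L := N) f₁) ∧
    (∀ (s : Gal(N/F)) (W : HeightOneSpectrum (𝓞 N)), gk G k s P = P →
      f2 f₁ (gpl s W) = f2 f₁ W) ∧
    ∀ v : HeightOneSpectrum (𝓞 N₁), f₁ v ≠ 0 →
      ∃ W : HeightOneSpectrum (𝓞 N), f2 f₁ W ≠ 0 := by
  have : IsGalois N₁ N := S.gal
  have hres : ∀ (i : ℕ) (z : N₁), algebraMap N₁ N ((τ₁ ^ i) z) = (τ ^ i) (algebraMap N₁ N z) := by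
    intro i
    induction i with
    | zero => intro z; rfl
    | succ i ih =>
      intro z
      have h1 : (τ₁ ^ (i + 1)) z = (τ₁ ^ i) (τ₁ z) := by rw [pow_succ]; rfl
      have h2 : (τ ^ (i + 1)) (algebraMap N₁ N z) = (τ ^ i) (τ (algebraMap N₁ N z)) := by
        rw [pow_succ]; rfl
      rw [h1, h2, ih, S.res]
  refine ⟨f2_princ hf, ?_, ?_, ?_⟩
  · intro W
    obtain ⟨B, hB0, hB⟩ := hi (W.under (𝓞 N₁))
    refine ⟨(AddMonoidHom.mulLeft (W.asIdeal.inertiaDeg (𝓞 N₁) : ZMod ℓ)).comp B, ?_⟩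
    intro σ c hc
    obtain ⟨i, hgi⟩ := hg c (Full.c_ne D.pd D.full hc)
    have h1 : ga (τ ^ i) P = ga σ P := by
      rw [pl_ga hτ i, hc, D.full.ord.sm_eq_iff, ← dvd_neg, neg_sub]
      exact hgi
    have h2 : ga (σ⁻¹ * τ ^ i) P = P := by
      rw [ga_mul, h1, ← ga_mul, inv_mul_cancel, ga_one]
    have h3 : σ = τ ^ i := by
      have h4 := D.full.gen _ h2
      rw [inv_mul_eq_one] at h4
      exact h4
    rw [h3, f2_gal (hres i) W, hB i]
    have h5 : B (g ^ i) = B c := by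
      have h6 := hB0 _ hgi
      rw [map_sub, sub_eq_zero] at h6
      exact h6.symm
    rw [h5]
    rfl
  · intro s W hs
    have h1 : ∀ z : N₁, algebraMap N₁ N ((1 : Gal(N₁/K)) z) = s (algebraMap N₁ N z) := by
      intro z
      rw [S.fix z s hs]
      rfl
    rw [f2_gal h1 W, gpl_one]
    rfl
  · intro v hv
    obtain ⟨W, hW⟩ := CF.exists_over (N := N) v
    refine ⟨W, f2_ne D.pd.hl S.deg ?_⟩
    rw [hW]
    exact hv

end

end

end Pool.Agent.Lib.MP_1a91b9_nuY.BF
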