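import Pool.Agent.Lib.MP_1a91b9_nuY.BF.NoH
import Pool.Agent.Lib.MP_1a91b9_nuY.BF.IsoU
import Pool.Agent.Lib.MP_1a91b9_nuY.BF.Fix
import Pool.Agent.Lib.MP_1a91b9_nuY.BF.Cl
import Pool.Agent.Lib.MP_1a91b9_nuY.BF.Pl

/-!
# The vanishing theorem

The Selmer group of the twist in Kummer form over `N` is trivial.
-/

set_option autoImplicit false
set_option linter.unusedSectionVars false

namespace Pool.Agent.Lib.MP_1a91b9_nuY.BF

variable [Pool.Agent.Lib.MP_1a91b9_nuT.CD]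

open NumberField IsDedekindDomain WeierstrassCurve Pool.Agent.Lib.MP_1a91b9_nuT
open Pool.Agent.Lib.MP_1a91b9_nuX Pool.Agent.Lib.MP_1a91b9_nuX.DB Pool.Agent.Lib.MP_1a91b9_nuX.DG
open Pool.Agent.Lib.MP_1a91b9_nuX.DX (rs toF rs_apply rs_mul rs_toF toF_apply ga_toF exists_lift exists_of_rs_one)
open Pool.Agent.Lib.MP_1a91b9_nuY.TS

noncomputable section

variable [FP] [HC]

section
variable {μ : 𝓞 K} {H : Subgroup (CU μ)} {ϖ : 𝓞 K} {ℓ q : ℕ} {F G N : Type}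
  [Field F] [NumberField F] [Algebra K F] [Field G] [NumberField G] [Algebra K G] [Algebra F G]
  [IsScalarTower K F G] [IsGalois F G] [DecidableEq G] [Field N] [NumberField N] [Algebra K N]
  [Algebra F N] [Algebra G N] [IsScalarTower K F N] [IsScalarTower K G N] [IsScalarTower F G N]
  [IsGalois F N] [IsGalois G N] [DecidableEq N] {k : Gal(G/F) → 𝓞 K} {P : Pt N} {J : Pt G}

variable (D : TwX H ϖ ℓ q F G N k P J)
include D

theorem TwX.vt_core (hU : MP_1a91b9_nuT.DS.UnrL ℓ G) (hnd : NDX F H k ϖ J)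
    (hDT : ∀ v : HeightOneSpectrum (𝓞 N), v.valuation N (bD N) < 1 →
      ∃ σ : Gal(N/G), σ ≠ 1 ∧ gpl σ v = v) {y : Nˣ} (hy : VV G ϖ ℓ P y)
    (hk : IsoK G k ℓ P y) : ∃ z : Nˣ, y = z ^ ℓ := by
  classical
  have hfin : Finite (U H) := D.top.finU
  let _ : Fintype (U H) := Fintype.ofFinite _
  have h := D.pd
  have hF := D.full
  obtain ⟨T, iv, n, hT⟩ := exists_trD h
  obtain ⟨g, hg1, hg2, hg3⟩ := MP_1a91b9_nuT.DG.exists_primgenG h
  obtain ⟨τ, hτ⟩ := hF.all g hg2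
  obtain ⟨N₁, i1, i2, i3, i4, i5, τ₁, S⟩ := D.exists_sub hg1 hτ
  obtain ⟨y₁, z0, hy1⟩ := D.proj S hk
  have hin : MP_1a91b9_nuT.DS.inU N₁ N y₁ = y * (z0⁻¹) ^ ℓ := by
    rw [hy1, inv_pow, mul_inv_cancel_right]
  have hiso1 : Iso G ℓ P (MP_1a91b9_nuT.DS.inU N₁ N y₁) := by
    rw [hin]
    exact Iso.mul h hF hy.iso (Iso.pow_ell h hF _)
  have hT1 : IsoT ϖ g ℓ τ₁ y₁ := D.isoT S hg1 hτ hiso1
  have hod : ∀ w : HeightOneSpectrum (𝓞 N₁), (ℓ : ℤ) ∣ od w (y₁ : N₁) := by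
    refine S.od_desc h.hl (Units.ne_zero _) fun W => ?_
    have e1 : algebraMap N₁ N (y₁ : N₁) = (y : N) * ((z0⁻¹ : Nˣ) : N) ^ ℓ := by
      have e2 := congrArg (fun x : Nˣ => (x : N)) hin
      rw [← Units.val_pow_eq_pow_val, ← Units.val_mul]
      exact e2
    rw [e1, od_mul W (Units.ne_zero _) (pow_ne_zero _ (Units.ne_zero _)), od_pow]
    exact dvd_add (hy.od W) (dvd_mul_right _ _)
  rcases cl_units h hg1 hod hT1 with ⟨ε, s, hε, hys⟩ | ⟨f₁, ⟨v, hv⟩, hf, hi⟩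
  · have hisoε : Iso G ℓ P (MP_1a91b9_nuT.DS.inU N₁ N ε) := by
      have e1 : ε = y₁ * (s⁻¹) ^ ℓ := by rw [hys, inv_pow, mul_inv_cancel_right]
      rw [e1, map_mul, map_pow]
      exact Iso.mul h hF hiso1 (Iso.pow_ell h hF _)
    obtain ⟨c, x, z, hTI, hx, hcz⟩ := D.iso_unitX S hT hU hnd hg1 hg3 hτ hε hisoε
    obtain ⟨t, ht⟩ : ∃ t : Nˣ, t = z * MP_1a91b9_nuT.DS.inU N₁ N s * z0 := ⟨_, rfl⟩
    have hy2' : y = x * t ^ ℓ := by
      rw [hy1, hys, map_mul, map_pow, hcz, ht, mul_pow, mul_pow]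
      ac_rfl
    have hy2 : (y : N) = (x : N) * (t : N) ^ ℓ := by
      rw [hy2', Units.val_mul, Units.val_pow_eq_pow_val]
    have hc : ∀ u, ϖ ∣ c u := by
      refine D.ndx_up hnd hTI fun W hW => ?_
      obtain ⟨b, e, hb1, hb2⟩ := hy.loc W hW
      have hxc : W.valuation N (XX T iv n (up N P) (up N J) c) = 1 :=
        XX_val h hT D.top.ordP D.top.copw D.top.nlam D.top.ord (W.valuation N) c
      obtain ⟨r, hr⟩ : ∃ r : N, r = (t : N) * b := ⟨_, rfl⟩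
      have hyr : (y : N) * b ^ ℓ = XX T iv n (up N P) (up N J) c * r ^ ℓ := by
        rw [hy2, hr, ← hx]
        ring
      have hwr : W.valuation N (r ^ ℓ) = 1 := by
        rw [hyr, map_mul, hxc, one_mul] at hb1
        exact hb1
      have hr0 : r ^ ℓ ≠ 0 := by
        intro h0
        rw [h0, map_zero] at hwr
        exact zero_ne_one hwr
      have hz : W.valuation N (XX T iv n (up N P) (up N J) c - (e / r) ^ ℓ) ≤
          WithZero.exp (-2 : ℤ) := by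
        have e1 : XX T iv n (up N P) (up N J) c - (e / r) ^ ℓ =
            ((y : N) * b ^ ℓ - e ^ ℓ) / r ^ ℓ := by
          rw [hyr, div_pow]
          field_simp
        rw [e1, map_div₀, hwr, div_one]
        exact hb2
      exact XX_pow h hT D.top.ordP D.top.copw D.top.nlam D.top.ord W hW (D.top.odP W hW) hz
    have hx1 : (x : N) = 1 := by
      rw [hx]
      exact XX_zero h hT D.top.ordP D.top.copw D.top.nlam D.top.ord hc
    refine ⟨t, ?_⟩
    rw [hy2', Units.val_eq_one.1 hx1, one_mul]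
  · obtain ⟨h1, h2, h3, h4⟩ := D.f_up S hg1 hτ hf hi
    obtain ⟨W, hW⟩ := h4 v hv
    have hf3 : ∀ w : HeightOneSpectrum (𝓞 N), w.valuation N (bD N) < 1 →
        f2 (L := N) f₁ w = 0 := by
      intro w hw
      obtain ⟨σ, hσ1, hσ⟩ := hDT w hw
      exact IsoPl.fix h hF h2 hσ hσ1
    exact absurd (D.no_hX hnd h1 h2 h3 hf3 W) hW

end

end

end Pool.Agent.Lib.MP_1a91b9_nuY.BF
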