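import Pool.Agent.Lib.MP_1a91b9_nuY.BF.DNe
import Pool.Agent.Lib.MP_1a91b9_nuY.BF.Nd
import Pool.Agent.Lib.MP_1a91b9_nuY.BF.Vt
import Pool.Agent.Lib.MP_1a91b9_nuY.BF.TopN
import Pool.Agent.Lib.MP_1a91b9_nuY.TS.Dt
import Pool.Agent.Lib.MP_1a91b9_nuX.DG.Base

/-!
# The base field of the twisted towers
-/

set_option autoImplicit false
set_option linter.unusedSectionVars false

namespace Pool.Agent.Lib.MP_1a91b9_nuY.BF

variable [Pool.Agent.Lib.MP_1a91b9_nuT.CD]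

open NumberField IsDedekindDomain WeierstrassCurve Pool.Agent.Lib.MP_1a91b9_nuT
open Pool.Agent.Lib.MP_1a91b9_nuX Pool.Agent.Lib.MP_1a91b9_nuX.DB Pool.Agent.Lib.MP_1a91b9_nuX.DG
open Pool.Agent.Lib.MP_1a91b9_nuX.DX (rs toF rs_apply rs_mul rs_toF toF_apply ga_toF exists_lift exists_of_rs_one)
open Pool.Agent.Lib.MP_1a91b9_nuY.TS
open Pool.Agent.Lib.MP_1a91b9_nuY

noncomputable section

private theorem bs_fin {μ : 𝓞 K} {H : Subgroup (CU μ)} (hμ : μ ≠ 0) : Finite (U H) := by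
  have h1 : Finite (𝓞 K ⧸ Ideal.span {μ}) := by
    refine Ideal.finiteQuotientOfFreeOfNeBot _ ?_
    rw [Ne, Ideal.span_singleton_eq_bot]
    exact hμ
  infer_instance

private theorem bs_cop {μ : 𝓞 K} {ℓ : ℕ} (hℓ : ℓ.Prime)
    (hμ : ¬ ℓ ∣ Ideal.absNorm (Ideal.span {μ})) : IsCoprime (ℓ : 𝓞 K) μ := by
  have h1 : IsCoprime (ℓ : ℤ) (Ideal.absNorm (Ideal.span {μ}) : ℤ) := by
    rw [Nat.isCoprime_iff_coprime]
    exact (Nat.Prime.coprime_iff_not_dvd hℓ).2 hμ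
  have h2 := h1.map (Int.castRingHom (𝓞 K))
  rw [map_natCast, map_natCast] at h2
  refine IsCoprime.of_isCoprime_of_dvd_right h2 ?_
  rw [← Ideal.mem_span_singleton]
  exact Ideal.absNorm_mem _

private theorem bs_dvd {F : Type} [Field F] [NumberField F] (v : HeightOneSpectrum (𝓞 F))
    {ℓ : ℕ} (hℓ : ℓ.Prime) (hv : (ℓ : 𝓞 F) ∈ v.asIdeal) : ℓ ∣ Ideal.absNorm v.asIdeal := by
  by_contra hnd
  have h1 : IsCoprime (ℓ : ℤ) (Ideal.absNorm v.asIdeal : ℤ) := by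
    rw [Nat.isCoprime_iff_coprime]
    exact (Nat.Prime.coprime_iff_not_dvd hℓ).2 hnd
  obtain ⟨a, b, hab⟩ := h1.map (Int.castRingHom (𝓞 F))
  rw [map_natCast, map_natCast] at hab
  apply v.isPrime.ne_top
  rw [Ideal.eq_top_iff_one, ← hab]
  exact v.asIdeal.add_mem (v.asIdeal.mul_mem_left _ hv)
    (v.asIdeal.mul_mem_left _ (Ideal.absNorm_mem v.asIdeal))

private theorem bs_pos {F : Type} [Field F] [NumberField F] (v : HeightOneSpectrum (𝓞 F)) :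
    0 < Ideal.absNorm v.asIdeal := by
  rw [Nat.pos_iff_ne_zero, Ne, Ideal.absNorm_eq_zero_iff]
  exact v.ne_bot

open scoped Pointwise in
/-- trivial decomposition group: unramified of degree one -/
private theorem bs_ef {k N : Type} [Field k] [NumberField k] [Field N] [NumberField N]
    [Algebra k N] [IsGalois k N] (v : HeightOneSpectrum (𝓞 N))
    (hst : ∀ σ : Gal(N/k), gpl σ v = v → σ = 1) : v.asIdeal.inertiaDeg (𝓞 k) = 1 := by
  have i1 : v.asIdeal.IsPrime := v.isPrime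
  have i2 : (v.under (𝓞 k)).asIdeal.IsPrime := (v.under (𝓞 k)).isPrime
  have i3 : (v.under (𝓞 k)).asIdeal.IsMaximal := (v.under (𝓞 k)).isMaximal
  have i4 : v.asIdeal.LiesOver (v.under (𝓞 k)).asIdeal := ⟨rfl⟩
  have i5 : Finite (v.under (𝓞 k)).asIdeal.ResidueField := by
    have j1 : Finite (𝓞 k ⧸ (v.under (𝓞 k)).asIdeal) :=
      Ideal.finiteQuotientOfFreeOfNeBot _ (v.under (𝓞 k)).ne_bot
    exact Finite.of_surjective _
      (Ideal.bijective_algebraMap_quotient_residueField (v.under (𝓞 k)).asIdeal).2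
  have h1 := Ideal.card_stabilizer_eq (G := Gal(N/k)) (v.under (𝓞 k)).asIdeal v.asIdeal
  have h2 : Nat.card (MulAction.stabilizer Gal(N/k) v.asIdeal) = 1 := by
    rw [Nat.card_eq_one_iff_unique]
    refine ⟨⟨?_⟩, ⟨1⟩⟩
    have hone : ∀ g : MulAction.stabilizer Gal(N/k) v.asIdeal, g.1 = 1 := by
      rintro ⟨g, hg⟩
      change g = 1
      apply hst
      apply HeightOneSpectrum.ext
      rw [MulAction.mem_stabilizer_iff] at hg
      conv_rhs => rw [← hg]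
      rw [Ideal.pointwise_smul_eq_comap]
      rfl
    intro a b
    exact Subtype.ext ((hone a).trans (hone b).symm)
  rw [h2, Ideal.ramificationIdxIn_eq_ramificationIdx _ v.asIdeal Gal(N/k),
    Ideal.inertiaDegIn_eq_inertiaDeg _ v.asIdeal Gal(N/k)] at h1
  exact Nat.eq_one_of_mul_eq_one_left h1.symm

/-- for large `ℓ` the decomposition groups at the places above `b` are not trivial -/
theorem dtb_large {b : 𝓞 K} (hb : b ≠ 0) (F : Type) [Field F] [NumberField F] [Algebra K F] :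
    ∃ B : ℕ, ∀ (ϖ : 𝓞 K) (ℓ q : ℕ), PD ϖ ℓ q → B < ℓ → DTb b ϖ F := by
  classical
  obtain ⟨β, hβ⟩ : ∃ β : F, β = algebraMap K F (b : K) := ⟨_, rfl⟩
  have hb0 : β ≠ 0 := by
    rw [hβ, Ne, map_eq_zero]
    intro h0
    exact hb (RingOfIntegers.ext (by rw [h0]; rfl))
  have hfin : {w : HeightOneSpectrum (𝓞 F) | od w β ≠ 0}.Finite := od_finite hb0
  refine ⟨∑ w ∈ hfin.toFinset, (2 * Ideal.absNorm w.asIdeal + 1), ?_⟩
  intro ϖ ℓ q h hB N _ _ _ _ _ _ _ P hF v hv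
  by_contra hcon
  push Not at hcon
  have hf := bs_ef (k := F) v (fun σ hσ => by
    by_contra h1
    exact hcon σ h1 hσ)
  have hvk : (v.under (𝓞 F)).valuation F β < 1 := by
    rw [← val_map_lt, hβ, ← IsScalarTower.algebraMap_apply K F N]
    exact hv
  have hmem : v.under (𝓞 F) ∈ hfin.toFinset := by
    rw [Set.Finite.mem_toFinset]
    have h1 := (val_lt_one_iff _ hb0).1 hvk
    exact h1.ne'
  have h3 := Finset.single_le_sum
    (f := fun w : HeightOneSpectrum (𝓞 F) => 2 * Ideal.absNorm w.asIdeal + 1)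
    (fun w _ => Nat.zero_le _) hmem
  have h3' : 2 * Ideal.absNorm (v.under (𝓞 F)).asIdeal + 1 ≤
    ∑ w ∈ hfin.toFinset, (2 * Ideal.absNorm w.asIdeal + 1) := h3
  have hpi : v.valuation N (ℓ : N) = 1 := by
    refine le_antisymm (v_nat_le _ ℓ) (not_lt.1 fun h2 => ?_)
    have h4 : (v.under (𝓞 F)).valuation F (algebraMap (𝓞 F) F ((ℓ : ℕ) : 𝓞 F)) < 1 := by
      rw [← val_map_lt, map_natCast, map_natCast]
      exact h2
    have h5 : ((ℓ : ℕ) : 𝓞 F) ∈ (v.under (𝓞 F)).asIdeal :=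
      ((v.under (𝓞 F)).valuation_lt_one_iff_mem _).1 h4
    have h6 := Nat.le_of_dvd (bs_pos _) (bs_dvd _ h.hl h5)
    omega
  have hcard := card_le_place h hF.ord v hpi
  have i1 : v.asIdeal.LiesOver (v.under (𝓞 F)).asIdeal := ⟨rfl⟩
  have h1 : Ideal.absNorm v.asIdeal = Ideal.absNorm (v.under (𝓞 F)).asIdeal := by
    have h2 := Ideal.absNorm_pow_inertiaDeg (v.under (𝓞 F)).asIdeal v.asIdeal
    rw [hf, pow_one] at h2
    exact h2.symm
  rw [h1] at hcard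
  have h4 : ℓ ≤ q := by
    rcases h.alt with h5 | h5
    · exact h5.ge
    · rw [h5]
      exact Nat.le_self_pow two_ne_zero ℓ
  exact absurd (h4.trans (hcard.trans h3')) (not_le.2 hB)

variable [HC]

section
variable {μ : 𝓞 K} {H : Subgroup (CU μ)} {F G : Type} [Field F] [NumberField F] [Algebra K F]
  [Field G] [NumberField G] [Algebra K G] [Algebra F G] [IsScalarTower K F G] [IsGalois F G]
  [DecidableEq G] {k : Gal(G/F) → 𝓞 K} {J : Pt G} {f b : 𝓞 K} {Ψ : Ideal (𝓞 F) → 𝓞 K}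

/-- `ℓ` is unramified in `G` -/
theorem ab_unrG (hAB : AB H F G J) {ϖ : 𝓞 K} {ℓ q : ℕ} (h : PD ϖ ℓ q)
    (hco : IsCoprime (ℓ : 𝓞 K) μ) : MP_1a91b9_nuT.DS.UnrL ℓ G := by
  have h1 : AB H G G J := ⟨hAB.gal, hAB.ne, hAB.ord, hAB.gen, hAB.mem, hAB.surj⟩
  exact unrF h1 h.hl h.good hco

/-- the Selmer groups of the twist over the base field are trivial for large `ℓ` -/
theorem base_vtk (hAB : AB H F G J) (hM : Md μ) (hk : Kap F G k) (hΨ : HF f F Ψ)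
    (hfr : FrK F G k b Ψ) (hb : ∀ v : HeightOneSpectrum (𝓞 K), b ∈ v.asIdeal → μ ∈ v.asIdeal)
    (hL : ∃ L : ℂ → ℂ, Differentiable ℂ L ∧ (∀ s : ℂ, 2 < s.re → L s = S4.Lf (pB Ψ) s) ∧
      L 1 ≠ 0) :
    ∃ B : ℕ, ∀ (ϖ : 𝓞 K) (ℓ q : ℕ), PD ϖ ℓ q → B < ℓ → VTK F G k ϖ ℓ := by
  classical
  obtain ⟨fp, hfp⟩ := exists_fp hAB.ne
  let _ : FP := fp
  have hpk : IsCoprime pk μ := hfp
  obtain ⟨B1, hB1⟩ := dt_large G
  have hgK : IsGalois K G := hAB.gal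
  have hgF : IsGalois K F := hAB.galF
  obtain ⟨r, hr⟩ : ∃ r : Gal(F/K) → Gal(G/K),
      ∀ (s : Gal(F/K)) (x : F), r s (algebraMap F G x) = algebraMap F G (s x) :=
    ⟨fun s => AlgEquiv.liftNormal s G, fun s x => AlgEquiv.liftNormal_commutes s G x⟩
  have hd := dX_ne hAB hM hpk hk hΨ hfr hb hL hr
  have hfin : {w : HeightOneSpectrum (𝓞 G) | od w (dX F k r J) ≠ 0}.Finite := od_finite hd
  have hfU : Finite (U H) := bs_fin hAB.ne
  have hμpk : μ * pk ≠ 0 := mul_ne_zero hAB.ne pk_ne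
  have hN0 : Ideal.absNorm (Ideal.span {μ * pk}) ≠ 0 := by
    rw [Ne, Ideal.absNorm_eq_zero_iff, Ideal.span_singleton_eq_bot]
    exact hμpk
  have hkk : ¬ μ ∣ pk := fun hdv =>
    hM.not_unit (hpk.symm.isUnit_of_dvd' dvd_rfl hdv)
  refine ⟨B1 + Ideal.absNorm (Ideal.span {μ * pk}) + Nat.card (U H) +
    ∑ w ∈ hfin.toFinset, Ideal.absNorm w.asIdeal, ?_⟩
  intro ϖ ℓ q h hB
  have hℓ := h.hl
  have hcpos : 0 < Nat.card (U H) := Nat.card_pos
  have hcu : ¬ ℓ ∣ Nat.card (U H) := fun hdv =>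
    absurd (Nat.le_of_dvd hcpos hdv) (by omega)
  have hcw : CW ℓ μ := fun hdv =>
    absurd (Nat.le_of_dvd (Nat.pos_of_ne_zero hN0) hdv) (by omega)
  have hco : IsCoprime (ℓ : 𝓞 K) μ :=
    (IsCoprime.of_isCoprime_of_dvd_left (hcw.copK hℓ) (dvd_mul_right _ _)).symm
  have hunr := ab_unrG hAB h hco
  have hdt : DT ϖ G := hB1 ϖ ℓ q h (by omega)
  have hval : ∀ v : HeightOneSpectrum (𝓞 G), v.valuation G (algebraMap K G (ϖ : K)) < 1 →
      v.valuation G (dX F k r J) = 1 := by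
    intro v hv
    by_contra hne
    have hmem : v ∈ hfin.toFinset := by
      rw [Set.Finite.mem_toFinset]
      intro h0
      exact hne ((val_eq_one_iff v hd).2 h0)
    have hvl : v.valuation G (algebraMap (𝓞 G) G ((ℓ : ℕ) : 𝓞 G)) < 1 := by
      obtain ⟨c, hc⟩ := h.dvd
      have e : algebraMap (𝓞 G) G ((ℓ : ℕ) : 𝓞 G) =
          algebraMap K G (ϖ : K) * algebraMap K G (c : K) := by
        rw [← map_mul]
        have e1 : ((ϖ * c : 𝓞 K) : K) = (ϖ : K) * (c : K) := map_mul _ _ _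
        rw [← e1, ← hc]
        have e2 : (((ℓ : ℕ) : 𝓞 K) : K) = (ℓ : K) := map_natCast _ _
        rw [e2, map_natCast, map_natCast]
      rw [e, map_mul]
      exact mul_lt_one_of_lt_of_le hv (v_alg_le (v.valuation G) c)
    have hlv : ((ℓ : ℕ) : 𝓞 G) ∈ v.asIdeal := (v.valuation_lt_one_iff_mem _).1 hvl
    have hdv := bs_dvd v hℓ hlv
    have h1 := Nat.le_of_dvd (bs_pos v) hdv
    have h2 := Finset.single_le_sum
      (f := fun w : HeightOneSpectrum (𝓞 G) => Ideal.absNorm w.asIdeal)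
      (fun w _ => Nat.zero_le _) hmem
    have h3 : Ideal.absNorm v.asIdeal ≤ ∑ w ∈ hfin.toFinset, Ideal.absNorm w.asIdeal := h2
    omega
  intro N _ _ _ _ _ _ _ _ _ _ P hF y hy
  have iG : IsGalois G N := IsGalois.tower_top_of_isGalois F G N
  have D : TwX H ϖ ℓ q F G N k P J := ⟨hAB, hk, topN hAB hkk h hcw hcu hF⟩
  have hVV : VV G ϖ ℓ P y := by
    refine ⟨hy.vw.od, hy.vw.iso, fun w hw => hy.vw.loc w hw (hunr _ ?_)⟩
    rw [← val_map_lt, map_natCast, h.val_ell hw]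
    exact hw
  exact D.vt_core hunr (D.ndx hr hval) (hdt N P hF) hVV hy.iso

/-- the package over the base field for large `ℓ` -/
theorem base_awk (hAB : AB H F G J) (hM : Md μ) (hk : Kap F G k) (hΨ : HF f F Ψ)
    (hfr : FrK F G k b Ψ) (hb : ∀ v : HeightOneSpectrum (𝓞 K), b ∈ v.asIdeal → μ ∈ v.asIdeal)
    (hb0 : b ≠ 0) (hbad : bO ∣ b)
    (hur : ∀ w : HeightOneSpectrum (𝓞 G), w.valuation G (algebraMap K G (b : K)) = 1 →
      w.asIdeal.ramificationIdx (𝓞 F) = 1)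
    (hL : ∃ L : ℂ → ℂ, Differentiable ℂ L ∧ (∀ s : ℂ, 2 < s.re → L s = S4.Lf (pB Ψ) s) ∧
      L 1 ≠ 0) :
    ∃ B : ℕ, ∀ (ϖ : 𝓞 K) (ℓ q : ℕ), PD ϖ ℓ q → B < ℓ → AWK F G k b ϖ ℓ Ψ := by
  obtain ⟨B1, hB1⟩ := base_vtk hAB hM hk hΨ hfr hb hL
  obtain ⟨B2, hB2⟩ := dtb_large hb0 G
  have hN0 : Ideal.absNorm (Ideal.span {μ}) ≠ 0 := by
    rw [Ne, Ideal.absNorm_eq_zero_iff, Ideal.span_singleton_eq_bot]
    exact hAB.ne
  have hN1 : Ideal.absNorm (Ideal.span {b}) ≠ 0 := by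
    rw [Ne, Ideal.absNorm_eq_zero_iff, Ideal.span_singleton_eq_bot]
    exact hb0
  have hf0 : FiniteDimensional F G := Module.Finite.of_restrictScalars_finite ℚ F G
  have hfp : 0 < Module.finrank F G := Module.finrank_pos
  refine ⟨B1 + B2 + Ideal.absNorm (Ideal.span {μ}) + Ideal.absNorm (Ideal.span {b}) +
    Module.finrank F G, fun ϖ ℓ q h hB => ?_⟩
  have hℓ := h.hl
  have hco : IsCoprime (ℓ : 𝓞 K) μ := bs_cop hℓ fun hdv =>
    absurd (Nat.le_of_dvd (Nat.pos_of_ne_zero hN0) hdv) (by omega)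
  have hcb : IsCoprime (ℓ : 𝓞 K) b := bs_cop hℓ fun hdv =>
    absurd (Nat.le_of_dvd (Nat.pos_of_ne_zero hN1) hdv) (by omega)
  have hUG := ab_unrG hAB h hco
  have hUF : MP_1a91b9_nuT.DS.UnrL ℓ F := unrF hAB hℓ h.good hco
  refine ⟨hk, ?_, hcb.symm, hbad, hur, hfr, MP_1a91b9_nuW.DS.ep_of_unr hUG,
    fun v hv hne => absurd (hUF v hv) hne, fun _ => hUG, hB1 ϖ ℓ q h (by omega),
    dtk_of_dtb hk (hB2 ϖ ℓ q h (by omega))⟩
  refine ((Nat.Prime.coprime_iff_not_dvd hℓ).2 fun hdv => ?_).symm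
  have := Nat.le_of_dvd hfp hdv
  omega

end

end

end Pool.Agent.Lib.MP_1a91b9_nuY.BF
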