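import Pool.Agent.Lib.MP_1a91b9_nuY.BF.Base
import Pool.Agent.Lib.MP_1a91b9_nuY.TX.Defs
import Pool.Agent.Lib.MP_1a91b9_nuY.AN.Alg
import Pool.Agent.Lib.MP_1a91b9_nuY.ZD.Defs

/-!
# The property of the base field for large `ℓ`
-/

set_option autoImplicit false
set_option linter.unusedSectionVars false

namespace Pool.Agent.Lib.MP_1a91b9_nuY.BF

variable [Pool.Agent.Lib.MP_1a91b9_nuT.CD]

open NumberField IsDedekindDomain WeierstrassCurve Pool.Agent.Lib.MP_1a91b9_nuT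
open Pool.Agent.Lib.MP_1a91b9_nuX Pool.Agent.Lib.MP_1a91b9_nuX.DB Pool.Agent.Lib.MP_1a91b9_nuX.DG
open Pool.Agent.Lib.MP_1a91b9_nuY.TS Pool.Agent.Lib.MP_1a91b9_nuY.TX
open Pool.Agent.Lib.MP_1a91b9_nuY

noncomputable section

private theorem by_cop {μ : 𝓞 K} {ℓ : ℕ} (hℓ : ℓ.Prime)
    (hμ : ¬ ℓ ∣ Ideal.absNorm (Ideal.span {μ})) : IsCoprime (ℓ : 𝓞 K) μ := by
  have h1 : IsCoprime (ℓ : ℤ) (Ideal.absNorm (Ideal.span {μ}) : ℤ) := by
    rw [Nat.isCoprime_iff_coprime]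
    exact (Nat.Prime.coprime_iff_not_dvd hℓ).2 hμ
  have h2 := h1.map (Int.castRingHom (𝓞 K))
  rw [map_natCast, map_natCast] at h2
  refine IsCoprime.of_isCoprime_of_dvd_right h2 ?_
  rw [← Ideal.mem_span_singleton]
  exact Ideal.absNorm_mem _

variable [HC]

section
variable {μ : 𝓞 K} {H : Subgroup (CU μ)} {F G : Type} [Field F] [NumberField F] [Algebra K F]
  [Field G] [NumberField G] [Algebra K G] [Algebra F G] [IsScalarTower K F G] [IsGalois F G]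
  [DecidableEq G] {k : Gal(G/F) → 𝓞 K} {J : Pt G} {g : 𝓞 K} {Ψ : Ideal (𝓞 F) → 𝓞 K}

/-- **The property of the base field holds for large `ℓ`.** -/
theorem baseY_large (hAB : AB H F G J) (hM : Md μ) (hk : Kap F G k) (hΨ : HF g F Ψ)
    (hfg : HC.f ∣ g) (hbad : bO ∣ g) (hfr : FrK F G k g Ψ)
    (hb : ∀ v : HeightOneSpectrum (𝓞 K), g ∈ v.asIdeal → μ ∈ v.asIdeal)
    (hur : ∀ w : HeightOneSpectrum (𝓞 G), w.valuation G (algebraMap K G (g : K)) = 1 →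
      w.asIdeal.ramificationIdx (𝓞 F) = 1) (hL : LGoodY F Ψ) :
    ∃ B : ℕ, ∀ ℓ : ℕ, ℓ.Prime → B < ℓ → BaseY g ℓ F G k Ψ := by
  have hg0 : g ≠ 0 := hΨ.ne
  obtain ⟨B1, hB1⟩ := base_awk hAB hM hk hΨ hfr hb hg0 hbad hur hL
  obtain ⟨D, hD, hB2⟩ := unit_almost hΨ hL
  have hN0 : Ideal.absNorm (Ideal.span {μ}) ≠ 0 := by
    rw [Ne, Ideal.absNorm_eq_zero_iff, Ideal.span_singleton_eq_bot]
    exact hAB.ne
  have hN1 : Ideal.absNorm (Ideal.span {g}) ≠ 0 := by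
    rw [Ne, Ideal.absNorm_eq_zero_iff, Ideal.span_singleton_eq_bot]
    exact hg0
  have hf0 : FiniteDimensional K F := Module.Finite.of_restrictScalars_finite ℚ K F
  have hfp : 0 < Module.finrank K F := Module.finrank_pos
  have h2p : 0 < 2 ^ Module.finrank K F - 1 := by
    have h2 : 1 < 2 ^ Module.finrank K F := Nat.one_lt_two_pow hfp.ne'
    omega
  have hb0 : 0 < CD.bad.natAbs := Int.natAbs_pos.2 CD.bad_ne
  refine ⟨B1 + D + Ideal.absNorm (Ideal.span {μ}) + Ideal.absNorm (Ideal.span {g}) +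
    (2 ^ Module.finrank K F - 1) + CD.bad.natAbs, fun ℓ hℓ hB => ?_⟩
  have hgood : ¬ (ℓ : ℤ) ∣ CD.bad := fun hdv =>
    absurd (Nat.le_of_dvd hb0 (Int.natCast_dvd.1 hdv)) (by omega)
  have hco : IsCoprime (ℓ : 𝓞 K) μ := by_cop hℓ fun hdv =>
    absurd (Nat.le_of_dvd (Nat.pos_of_ne_zero hN0) hdv) (by omega)
  have hcg : IsCoprime (ℓ : 𝓞 K) g := by_cop hℓ fun hdv =>
    absurd (Nat.le_of_dvd (Nat.pos_of_ne_zero hN1) hdv) (by omega)
  exact ⟨hgood, hΨ, hfg, hcg.symm, fun hdv => absurd (Nat.le_of_dvd h2p hdv) (by omega),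
    unrF hAB hℓ hgood hco,
    hB2 ℓ hℓ fun hdv => absurd (Nat.le_of_dvd (Nat.pos_of_ne_zero hD) hdv) (by omega),
    fun ϖ q h => hB1 ϖ ℓ q h (by omega)⟩

end

end

end Pool.Agent.Lib.MP_1a91b9_nuY.BF
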