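import Pool.Agent.Lib.MP_1a91b9_nuY.BF.Iso
import Pool.Agent.Lib.MP_1a91b9_nuT.DG.Mink
import Pool.Agent.Lib.MP_1a91b9_nuT.DG.Cnt
import Pool.Agent.Lib.MP_1a91b9_nuT.DG.Pg
import Pool.Agent.Lib.MP_1a91b9_nuX.DB.El

/-!
# Counting the isotypic units

There are at most `q ^ n0` isotypic units of `N` which are different modulo `ℓ`-th powers and
roots of unity.
-/

set_option autoImplicit false
set_option linter.unusedSectionVars false

namespace Pool.Agent.Lib.MP_1a91b9_nuY.BF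

variable [Pool.Agent.Lib.MP_1a91b9_nuT.CD]

open NumberField IsDedekindDomain WeierstrassCurve Pool.Agent.Lib.MP_1a91b9_nuT
open Pool.Agent.Lib.MP_1a91b9_nuX Pool.Agent.Lib.MP_1a91b9_nuX.DB Pool.Agent.Lib.MP_1a91b9_nuX.DG
open Pool.Agent.Lib.MP_1a91b9_nuX.DX (rs toF rs_apply rs_mul rs_toF toF_apply ga_toF exists_lift exists_of_rs_one)
open Pool.Agent.Lib.MP_1a91b9_nuY.TS

noncomputable section

section
variable {N : Type} [Field N] [NumberField N] [Algebra K N]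

private def bcn_val (x : CF.SU (∅ : Set (HeightOneSpectrum (𝓞 N)))) : Nˣ :=
  Additive.toMul (x : Additive Nˣ)

private theorem bcn_val_inj {x y : CF.SU (∅ : Set (HeightOneSpectrum (𝓞 N)))}
    (h : bcn_val x = bcn_val y) : x = y :=
  Subtype.ext (Additive.toMul.injective h)

private theorem bcn_val_add (x y : CF.SU (∅ : Set (HeightOneSpectrum (𝓞 N)))) :
    bcn_val (x + y) = bcn_val x * bcn_val y := rfl

private theorem bcn_val_sub (x y : CF.SU (∅ : Set (HeightOneSpectrum (𝓞 N)))) :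
    bcn_val (x - y) = bcn_val x / bcn_val y := rfl

private theorem bcn_val_zsmul (m : ℤ) (x : CF.SU (∅ : Set (HeightOneSpectrum (𝓞 N)))) :
    bcn_val (m • x) = bcn_val x ^ m := rfl

private theorem bcn_val_zero : bcn_val (0 : CF.SU (∅ : Set (HeightOneSpectrum (𝓞 N)))) = 1 := rfl

private theorem bcn_val_sum {ι : Type*} (s : Finset ι)
    (f : ι → CF.SU (∅ : Set (HeightOneSpectrum (𝓞 N)))) :
    bcn_val (∑ i ∈ s, f i) = ∏ i ∈ s, bcn_val (f i) := by
  classical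
  induction s using Finset.induction_on with
  | empty => rfl
  | insert a s ha ih =>
    rw [Finset.sum_insert ha, Finset.prod_insert ha, ← ih]
    rfl

private theorem bcn_od (x : CF.SU (∅ : Set (HeightOneSpectrum (𝓞 N))))
    (w : HeightOneSpectrum (𝓞 N)) : od w (bcn_val x : N) = 0 := by
  rw [od_eq_ord]
  exact x.2 w (Set.notMem_empty w)

private def bcn_mk (y : Nˣ) (hy : ∀ w : HeightOneSpectrum (𝓞 N), od w (y : N) = 0) :
    CF.SU (∅ : Set (HeightOneSpectrum (𝓞 N))) :=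
  ⟨Additive.ofMul y, fun w _ => by rw [← od_eq_ord]; exact hy w⟩

private theorem bcn_val_mk (y : Nˣ) (hy : ∀ w : HeightOneSpectrum (𝓞 N), od w (y : N) = 0) :
    bcn_val (bcn_mk y hy) = y := rfl

private theorem bcn_od_sg (σ : Gal(N/K)) (y : Nˣ)
    (hy : ∀ w : HeightOneSpectrum (𝓞 N), od w (y : N) = 0) (w : HeightOneSpectrum (𝓞 N)) :
    od w ((sg σ y : Nˣ) : N) = 0 := by
  have h1 : gpl σ (gpl σ⁻¹ w) = w := by rw [← gpl_mul, mul_inv_cancel, gpl_one]
  rw [← h1, sg_coe, gpl_od]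
  exact hy _

/-- the action of the Galois group on the group of the units -/
private def bcn_rho : Gal(N/K) →* AddMonoid.End (CF.SU (∅ : Set (HeightOneSpectrum (𝓞 N)))) where
  toFun τ := AddMonoidHom.mk'
    (fun x => bcn_mk (sg τ (bcn_val x)) (bcn_od_sg τ _ (bcn_od x))) (by
      intro x y
      apply bcn_val_inj
      exact sg_mul τ (bcn_val x) (bcn_val y))
  map_one' := by
    apply AddMonoidHom.ext
    intro x
    apply bcn_val_inj
    exact Units.ext rfl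
  map_mul' σ τ := by
    apply AddMonoidHom.ext
    intro x
    apply bcn_val_inj
    exact sg_sg σ τ (bcn_val x)

private theorem bcn_val_rho (τ : Gal(N/K)) (x : CF.SU (∅ : Set (HeightOneSpectrum (𝓞 N)))) :
    bcn_val (bcn_rho τ x) = sg τ (bcn_val x) := rfl

private theorem bcn_nat {t : Nˣ} {m : ℤ} (hm : m ≠ 0) (ht : t ^ m = 1) :
    ∃ m' : ℕ, m' ≠ 0 ∧ t ^ m' = 1 := by
  refine ⟨m.natAbs, Int.natAbs_ne_zero.2 hm, ?_⟩
  rcases Int.natAbs_eq m with h | h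
  · rw [h, zpow_natCast] at ht
    exact ht
  · rw [h, zpow_neg, zpow_natCast, inv_eq_one] at ht
    exact ht

end

section
variable {N : Type} [Field N] [NumberField N] [Algebra K N] [IsGalois K N] {ϖ : 𝓞 K} {ℓ q : ℕ}

theorem cnt_units (h : PD ϖ ℓ q) {g : 𝓞 K}
    (hg3 : ¬ ((ℓ * q : ℕ) : ℤ) ∣ Algebra.norm ℤ (g ^ (q - 1) - 1)) {τ : Gal(N/K)}
    (hτ : orderOf τ = q - 1) {n0 : ℕ} (hn : Module.finrank K N = n0 * (q - 1))
    (hn2 : 2 ≤ Module.finrank K N) (Y : Finset Nˣ)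
    (hY0 : ∀ y ∈ Y, ∀ w : HeightOneSpectrum (𝓞 N), od w (y : N) = 0)
    (hY : ∀ y ∈ Y, IsoT ϖ g ℓ τ y)
    (hne : ∀ y ∈ Y, ∀ y' ∈ Y, y ≠ y' →
      ¬ ∃ (z t : Nˣ) (m : ℕ), m ≠ 0 ∧ t ^ m = 1 ∧ y = y' * z ^ ℓ * t) :
    Y.card ≤ q ^ n0 := by
  classical
  have hG1 : Fintype.card Gal(N/K) = Module.finrank K N := by
    rw [← Nat.card_eq_fintype_card]
    exact IsGalois.card_aut_eq_finrank K N
  have hrank : Module.finrank ℤ (CF.SU (∅ : Set (HeightOneSpectrum (𝓞 N)))) + 1 =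
      Fintype.card Gal(N/K) := by
    rw [hG1]
    exact unit_rank (k := K) (N := N) Function.bijective_id rfl
  have hMfin : Module.Finite ℤ (CF.SU (∅ : Set (HeightOneSpectrum (𝓞 N)))) :=
    CF.su_finite ∅ Set.finite_empty
  obtain ⟨u, hu1, hu2⟩ := MP_1a91b9_nuT.DG.minkowskiG (N := N) hn2
  have hqr : ∃ r : ℕ, q = ℓ ^ r := by
    rcases h.alt with h1 | h1
    · exact ⟨1, by rw [pow_one]; exact h1⟩
    · exact ⟨2, h1⟩
  obtain ⟨r, hr⟩ := hqr
  have hinj : Function.Injective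
      (fun y : {x // x ∈ Y} => bcn_mk (N := N) y.1 (hY0 y.1 y.2)) := by
    intro y y' hyy
    apply Subtype.ext
    have h1 := congrArg bcn_val hyy
    rw [bcn_val_mk, bcn_val_mk] at h1
    exact h1
  have hcard : (Y.attach.image (fun y => bcn_mk (N := N) y.1 (hY0 y.1 y.2))).card = Y.card := by
    rw [Finset.card_image_of_injective _ hinj, Finset.card_attach]
  rw [← hcard]
  refine MP_1a91b9_nuT.DG.count_absG (bcn_rho (N := N)) hrank (u := bcn_mk u hu1) ?_ τ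
    (n := q - 1) (n0 := n0) hτ ?_ h.hl hr (g := g) hg3 _ ?_ ?_
  · rintro c ⟨m, hm, hc⟩
    refine hu2 c ⟨m, hm, ?_⟩
    have h2 := congrArg bcn_val hc
    rw [bcn_val_zsmul, bcn_val_sum, bcn_val_zero] at h2
    exact h2
  · rw [hG1, hn]
  · intro y hy
    obtain ⟨⟨y0, hy0⟩, _, rfl⟩ := Finset.mem_image.1 hy
    obtain ⟨z, hz⟩ := (hY y0 hy0).quad
    have hz2 : bcn_val (bcn_rho (τ ^ 2) (bcn_mk y0 (hY0 y0 hy0)) +
        (-Algebra.trace ℤ (𝓞 K) g) • bcn_rho τ (bcn_mk y0 (hY0 y0 hy0)) +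
          Algebra.norm ℤ g • bcn_mk y0 (hY0 y0 hy0)) = z ^ ℓ := by
      rw [bcn_val_add, bcn_val_add, bcn_val_zsmul, bcn_val_zsmul, bcn_val_rho,
        bcn_val_rho, bcn_val_mk]
      exact hz
    have hzod : ∀ w : HeightOneSpectrum (𝓞 N), od w (z : N) = 0 := by
      intro w
      have h2 := bcn_od (bcn_rho (τ ^ 2) (bcn_mk y0 (hY0 y0 hy0)) +
        (-Algebra.trace ℤ (𝓞 K) g) • bcn_rho τ (bcn_mk y0 (hY0 y0 hy0)) +
          Algebra.norm ℤ g • bcn_mk y0 (hY0 y0 hy0)) w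
      rw [hz2, Units.val_pow_eq_pow_val, od_pow] at h2
      rcases mul_eq_zero.1 h2 with h3 | h3
      · exact absurd (Nat.cast_eq_zero.1 h3) h.hl.ne_zero
      · exact h3
    refine ⟨bcn_mk z hzod, 0, 1, one_ne_zero, smul_zero _, ?_⟩
    apply bcn_val_inj
    rw [sub_eq_add_neg, ← neg_smul, hz2, bcn_val_add, bcn_val_zsmul, bcn_val_zero, mul_one,
      bcn_val_mk, zpow_natCast]
  · intro y hy y' hy' hyne
    obtain ⟨⟨y0, hy0⟩, _, rfl⟩ := Finset.mem_image.1 hy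
    obtain ⟨⟨y1, hy1⟩, _, rfl⟩ := Finset.mem_image.1 hy'
    rintro ⟨z, t, m, hm, ht, he⟩
    refine hne y0 hy0 y1 hy1 (fun h01 => hyne (by subst h01; rfl)) ?_
    have h1 : (bcn_val t) ^ m = 1 := by rw [← bcn_val_zsmul, ht, bcn_val_zero]
    obtain ⟨m', hm', ht'⟩ := bcn_nat hm h1
    refine ⟨bcn_val z, bcn_val t, m', hm', ht', ?_⟩
    have h2 := congrArg bcn_val he
    rw [bcn_val_sub, bcn_val_add, bcn_val_zsmul, zpow_natCast, bcn_val_mk, bcn_val_mk] at h2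
    rw [div_eq_iff_eq_mul'] at h2
    show y0 = _
    exact h2.trans (mul_assoc _ _ _).symm

end

end

end Pool.Agent.Lib.MP_1a91b9_nuY.BF
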