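import Pool.Agent.Lib.MP_1a91b9_nuY.BF.Defs
import Pool.Agent.Lib.MP_1a91b9_nuY.AN.Unf
import Pool.Agent.Lib.MP_1a91b9_nuX.DG.LSum
import Pool.Agent.Lib.MP_1a91b9_nuX.DG.Dec
import Pool.Agent.Lib.MP_1a91b9_nuX.DG.GalU

/-!
# The product of the L-functions of the characters

The values of the Hecke character `Ψ` at the places above `v`, and the product over the characters of
`Gal(F/K)` of the L-functions of the characters `χ η₀` of the residue classes.
-/

set_option autoImplicit false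
set_option linter.unusedSectionVars false

namespace Pool.Agent.Lib.MP_1a91b9_nuY.BF

variable [Pool.Agent.Lib.MP_1a91b9_nuT.CD]

open NumberField IsDedekindDomain WeierstrassCurve Pool.Agent.Lib.MP_1a91b9_nuT
open Pool.Agent.Lib.MP_1a91b9_nuX Pool.Agent.Lib.MP_1a91b9_nuX.DB Pool.Agent.Lib.MP_1a91b9_nuX.DG
open Pool.Agent.Lib.MP_1a91b9_nuX.DX (rs toF rs_apply rs_mul rs_toF toF_apply ga_toF exists_lift exists_of_rs_one)
open Pool.Agent.Lib.MP_1a91b9_nuY.TS
open Pool.Agent.Lib.MP_1a91b9_nuY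

noncomputable section

/-- powers of a Frobenius element -/
private theorem lfac_pow {L : Type} [Field L] [NumberField L] [Algebra K L]
    (W : HeightOneSpectrum (𝓞 L)) (σ : Gal(L/K)) (q : ℕ)
    (h : ∀ x : 𝓞 L, σ • x - x ^ q ∈ W.asIdeal) (j : ℕ) :
    ∀ x : 𝓞 L, (σ ^ j) • x - x ^ q ^ j ∈ W.asIdeal := by
  induction j with
  | zero =>
    intro x
    rw [pow_zero, pow_zero, pow_one, one_smul, sub_self]
    exact W.asIdeal.zero_mem
  | succ j ih =>
    intro x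
    rw [pow_succ', mul_smul]
    have h1 := h ((σ ^ j) • x)
    have h2 : ((σ ^ j) • x) ^ q - (x ^ q ^ j) ^ q ∈ W.asIdeal :=
      Ideal.mem_of_dvd _ (sub_dvd_pow_sub_pow _ _ q) (ih x)
    have h3 := W.asIdeal.add_mem h1 h2
    rw [sub_add_sub_cancel, ← pow_mul, ← pow_succ] at h3
    exact h3

/-- the values at a place above `v` -/
private theorem lfac_val {L : Type} [Field L] [NumberField L] [Algebra K L] [DecidableEq L]
    {v : HeightOneSpectrum (𝓞 K)} (W : HeightOneSpectrum (𝓞 L)) (hW : W.under (𝓞 K) = v) (a : 𝓞 K) :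
    (a ∈ v.asIdeal → W.valuation L (algebraMap K L (a : K)) < 1) ∧
    (a ∉ v.asIdeal → W.valuation L (algebraMap K L (a : K)) = 1) := by
  have h1 : W.valuation L (algebraMap K L (a : K)) < 1 ↔ a ∈ v.asIdeal := by
    have h2 : algebraMap K L (a : K) = algebraMap (𝓞 L) L (algebraMap (𝓞 K) (𝓞 L) a) := rfl
    rw [h2, W.valuation_lt_one_iff_mem, ← hW]
    exact Iff.rfl
  refine ⟨h1.2, fun h => ?_⟩
  exact le_antisymm (v_alg_le (W.valuation L) a) (not_lt.1 fun h2 => h (h1.1 h2))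

variable [HC]

section
variable {μ : 𝓞 K} {H : Subgroup (CU μ)} {G : Type} [Group G] (res : U H →* G) (χ : G →* ℂ)

private theorem lfac_of {I : Ideal (𝓞 K)} (hI : IsCoprime I (Ideal.span {μ})) {u : U H}
    (hu : μ ∣ ps I - rp u) : XI res χ I = χ (res u) := by
  have h : IsCoprime I (Ideal.span {μ}) ∧ ∃ u : U H, μ ∣ ps I - rp u := ⟨hI, u, hu⟩
  unfold XI
  rw [dif_pos h]
  have h1 : h.2.choose = u := by
    apply rp_inj
    have h2 := dvd_sub hu h.2.choose_spec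
    rwa [sub_sub_sub_cancel_left] at h2
  rw [h1]

private theorem lfac_not {I : Ideal (𝓞 K)} (hI : ¬ IsCoprime I (Ideal.span {μ})) :
    XI res χ I = 0 := by
  unfold XI
  rw [dif_neg (fun h => hI h.1)]

private theorem lfac_mul (hex : ∀ I : Ideal (𝓞 K), IsCoprime I (Ideal.span {μ}) →
    ∃ u : U H, μ ∣ ps I - rp u) (I J : Ideal (𝓞 K)) :
    XI res χ (I * J) = XI res χ I * XI res χ J := by
  by_cases hI : IsCoprime I (Ideal.span {μ})
  · by_cases hJ : IsCoprime J (Ideal.span {μ})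
    · obtain ⟨u, hu⟩ := hex I hI
      obtain ⟨w, hw⟩ := hex J hJ
      have h1 : μ ∣ ps (I * J) - rp (u * w) := by
        have e : ps (I * J) - rp (u * w) = (ps I - rp u) * ps J +
            rp u * (ps J - rp w) - (rp (u * w) - rp u * rp w) := by
          rw [AN.ps_mul]
          ring
        rw [e]
        exact dvd_sub (dvd_add (hu.mul_right _) (hw.mul_left _)) (rp_mul u w)
      rw [lfac_of res χ hI hu, lfac_of res χ hJ hw, lfac_of res χ (hI.mul_left hJ) h1, map_mul, map_mul]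
    · rw [lfac_not res χ hJ, mul_zero, lfac_not]
      exact fun h => hJ h.of_mul_left_right
  · rw [lfac_not res χ hI, zero_mul, lfac_not]
    exact fun h => hI h.of_mul_left_left

private theorem lfac_one : XI res χ 1 = 1 := by
  have h1 : μ ∣ ps 1 - rp (1 : U H) := by
    have h2 := rp_one (μ := μ) (H := H)
    rwa [← dvd_neg, neg_sub, ← AN.ps_one] at h2
  rw [lfac_of res χ isCoprime_one_left h1, map_one, map_one]

private theorem lfac_norm (hex : ∀ I : Ideal (𝓞 K), IsCoprime I (Ideal.span {μ}) →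
    ∃ u : U H, μ ∣ ps I - rp u) (h : ∀ g, ‖χ g‖ = 1) (I : Ideal (𝓞 K)) :
    ‖XI res χ I‖ ≤ 1 := by
  by_cases hI : IsCoprime I (Ideal.span {μ})
  · obtain ⟨u, hu⟩ := hex I hI
    rw [lfac_of res χ hI hu, h]
  · rw [lfac_not res χ hI, norm_zero]
    exact zero_le_one

end

omit [HC] in
private theorem lfac_cpow (q n : ℕ) (s : ℂ) : ((q ^ n : ℕ) : ℂ) ^ s = ((q : ℂ) ^ s) ^ n := by
  induction n with
  | zero => rw [pow_zero, pow_zero, Nat.cast_one, Complex.one_cpow]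
  | succ n ih => rw [pow_succ, Nat.cast_mul, Complex.natCast_mul_natCast_cpow, ih, pow_succ]

omit [HC] in
private theorem lfac_embpow (β : 𝓞 K) (n : ℕ) :
    (starRingEnd ℂ) (embK (((β ^ n : 𝓞 K)) : K)) = ((starRingEnd ℂ) (embK (β : K))) ^ n := by
  have e : (((β ^ n : 𝓞 K)) : K) = (β : K) ^ n := map_pow (algebraMap (𝓞 K) K) β n
  rw [e, map_pow, map_pow]

section
variable {μ : 𝓞 K} {H : Subgroup (CU μ)} {F G : Type} [Field F] [NumberField F] [Algebra K F]
  [Field G] [NumberField G] [Algebra K G] [Algebra F G] [IsScalarTower K F G] [DecidableEq G]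
  {k : Gal(G/F) → 𝓞 K} {J : Pt G} {f b : 𝓞 K} {Ψ : Ideal (𝓞 F) → 𝓞 K}

/-- the value of `Ψ` at a place above `v` -/
private theorem lfac_psi (hAB : AB H F G J) (hM : Md μ) (hfr : FrK F G k b Ψ)
    (hb : ∀ v : HeightOneSpectrum (𝓞 K), b ∈ v.asIdeal → μ ∈ v.asIdeal)
    {res : U H →* Gal(F/K)}
    (hres : ∀ (σ : Gal(G/K)) (u : U H), ga σ J = smU J u →
      ∀ x : F, algebraMap F G (res u x) = σ (algebraMap F G x))
    (v : HeightOneSpectrum (𝓞 K)) (hμ : μ ∉ v.asIdeal) {u : U H}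
    (hu : μ ∣ ps v.asIdeal - rp u) (P : HeightOneSpectrum (𝓞 F)) (hP : P.under (𝓞 K) = v) :
    ∃ σ : Gal(G/F), ga σ J = smU J (u ^ orderOf (res u)) ∧
      Ψ P.asIdeal = k σ * ps v.asIdeal ^ orderOf (res u) := by
  have hgal := hAB.gal
  have hgalF := hAB.galF
  have hgalT : IsGalois F G := IsGalois.tower_top_of_isGalois K F G
  have hbv : (bO : 𝓞 K) ∉ v.asIdeal := fun h => hμ (hM.bad v h)
  obtain ⟨W, hWP⟩ := CF.exists_over (N := G) P
  have hWv : W.under (𝓞 K) = v := by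
    rw [← hP, ← hWP]
    apply HeightOneSpectrum.ext
    show Ideal.under (𝓞 K) W.asIdeal = Ideal.under (𝓞 K) (Ideal.under (𝓞 F) W.asIdeal)
    exact (Ideal.under_under _).symm
  have hWμ := (lfac_val W hWv μ).2 hμ
  have hWb : W.valuation G (bD G) = 1 := by
    have h4 := (lfac_val W hWv bO).2 hbv
    rwa [bO_map] at h4
  have hWb' : W.valuation G (algebraMap K G (b : K)) = 1 :=
    (lfac_val W hWv b).2 fun h => hμ (hb v h)
  obtain ⟨σ₀, hσ⟩ := CF.exists_fr (k := K) W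
  have hσ' : ∀ x : 𝓞 G, σ₀ • x - x ^ Ideal.absNorm v.asIdeal ∈ W.asIdeal := by
    intro x
    have h5 := hσ x
    rwa [Pool.Agent.Lib.MP_1a91b9_nt.nrm_eq, hWv] at h5
  have hJ0 : sm G μ J = 0 := (hAB.ord μ).2 dvd_rfl
  have hfr0 : ga σ₀ J = smU J u := by
    have h6 := frob (k := K) W hWb σ₀ (by rw [hWv]; exact hσ') hWμ hJ0
    rw [hWv, AN.psi_self] at h6
    rw [h6]
    exact smU_of hAB.ord hu
  have hτ := hres σ₀ u hfr0
  have hτj : ∀ (j : ℕ) (x : F), algebraMap F G ((res u ^ j) x) = (σ₀ ^ j) (algebraMap F G x) := by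
    intro j
    induction j with
    | zero => intro x; rfl
    | succ j ih =>
      intro x
      rw [pow_succ', pow_succ']
      change algebraMap F G (res u ((res u ^ j) x)) = σ₀ ((σ₀ ^ j) (algebraMap F G x))
      rw [hτ, ih]
  have hgaj : ∀ j : ℕ, ga (σ₀ ^ j) J = smU J (u ^ j) := by
    intro j
    induction j with
    | zero => rw [pow_zero, pow_zero, ga_one, smU_one hAB.ord]
    | succ j ih =>
      rw [pow_succ', ga_mul, ih, pow_succ, ← smU_mul hAB.ord, ← hfr0]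
      unfold smU
      rw [ga_sm]
  have hσj := lfac_pow W σ₀ _ hσ'
  have hfix : ∀ x : F, (σ₀ ^ orderOf (res u)).toRingEquiv (algebraMap F G x) =
      algebraMap F G x := by
    intro x
    have h1 := hτj (orderOf (res u)) x
    rw [pow_orderOf_eq_one] at h1
    exact h1.symm
  obtain ⟨σ, hσ1⟩ : ∃ σ : Gal(G/F), toF K σ = σ₀ ^ orderOf (res u) :=
    ⟨AlgEquiv.ofRingEquiv (f := (σ₀ ^ orderOf (res u)).toRingEquiv) hfix,
      AlgEquiv.ext fun _ => rfl⟩
  have hdec := (hAB.dec hM hres v hμ hu).1 ⟨P, by rw [← hP]; rfl⟩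
  refine ⟨σ, ?_, ?_⟩
  · rw [← hgaj, ← hσ1]
    rfl
  · have h1 := hfr W hWb' σ (fun x => by
      rw [hWP, hdec.2]
      have h2 := hσj (orderOf (res u)) x
      rw [← hσ1] at h2
      exact h2)
    rw [hWP] at h1
    rw [h1, hdec.1]

/-- the Euler factors -/
private theorem lfac_prod (hAB : AB H F G J) (hM : Md μ) (hΨ : HF f F Ψ) (hfr : FrK F G k b Ψ)
    (hb : ∀ v : HeightOneSpectrum (𝓞 K), b ∈ v.asIdeal → μ ∈ v.asIdeal)
    {res : U H →* Gal(F/K)}
    (hres : ∀ (σ : Gal(G/K)) (u : U H), ga σ J = smU J u →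
      ∀ x : F, algebraMap F G (res u x) = σ (algebraMap F G x))
    {η₀ : U H →* ℂ}
    (hη : ∀ (σ : Gal(G/F)) (c : U H), ga σ J = smU J c → η₀ c = embK (cj (k σ) : K))
    {ι : Type} [Fintype ι] {χ : ι → (Gal(F/K) →* ℂ)} {ω : ι → (U H →* ℂ)}
    (hω : ∀ i u, ω i u = χ i (res u) * η₀ u) (hω1 : ∀ i u, ‖ω i u‖ = 1)
    (hχ : ∀ (g : Gal(F/K)) (y : ℂ), ∏ i, (1 - χ i g * y) =
      (1 - y ^ orderOf g) ^ (Fintype.card Gal(F/K) / orderOf g))
    (B : Finset (HeightOneSpectrum (𝓞 F)))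
    (hB : ∀ v, v ∈ B ↔ algebraMap (𝓞 K) (𝓞 F) μ ∈ v.asIdeal) {s : ℂ} (hs : 2 < s.re) :
    ∏ i, S4.Lf (fun I : Ideal (𝓞 K) => psbC K I * XI (MonoidHom.id (U H)) (ω i) I) s =
      S4.Lf (pB Ψ) s *
        ∏ v ∈ B, (1 - pB Ψ v.asIdeal * (Ideal.absNorm v.asIdeal : ℂ) ^ (-s)) := by
  classical
  have hex : ∀ I : Ideal (𝓞 K), IsCoprime I (Ideal.span {μ}) → ∃ u : U H, μ ∣ ps I - rp u :=
    fun I hI => hAB.ps_mem hM hI
  obtain ⟨m, hm⟩ : ∃ m : Ideal (𝓞 F), m = Ideal.span {algebraMap (𝓞 K) (𝓞 F) μ} := ⟨_, rfl⟩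
  have hBm : ∀ w, w ∈ B ↔ m ≤ w.asIdeal := by
    intro w
    rw [hB, hm, Ideal.span_singleton_le_iff_mem]
  rw [← Lf_indC hΨ m B hBm s hs]
  -- the two Euler products
  have hmulf : ∀ (i : ι) (I J : Ideal (𝓞 K)),
      psbC K (I * J) * XI (MonoidHom.id (U H)) (ω i) (I * J) =
        (psbC K I * XI (MonoidHom.id (U H)) (ω i) I) *
          (psbC K J * XI (MonoidHom.id (U H)) (ω i) J) := by
    intro i I J
    rw [lfac_mul (MonoidHom.id (U H)) (ω i) hex, AN.psbC_mul]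
    ring
  have honef : ∀ i : ι, psbC K 1 * XI (MonoidHom.id (U H)) (ω i) 1 = 1 := by
    intro i
    rw [AN.psbC_one, lfac_one, one_mul]
  have hnormf : ∀ (i : ι) (I : Ideal (𝓞 K)),
      ‖psbC K I * XI (MonoidHom.id (U H)) (ω i) I‖ ≤ (Ideal.absNorm I : ℝ) ^ (1 / 2 : ℝ) := by
    intro i I
    exact AN.norm_psbC_mul_le _ I (lfac_norm (MonoidHom.id (U H)) (ω i) hex (hω1 i) I)
  have h1 : HasProd (fun w : HeightOneSpectrum (𝓞 K) => ∏ i : ι,
      (1 - psbC K w.asIdeal * XI (MonoidHom.id (U H)) (ω i) w.asIdeal *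
        (Ideal.absNorm w.asIdeal : ℂ) ^ (-s))⁻¹)
      (∏ i : ι, S4.Lf (fun I : Ideal (𝓞 K) => psbC K I * XI (MonoidHom.id (U H)) (ω i) I) s) :=
    hasProd_prod fun i _ => (S4.hasProd_Lf (fun I : Ideal (𝓞 K) =>
      psbC K I * XI (MonoidHom.id (U H)) (ω i) I) (honef i) (hmulf i) (1 / 2)
      (by norm_num) (hnormf i) s (by linarith)).2
  have h2 := (S4.hasProd_Lf (F := F) (fun I => pB Ψ I * S4.indC m I)
    (by rw [pB_one hΨ, S4.indC_one, mul_one])
    (fun I J => by rw [pB_mul hΨ, S4.indC_mul]; ring) (1 / 2) (by norm_num)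
    (fun I => norm_pB_mul_le hΨ _ I (S4.norm_indC_le m I)) s (by linarith)).2
  have h3 := S4.hasProd_over (F := K) (F' := F) _ _ h2
  refine h1.unique ?_
  have hfun : (fun w : HeightOneSpectrum (𝓞 K) => ∏ i : ι,
      (1 - psbC K w.asIdeal * XI (MonoidHom.id (U H)) (ω i) w.asIdeal *
        (Ideal.absNorm w.asIdeal : ℂ) ^ (-s))⁻¹) =
      (fun v : HeightOneSpectrum (𝓞 K) => ∏ w : S4.Over F v,
        (1 - (fun I => pB Ψ I * S4.indC m I) w.1.asIdeal *
          (Ideal.absNorm w.1.asIdeal : ℂ) ^ (-s))⁻¹) := by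
    funext v
    have hmem : ∀ P : S4.Over F v, (m ≤ P.1.asIdeal ↔ μ ∈ v.asIdeal) := by
      intro P
      have e : μ ∈ v.asIdeal ↔ μ ∈ P.1.asIdeal.under (𝓞 K) := by rw [P.2]
      rw [hm, Ideal.span_singleton_le_iff_mem, e]
      exact Iff.rfl
    by_cases hv : μ ∈ v.asIdeal
    · have h4 : ¬ IsCoprime v.asIdeal (Ideal.span {μ}) := by
        rw [← S4.le_iff_not_coprime, Ideal.span_singleton_le_iff_mem]
        exact hv
      have e1 : ∀ i : ι, (1 - psbC K v.asIdeal *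
          XI (MonoidHom.id (U H)) (ω i) v.asIdeal *
            (Ideal.absNorm v.asIdeal : ℂ) ^ (-s))⁻¹ = 1 := by
        intro i
        rw [lfac_not (MonoidHom.id (U H)) (ω i) h4, mul_zero, zero_mul, sub_zero, inv_one]
      have e2 : ∀ P : S4.Over F v, (1 - (fun I => pB Ψ I * S4.indC m I) P.1.asIdeal *
          (Ideal.absNorm P.1.asIdeal : ℂ) ^ (-s))⁻¹ = 1 := by
        intro P
        have h5 := (S4.le_iff_not_coprime m P.1).1 ((hmem P).2 hv)
        show (1 - pB Ψ P.1.asIdeal * S4.indC m P.1.asIdeal *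
          (Ideal.absNorm P.1.asIdeal : ℂ) ^ (-s))⁻¹ = 1
        rw [S4.indC_of_not h5, mul_zero, zero_mul, sub_zero, inv_one]
      rw [Finset.prod_congr rfl fun i _ => e1 i, Finset.prod_congr rfl fun P _ => e2 P,
        Finset.prod_const_one, Finset.prod_const_one]
    · have h4 : IsCoprime v.asIdeal (Ideal.span {μ}) := by
        by_contra h5
        rw [← S4.le_iff_not_coprime, Ideal.span_singleton_le_iff_mem] at h5
        exact hv h5
      obtain ⟨u, hu⟩ := hex v.asIdeal h4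
      obtain ⟨hd1, hd2⟩ := hAB.dec hM hres v hv hu
      obtain ⟨y, hy⟩ : ∃ y : ℂ, y = η₀ u * ((starRingEnd ℂ) (embK (ps v.asIdeal : K)) *
          (Ideal.absNorm v.asIdeal : ℂ) ^ (-s)) := ⟨_, rfl⟩
      have e1 : ∀ i : ι, (1 - psbC K v.asIdeal *
          XI (MonoidHom.id (U H)) (ω i) v.asIdeal * (Ideal.absNorm v.asIdeal : ℂ) ^ (-s))⁻¹ =
          (1 - χ i (res u) * y)⁻¹ := by
        intro i
        rw [lfac_of (MonoidHom.id (U H)) (ω i) h4 hu, MonoidHom.id_apply, hω, hy, psbC_self]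
        congr 2
        ring
      have e2 : ∀ P : S4.Over F v, (1 - (fun I => pB Ψ I * S4.indC m I) P.1.asIdeal *
          (Ideal.absNorm P.1.asIdeal : ℂ) ^ (-s))⁻¹ = (1 - y ^ orderOf (res u))⁻¹ := by
        intro P
        have h5 : IsCoprime P.1.asIdeal m := by
          by_contra h6
          exact hv ((hmem P).1 ((S4.le_iff_not_coprime m P.1).2 h6))
        have hunder : P.1.under (𝓞 K) = v := by
          apply HeightOneSpectrum.ext
          exact P.2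
        obtain ⟨σ, hσ1, hσ2⟩ := lfac_psi hAB hM hfr hb hres v hv hu P.1 hunder
        have h6 : η₀ u ^ orderOf (res u) = (starRingEnd ℂ) (embK (k σ : K)) := by
          rw [← map_pow, hη σ _ hσ1, emb_cj]
        have h7 : pB Ψ P.1.asIdeal = η₀ u ^ orderOf (res u) *
            ((starRingEnd ℂ) (embK (ps v.asIdeal : K))) ^ orderOf (res u) := by
          have e : (((k σ * ps v.asIdeal ^ orderOf (res u) : 𝓞 K)) : K) =
              (k σ : K) * ((ps v.asIdeal ^ orderOf (res u) : 𝓞 K) : K) :=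
            map_mul (algebraMap (𝓞 K) K) _ _
          rw [pB, pC, hσ2, e, map_mul, map_mul, lfac_embpow, h6]
        show (1 - pB Ψ P.1.asIdeal * S4.indC m P.1.asIdeal *
          (Ideal.absNorm P.1.asIdeal : ℂ) ^ (-s))⁻¹ = (1 - y ^ orderOf (res u))⁻¹
        rw [S4.indC_of h5, mul_one, h7, (hd1 P).2, lfac_cpow, ← mul_pow, ← mul_pow, hy,
          mul_assoc]
      have hpos : 0 < orderOf (res u) := orderOf_pos _
      have hcard : Fintype.card (S4.Over F v) = Fintype.card Gal(F/K) / orderOf (res u) := by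
        rw [← hd2, Nat.mul_div_cancel _ hpos]
      rw [Finset.prod_congr rfl fun i _ => e1 i, Finset.prod_congr rfl fun P _ => e2 P,
        Finset.prod_inv_distrib, hχ, Finset.prod_const, Finset.card_univ, hcard, inv_pow]
  rw [hfun]
  exact h3

end

section
variable {μ : 𝓞 K} {H : Subgroup (CU μ)} {F G : Type} [Field F] [NumberField F] [Algebra K F]
  [Field G] [NumberField G] [Algebra K G] [Algebra F G] [IsScalarTower K F G] [DecidableEq G]
  {k : Gal(G/F) → 𝓞 K} {J : Pt G} {f b : 𝓞 K} {Ψ : Ideal (𝓞 F) → 𝓞 K}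

theorem prod_val (hAB : AB H F G J) (hM : Md μ) (hΨ : HF f F Ψ) (hfr : FrK F G k b Ψ)
    (hb : ∀ v : HeightOneSpectrum (𝓞 K), b ∈ v.asIdeal → μ ∈ v.asIdeal)
    [Fintype (U H)] {res : U H →* Gal(F/K)}
    (hres : ∀ (σ : Gal(G/K)) (u : U H), ga σ J = smU J u →
      ∀ x : F, algebraMap F G (res u x) = σ (algebraMap F G x))
    {η₀ : U H →* ℂ} (hη1 : ∀ u, ‖η₀ u‖ = 1)
    (hη : ∀ (σ : Gal(G/F)) (c : U H), ga σ J = smU J c → η₀ c = embK (cj (k σ) : K))
    {ι : Type} [Fintype ι] {χ : ι → (Gal(F/K) →* ℂ)} (hχ1 : ∀ i g, ‖χ i g‖ = 1)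
    (hχ : ∀ (g : Gal(F/K)) (y : ℂ), ∏ i, (1 - χ i g * y) =
      (1 - y ^ orderOf g) ^ (Fintype.card Gal(F/K) / orderOf g))
    {A : U H → ℂ → ℂ} (hA : ∀ u, Differentiable ℂ (A u))
    (hA1 : ∀ u (s : ℂ), 2 < s.re → A u s = ZS μ (rp u) s)
    {L : ℂ → ℂ} (hL : Differentiable ℂ L) (hL1 : ∀ s : ℂ, 2 < s.re → L s = S4.Lf (pB Ψ) s)
    (B : Finset (HeightOneSpectrum (𝓞 F)))
    (hB : ∀ v, v ∈ B ↔ algebraMap (𝓞 K) (𝓞 F) μ ∈ v.asIdeal) :
    ∏ i, ∑ u : U H, χ i (res u) * η₀ u * A u 1 =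
      L 1 * ∏ v ∈ B, (1 - pB Ψ v.asIdeal * (Ideal.absNorm v.asIdeal : ℂ) ^ (-1 : ℂ)) := by
  obtain ⟨ω, hω⟩ : ∃ ω : ι → (U H →* ℂ), ∀ i u, ω i u = χ i (res u) * η₀ u :=
    ⟨fun i => ((χ i).comp res) * η₀, fun _ _ => rfl⟩
  have hω1 : ∀ i u, ‖ω i u‖ = 1 := by
    intro i u
    rw [hω, norm_mul, hχ1, hη1, one_mul]
  have key : (fun s : ℂ => ∏ i, ∑ u : U H, ω i u * A u s) =
      fun s : ℂ => L s * ∏ v ∈ B,
        (1 - pB Ψ v.asIdeal * (Ideal.absNorm v.asIdeal : ℂ) ^ (-s)) := by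
    refine S4.entire_eq ?_ ?_ fun s hs => ?_
    · refine Differentiable.fun_finsetProd fun i _ => ?_
      refine Differentiable.fun_sum fun u _ => ?_
      exact (hA u).const_mul _
    · exact hL.mul (S4.differentiable_euler B _)
    · show ∏ i, ∑ u : U H, ω i u * A u s = L s * ∏ v ∈ B,
        (1 - pB Ψ v.asIdeal * (Ideal.absNorm v.asIdeal : ℂ) ^ (-s))
      rw [hL1 s hs, ← lfac_prod hAB hM hΨ hfr hb hres hη hω hω1 hχ B hB hs]
      refine Finset.prod_congr rfl fun i _ => ?_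
      rw [hAB.Lf_sum hM (MonoidHom.id (U H)) (ω i) (hω1 i) hs]
      exact Finset.sum_congr rfl fun u _ => by rw [hA1 u s hs, MonoidHom.id_apply]
  have h2 := congrFun key 1
  beta_reduce at h2
  rw [← h2]
  refine Finset.prod_congr rfl fun i _ => ?_
  exact Finset.sum_congr rfl fun u _ => by rw [hω]

end

end

end Pool.Agent.Lib.MP_1a91b9_nuY.BF
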