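import Pool.Agent.Lib.MP_1a91b9_nuY.BF.Defs
import Pool.Agent.Lib.MP_1a91b9_nuX.DG.TrV

/-!
# The values `lamQ` and the Eisenstein numbers

The pointwise form of `AB.trace_val`: `Om * φ (lamQ (smU J u))` in terms of the Eisenstein numbers.
-/

set_option autoImplicit false
set_option linter.unusedSectionVars false

namespace Pool.Agent.Lib.MP_1a91b9_nuY.BF

variable [Pool.Agent.Lib.MP_1a91b9_nuT.CD]

open NumberField IsDedekindDomain WeierstrassCurve Pool.Agent.Lib.MP_1a91b9_nuT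
open Pool.Agent.Lib.MP_1a91b9_nuX Pool.Agent.Lib.MP_1a91b9_nuX.DB Pool.Agent.Lib.MP_1a91b9_nuX.DG
open Pool.Agent.Lib.MP_1a91b9_nuX.DX (rs toF rs_apply rs_mul rs_toF toF_apply ga_toF exists_lift exists_of_rs_one)
open Pool.Agent.Lib.MP_1a91b9_nuY.TS

noncomputable section

private theorem lam_congr {ν a b : 𝓞 K} (hν : ν ≠ 0) (h : ν ∣ a - b) :
    E1 (embK (a : K) / embK (ν : K)) = E1 (embK (b : K) / embK (ν : K)) := by
  obtain ⟨e, he⟩ := h
  have h1 : (a : K) = (b : K) + (ν : K) * (e : K) := by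
    have h0 := congrArg (algebraMap (𝓞 K) K) he
    rw [map_sub, map_mul] at h0
    have h3 : (a : K) - (b : K) = (ν : K) * (e : K) := h0
    linear_combination h3
  have h2 : embK (a : K) / embK (ν : K) = embK (b : K) / embK (ν : K) + embK (e : K) := by
    rw [h1, map_add, map_mul, add_div, mul_div_cancel_left₀ _ (Mult.embK_ne_zero hν)]
  rw [h2, E1_period]

private theorem lam_unit {ν : 𝓞 K} (η : (𝓞 K)ˣ) (a : 𝓞 K) :
    embK ((η : 𝓞 K) : K) * E1 (embK (((η : 𝓞 K) * a : 𝓞 K) : K) / embK (ν : K)) =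
      E1 (embK (a : K) / embK (ν : K)) := by
  rw [emb_mul, mul_div_assoc, E1_unit]

variable [FP] [HC]

section
variable {μ : 𝓞 K} {H : Subgroup (CU μ)} {F G : Type} [Field F] [NumberField F] [Algebra K F]
  [Field G] [NumberField G] [Algebra K G] [Algebra F G] [IsScalarTower K F G] [DecidableEq G]
  {J : Pt G}

theorem lam_pt (hAB : AB H F G J) (hM : Md μ) (hpk : IsCoprime pk μ) (φ : G →ₐ[K] ℂ) :
    ∃ (κ c : ℂ) (u0 u1 : U H), κ ≠ 0 ∧
      ‖c‖ < ‖(Ideal.absNorm (Ideal.span {(pk : 𝓞 K)}) : ℂ)‖ ∧ ∀ u : U H,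
      Om * φ (lamQ (smU J u)) =
        κ * (c * ((embK (μ : K))⁻¹ *
            E1 (embK ((rp (u * u0 * u1) : 𝓞 K) : K) / embK (μ : K))) -
          (Ideal.absNorm (Ideal.span {(pk : 𝓞 K)}) : ℂ) * ((embK (μ : K))⁻¹ *
            E1 (embK ((rp (u * u0) : 𝓞 K) : K) / embK (μ : K)))) := by
  have hl : ¬ μ ∣ pk := fun h => hM.not_unit (hpk.symm.isUnit_of_dvd' dvd_rfl h)
  obtain ⟨y0, hy0, hval⟩ := lam_val hM.ne hl hM.two φ hAB.ord
  obtain ⟨η, u0, hη⟩ := hAB.unit_mul hM hy0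
  obtain ⟨η1, u1, hη1⟩ := hAB.unit_mul hM hpk
  have hη0 : embK ((η : 𝓞 K) : K) ≠ 0 := Mult.embK_ne_zero η.ne_zero
  have hη10 : embK ((η1 : 𝓞 K) : K) ≠ 0 := Mult.embK_ne_zero η1.ne_zero
  have hμ0 : embK (μ : K) ≠ 0 := Mult.embK_ne_zero hM.ne
  have hN1 : (1 : ℝ) < (Ideal.absNorm (Ideal.span {(pk : 𝓞 K)}) : ℝ) := by
    have h1 : Ideal.absNorm (Ideal.span {(pk : 𝓞 K)}) ≠ 0 := by
      rw [Ne, Ideal.absNorm_eq_zero_iff, Ideal.span_singleton_eq_bot]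
      exact pk_ne
    have h2 : Ideal.absNorm (Ideal.span {(pk : 𝓞 K)}) ≠ 1 := by
      rw [Ne, Ideal.absNorm_eq_one_iff, Ideal.span_singleton_eq_top]
      exact pk_nu
    have h3 : 1 < Ideal.absNorm (Ideal.span {(pk : 𝓞 K)}) := by omega
    exact_mod_cast h3
  refine ⟨2 * embK (μ : K) * (embK ((η : 𝓞 K) : K))⁻¹,
    embK ((pk : 𝓞 K) : K) * (embK ((η1 : 𝓞 K) : K))⁻¹, u0, u1, ?_, ?_, fun u => ?_⟩
  · exact mul_ne_zero (mul_ne_zero two_ne_zero hμ0) (inv_ne_zero hη0)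
  · rw [norm_mul, norm_inv, norm_emb_unit, inv_one, mul_one, Complex.norm_natCast]
    have h1 := norm_emb_sq (pk : 𝓞 K)
    have h2 : 0 ≤ ‖embK ((pk : 𝓞 K) : K)‖ := norm_nonneg _
    nlinarith
  · have e2 := hval (rp u) (rp_cop u)
    have e3 : μ ∣ rp u * y0 - (η : 𝓞 K) * rp (u * u0) := by
      have e4 : rp u * y0 - (η : 𝓞 K) * rp (u * u0) =
          rp u * (y0 - η * rp u0) - η * (rp (u * u0) - rp u * rp u0) := by ring
      rw [e4]
      exact dvd_sub (Dvd.dvd.mul_left hη _) (Dvd.dvd.mul_left (rp_mul u u0) _)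
    have e4 : μ ∣ pk * (rp u * y0) - (((η1 * η : (𝓞 K)ˣ)) : 𝓞 K) * rp (u * u0 * u1) := by
      have e5 : pk * (rp u * y0) - (((η1 * η : (𝓞 K)ˣ)) : 𝓞 K) * rp (u * u0 * u1) =
          pk * (rp u * y0 - η * rp (u * u0)) + (pk - η1 * rp u1) * (η * rp (u * u0)) -
            (η1 * η : 𝓞 K) * (rp (u * u0 * u1) - rp (u * u0) * rp u1) := by
        rw [Units.val_mul]
        ring
      rw [e5]
      exact dvd_sub (dvd_add (Dvd.dvd.mul_left e3 _) (Dvd.dvd.mul_right hη1 _))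
        (Dvd.dvd.mul_left (rp_mul (u * u0) u1) _)
    have e5 : E1 (embK ((rp u * y0 : 𝓞 K) : K) / embK (μ : K)) =
        (embK ((η : 𝓞 K) : K))⁻¹ * E1 (embK ((rp (u * u0) : 𝓞 K) : K) / embK (μ : K)) := by
      rw [lam_congr hM.ne e3, ← lam_unit η (rp (u * u0)), inv_mul_cancel_left₀ hη0]
    have e6 : E1 (embK ((pk * (rp u * y0) : 𝓞 K) : K) / embK (μ : K)) =
        (embK ((η1 : 𝓞 K) : K))⁻¹ * (embK ((η : 𝓞 K) : K))⁻¹ *
          E1 (embK ((rp (u * u0 * u1) : 𝓞 K) : K) / embK (μ : K)) := by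
      have e7 : embK ((((η1 * η : (𝓞 K)ˣ)) : 𝓞 K) : K) =
          embK ((η1 : 𝓞 K) : K) * embK ((η : 𝓞 K) : K) := by
        rw [Units.val_mul, emb_mul]
      rw [lam_congr hM.ne e4, ← lam_unit (η1 * η) (rp (u * u0 * u1)), e7]
      field_simp
    show Om * φ (lamQ (sm G (rp u) J)) = _
    rw [e2, e5, e6]
    field_simp

end

end

end Pool.Agent.Lib.MP_1a91b9_nuY.BF
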