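import Pool.Agent.Lib.MP_1a91b9_nuY.BF.Ext
import Pool.Agent.Lib.MP_1a91b9_nuY.BF.LFac
import Pool.Agent.Lib.MP_1a91b9_nuY.BF.Lam
import Pool.Agent.Lib.MP_1a91b9_nuX.DG.DNe

/-!
# The determinant is not zero

The determinant of the twisted traces `dX` is not zero: it is the product over the characters of `Gal(F/K)` of the sums of
the values `lamQ` against the characters of the residue classes, up to nonzero factors, and these are values of L-functions.
-/

set_option autoImplicit false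
set_option linter.unusedSectionVars false

namespace Pool.Agent.Lib.MP_1a91b9_nuY.BF

variable [Pool.Agent.Lib.MP_1a91b9_nuT.CD]

open NumberField IsDedekindDomain WeierstrassCurve Pool.Agent.Lib.MP_1a91b9_nuT
open Pool.Agent.Lib.MP_1a91b9_nuX Pool.Agent.Lib.MP_1a91b9_nuX.DB Pool.Agent.Lib.MP_1a91b9_nuX.DG
open Pool.Agent.Lib.MP_1a91b9_nuX.DX (rs toF rs_apply rs_mul rs_toF toF_apply ga_toF exists_lift exists_of_rs_one)
open Pool.Agent.Lib.MP_1a91b9_nuY.TS
open Pool.Agent.Lib.MP_1a91b9_nuY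

noncomputable section

variable [HC]

section
variable {F : Type*} [Field F] [NumberField F] [Algebra K F] {f : 𝓞 K} {Ψ : Ideal (𝓞 F) → 𝓞 K}

theorem euler_neY (hΨ : HF f F Ψ) (v : HeightOneSpectrum (𝓞 F)) :
    1 - pB Ψ v.asIdeal * (Ideal.absNorm v.asIdeal : ℂ) ^ (-(1 : ℂ)) ≠ 0 := by
  intro h
  have h1 : pB Ψ v.asIdeal * (Ideal.absNorm v.asIdeal : ℂ) ^ (-(1 : ℂ)) = 1 :=
    (sub_eq_zero.1 h).symm
  have hn : 1 < Ideal.absNorm v.asIdeal := by
    have h2 : Ideal.absNorm v.asIdeal ≠ 0 :=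
      Ideal.absNorm_ne_zero_iff_mem_nonZeroDivisors.mpr
        (mem_nonZeroDivisors_iff_ne_zero.mpr v.ne_bot)
    have h3 : Ideal.absNorm v.asIdeal ≠ 1 := fun h3 =>
      v.isPrime.ne_top (Ideal.absNorm_eq_one_iff.mp h3)
    omega
  have hn' : (1 : ℝ) < (Ideal.absNorm v.asIdeal : ℝ) := by exact_mod_cast hn
  have h2 := norm_pB_le hΨ v.asIdeal
  have h3 : ‖pB Ψ v.asIdeal‖ * ((Ideal.absNorm v.asIdeal : ℝ))⁻¹ = 1 := by
    have h4 := congrArg norm h1
    rw [norm_mul, norm_one, Complex.cpow_neg_one, norm_inv, Complex.norm_natCast] at h4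
    exact h4
  have h4 : (Ideal.absNorm v.asIdeal : ℝ) ^ (1 / 2 : ℝ) < (Ideal.absNorm v.asIdeal : ℝ) := by
    calc (Ideal.absNorm v.asIdeal : ℝ) ^ (1 / 2 : ℝ) < (Ideal.absNorm v.asIdeal : ℝ) ^ (1 : ℝ) :=
          Real.rpow_lt_rpow_of_exponent_lt hn' (by norm_num)
      _ = _ := Real.rpow_one _
  have h5 : ‖pB Ψ v.asIdeal‖ = (Ideal.absNorm v.asIdeal : ℝ) := by
    have h6 : (Ideal.absNorm v.asIdeal : ℝ) ≠ 0 := by positivity
    field_simp at h3
    exact h3
  rw [h5] at h2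
  exact absurd h2 (not_le.mpr h4)

end

private theorem dne_finU {μ : 𝓞 K} (h : μ ≠ 0) (H : Subgroup (CU μ)) : Finite (U H) := by
  have h1 : Finite (𝓞 K ⧸ Ideal.span {μ}) := by
    refine Ideal.finiteQuotientOfFreeOfNeBot _ ?_
    rw [Ne, Ideal.span_singleton_eq_bot]
    exact h
  infer_instance

omit [Pool.Agent.Lib.MP_1a91b9_nuT.CD] [HC] in
/-- the sum of a function translated by `t` against a character -/
private theorem dne_sum {X : Type} [Group X] [Fintype X] (χ : X →* ℂ) (y : X → ℂ) (t : X) :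
    ∑ g : X, χ g * y (g * t) = χ t⁻¹ * ∑ g : X, χ g * y g := by
  rw [Finset.mul_sum]
  refine Fintype.sum_equiv (Equiv.mulRight t) _ _ fun g => ?_
  show χ g * y (g * t) = χ t⁻¹ * (χ (g * t) * y (g * t))
  have h1 : χ (g * t) * χ t⁻¹ = χ g := by rw [← map_mul, mul_inv_cancel_right]
  rw [← mul_assoc, mul_comm (χ t⁻¹), h1]

omit [Pool.Agent.Lib.MP_1a91b9_nuT.CD] [HC] in
private theorem dne_nz {X : Type} [Group X] [Fintype X] (ω : X →* ℂ) (hω : ∀ u, ‖ω u‖ = 1)
    {e lam : X → ℂ} {O κ c N : ℂ} {u0 u1 : X} (hκ : κ ≠ 0) (hcN : ‖c‖ < ‖N‖)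
    (h : ∀ u, O * lam u = κ * (c * e (u * u0 * u1) - N * e (u * u0)))
    (hne : ∑ u, ω u * e u ≠ 0) : ∑ u, ω u * lam u ≠ 0 := by
  intro h0
  have e1 : O * ∑ u, ω u * lam u =
      κ * (c * ω (u0 * u1)⁻¹ - N * ω u0⁻¹) * ∑ u, ω u * e u := by
    have e2 : ∀ u : X, O * (ω u * lam u) =
        κ * c * (ω u * e (u * (u0 * u1))) - κ * N * (ω u * e (u * u0)) := by
      intro u
      rw [show O * (ω u * lam u) = ω u * (O * lam u) by ring, h, mul_assoc u u0 u1]
      ring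
    rw [Finset.mul_sum, Finset.sum_congr rfl fun u _ => e2 u, Finset.sum_sub_distrib, ← Finset.mul_sum,
      ← Finset.mul_sum, dne_sum, dne_sum]
    ring
  rw [h0, mul_zero] at e1
  refine (mul_ne_zero (mul_ne_zero hκ fun h2 => ?_) hne) e1.symm
  have h3 : c * ω (u0 * u1)⁻¹ = N * ω u0⁻¹ := sub_eq_zero.1 h2
  have h4 := congrArg norm h3
  rw [norm_mul, norm_mul, hω, hω, mul_one, mul_one] at h4
  exact hcN.ne h4

omit [Pool.Agent.Lib.MP_1a91b9_nuT.CD] [HC] in
private theorem dne_det {X : Type} [Group X] [Fintype X] [DecidableEq X] (m : X → X → ℂ)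
    (x w : X → ℂ) (h : ∀ s t, w s * w t * m s t = x (s * t))
    (h0 : Matrix.det (Matrix.of fun s t : X => m s t) = 0) :
    Matrix.det (Matrix.of fun s t : X => x (s * t)) = 0 := by
  have e : (Matrix.of fun s t : X => x (s * t)) =
      Matrix.of fun s t => w s * (Matrix.of fun s t : X => w t * (Matrix.of fun s t : X => m s t) s t) s t := by
    ext s t
    show x (s * t) = w s * (w t * m s t)
    rw [← h]
    ring
  rw [e, Matrix.det_mul_column, Matrix.det_mul_row, h0, mul_zero, mul_zero]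

section
variable {μ : 𝓞 K} {H : Subgroup (CU μ)} {F G : Type} [Field F] [NumberField F] [Algebra K F]
  [Field G] [NumberField G] [Algebra K G] [Algebra F G] [IsScalarTower K F G] [DecidableEq G]
  {k : Gal(G/F) → 𝓞 K} {J : Pt G}

private theorem dne_fix {σ : Gal(G/K)} (h : ∀ x : F, σ (algebraMap F G x) = algebraMap F G x) :
    ∃ β : Gal(G/F), (AlgEquiv.restrictScalars K β : Gal(G/K)) = σ :=
  ⟨AlgEquiv.ofRingEquiv (f := σ.toRingEquiv) h, AlgEquiv.ext fun _ => rfl⟩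

private theorem dne_inj (hAB : AB H F G J) {σ τ : Gal(G/K)} (h : ga σ J = ga τ J) : σ = τ := by
  have h1 : ga (τ⁻¹ * σ) J = J := by rw [ga_mul, h, ← ga_mul, inv_mul_cancel, ga_one]
  exact (inv_mul_eq_one.1 (hAB.gen _ h1)).symm

private theorem dne_mul (hAB : AB H F G J) {σ τ : Gal(G/K)} {u v : U H} (h1 : ga σ J = smU J u)
    (h2 : ga τ J = smU J v) : ga (σ * τ) J = smU J (u * v) := by
  rw [ga_mul, h2, mul_comm u v, ← smU_mul hAB.ord, ← h1]
  unfold smU
  rw [ga_sm]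

end

private theorem dne_res {F G : Type} [Field F] [NumberField F] [Algebra K F]
    [Field G] [NumberField G] [Algebra K G] [Algebra F G] [IsScalarTower K F G] [DecidableEq G]
    (β : Gal(G/F)) (Q : Pt G) : ga (AlgEquiv.restrictScalars K β : Gal(G/K)) Q = ga β Q := by
  rcases cases_pt Q with rfl | ⟨x, y, h, rfl⟩
  · rw [map_zero, map_zero]
  · rfl

variable [FP]

section
variable {μ : 𝓞 K} {H : Subgroup (CU μ)} {F G : Type} [Field F] [NumberField F] [Algebra K F]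
  [Field G] [NumberField G] [Algebra K G] [Algebra F G] [IsScalarTower K F G] [DecidableEq G]
  {k : Gal(G/F) → 𝓞 K} {J : Pt G} {f b : 𝓞 K} {Ψ : Ideal (𝓞 F) → 𝓞 K}

private theorem dne_th (hk : Kap F G k) (β : Gal(G/F)) :
    β (thX F k J) = algebraMap K G (k β : K) * thX F k J := by
  unfold thX
  rw [map_sum, Finset.mul_sum]
  refine Fintype.sum_equiv (Equiv.mulLeft β) _ _ fun σ => ?_
  show β (algebraMap K G (cj (k σ) : K) * σ (lamQ J)) =
    algebraMap K G (k β : K) * (algebraMap K G (cj (k (β * σ)) : K) * β (σ (lamQ J)))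
  have h1 : β (algebraMap K G (cj (k σ) : K)) = algebraMap K G (cj (k σ) : K) := by
    rw [IsScalarTower.algebraMap_apply K F G, β.commutes]
  have h2 : k β * cj (k (β * σ)) = cj (k σ) := by
    rw [hk.mul, map_mul, ← mul_assoc, hk.nrm, one_mul]
  have h3 : (k β : K) * (cj (k (β * σ)) : K) = (cj (k σ) : K) := by
    rw [← h2]
    rfl
  rw [map_mul, h1, ← mul_assoc, ← map_mul, h3]

theorem dX_ne (hAB : AB H F G J) (hM : Md μ) (hpk : IsCoprime pk μ) (hk : Kap F G k)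
    (hΨ : HF f F Ψ) (hfr : FrK F G k b Ψ)
    (hb : ∀ v : HeightOneSpectrum (𝓞 K), b ∈ v.asIdeal → μ ∈ v.asIdeal)
    (hL : ∃ L : ℂ → ℂ, Differentiable ℂ L ∧ (∀ s : ℂ, 2 < s.re → L s = S4.Lf (pB Ψ) s) ∧
      L 1 ≠ 0)
    {r : Gal(F/K) → Gal(G/K)}
    (hr : ∀ (s : Gal(F/K)) (x : F), r s (algebraMap F G x) = algebraMap F G (s x)) :
    dX F k r J ≠ 0 := by
  have hg : IsGalois K F := hAB.galF
  have hfU : Finite (U H) := dne_finU hAB.ne H
  have hftU : Fintype (U H) := Fintype.ofFinite (U H)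
  let hdec : DecidableEq Gal(F/K) := Classical.decEq _
  obtain ⟨res, -, hres⟩ := hAB.exists_res
  obtain ⟨φ⟩ := exists_emb G
  have hnot : ∀ u : U H, ¬ μ ∣ rp u := fun u h =>
    hM.not_unit ((rp_cop u).isUnit_of_dvd' h dvd_rfl)
  choose A hA hA1 hA2 using fun u : U H =>
    Pool.Agent.Lib.MP_1a91b9_nuT.DG.exists_Z hAB.ne (hnot u) hM.inj
  obtain ⟨κ, c, u0, u1, hκ, hc, hkey⟩ := lam_pt hAB hM hpk φ
  obtain ⟨L, hLd, hL1, hLne⟩ := hL
  obtain ⟨η₀, hη1, hη⟩ := exists_eta0 hAB hk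
  have hBfin : {v : HeightOneSpectrum (𝓞 F) |
      Ideal.span {algebraMap (𝓞 K) (𝓞 F) μ} ≤ v.asIdeal}.Finite := by
    refine (Ideal.finite_factors (I := Ideal.span {algebraMap (𝓞 K) (𝓞 F) μ}) ?_).subset
      fun v hv => ?_
    · rw [Ne, Ideal.zero_eq_bot, Ideal.span_singleton_eq_bot,
        map_eq_zero_iff _ (FaithfulSMul.algebraMap_injective (𝓞 K) (𝓞 F))]
      exact hAB.ne
    · exact Ideal.dvd_iff_le.mpr hv
  obtain ⟨B, hBdef⟩ : ∃ B, B = hBfin.toFinset := ⟨_, rfl⟩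
  have hB : ∀ v, v ∈ B ↔ algebraMap (𝓞 K) (𝓞 F) μ ∈ v.asIdeal := fun v => by
    rw [hBdef, Set.Finite.mem_toFinset]
    exact Ideal.span_singleton_le_iff_mem _
  obtain ⟨ι, iι, χ, hχ1, ⟨ε, hε, hdet⟩, hχ⟩ :=
    Pool.Agent.Lib.MP_1a91b9_nuT.DG.exists_chars (G := Gal(F/K)) hAB.commF
  have hpv := prod_val hAB hM hΨ hfr hb hres hη1 hη hχ1 hχ hA hA1 hLd hL1 B hB
  have hne : ∀ i, ∑ u : U H, χ i (res u) * η₀ u * A u 1 ≠ 0 := by
    have h1 : ∏ i, ∑ u : U H, χ i (res u) * η₀ u * A u 1 ≠ 0 := by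
      rw [hpv]
      exact mul_ne_zero hLne (Finset.prod_ne_zero_iff.2 fun v _ => euler_neY hΨ v)
    exact fun i => Finset.prod_ne_zero_iff.1 h1 i (Finset.mem_univ i)
  have hne2 : ∀ i, ∑ u : U H, χ i (res u) * η₀ u * φ (lamQ (smU J u)) ≠ 0 := by
    intro i
    refine dne_nz (X := U H) (((χ i).comp res) * η₀) (fun u => ?_) (e := fun u => A u 1)
      (lam := fun u => φ (lamQ (smU J u))) (O := Om) (u0 := u0) (u1 := u1) hκ hc (fun u => ?_) (hne i)
    · show ‖χ i (res u) * η₀ u‖ = 1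
      rw [norm_mul, hχ1, hη1, mul_one]
    · rw [hA2, hA2]
      exact hkey u
  choose cl hcl using hAB.mem
  have hclm : ∀ σ τ : Gal(G/K), cl (σ * τ) = cl σ * cl τ := fun σ τ =>
    smU_inj hAB.ord ((hcl _).symm.trans (dne_mul hAB (hcl σ) (hcl τ)))
  have hcli : ∀ σ τ : Gal(G/K), cl σ = cl τ → σ = τ := fun σ τ h =>
    dne_inj hAB ((hcl σ).trans ((congrArg (smU J) h).trans (hcl τ).symm))
  have hclb : ∀ β : Gal(G/F), η₀ (cl (AlgEquiv.restrictScalars K β : Gal(G/K))) =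
      embK (cj (k β) : K) := fun β => hη β _ (by rw [← dne_res, hcl])
  have hφK : ∀ a : K, φ (algebraMap K G a) = embK a := fun a => φ.commutes a
  have hx1 : ∀ s t : Gal(F/K), η₀ (cl (r s)) * η₀ (cl (r t)) * φ (r s (r t (thX F k J))) =
      η₀ (cl (r (s * t))) * φ (r (s * t) (thX F k J)) := by
    intro s t
    have h1 : ∀ x : F, ((r (s * t))⁻¹ * (r s * r t)) (algebraMap F G x) = algebraMap F G x := by
      intro x
      have h2 : (r s * r t) (algebraMap F G x) = r (s * t) (algebraMap F G x) := by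
        rw [AlgEquiv.mul_apply, hr, hr, hr, AlgEquiv.mul_apply]
      rw [AlgEquiv.mul_apply, h2, ← AlgEquiv.mul_apply, inv_mul_cancel, AlgEquiv.one_apply]
    obtain ⟨β, hβ⟩ := dne_fix h1
    have h3 : r s * r t = r (s * t) * (AlgEquiv.restrictScalars K β : Gal(G/K)) := by
      rw [hβ, mul_inv_cancel_left]
    have h4 : r s (r t (thX F k J)) = algebraMap K G (k β : K) * r (s * t) (thX F k J) := by
      have h5 : r s (r t (thX F k J)) = r (s * t) (β (thX F k J)) :=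
        congrArg (fun ρ : Gal(G/K) => ρ (thX F k J)) h3
      rw [h5, dne_th hk, map_mul, AlgEquiv.commutes]
    have h6 : η₀ (cl (r s)) * η₀ (cl (r t)) = η₀ (cl (r (s * t))) * embK (cj (k β) : K) := by
      rw [← map_mul, ← hclm, h3, hclm, map_mul, hclb]
    have h7 : embK (cj (k β) : K) * embK (k β : K) = 1 := by
      rw [← map_mul]
      have h8 : (cj (k β) : K) * (k β : K) = ((k β * cj (k β) : 𝓞 K) : K) := by
        rw [mul_comm]
        rfl
      rw [h8, hk.nrm]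
      exact map_one embK
    rw [h6, h4, map_mul, hφK]
    linear_combination (η₀ (cl (r (s * t))) * φ (r (s * t) (thX F k J))) * h7
  intro h0
  have hdx : Matrix.det (Matrix.of fun s t : Gal(F/K) => φ (r s (r t (thX F k J)))) = 0 := by
    have h1 : φ (dX F k r J) = Matrix.det (Matrix.of fun s t : Gal(F/K) => φ (r s (r t (thX F k J)))) := by
      have h2 : dX F k r J = Matrix.det (Matrix.of fun s t : Gal(F/K) => r s (r t (thX F k J))) := rfl
      rw [h2]
      exact RingHom.map_det (φ : G →+* ℂ) _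
    rw [← h1, h0, map_zero]
  have hd := dne_det (fun s t : Gal(F/K) => φ (r s (r t (thX F k J))))
    (fun s => η₀ (cl (r s)) * φ (r s (thX F k J))) (fun s => η₀ (cl (r s))) hx1 hdx
  rw [hdet (fun s => η₀ (cl (r s)) * φ (r s (thX F k J)))] at hd
  have hε0 : ε ≠ 0 := by
    rcases hε with rfl | rfl
    · exact one_ne_zero
    · exact neg_ne_zero.2 one_ne_zero
  obtain ⟨i, -, hi⟩ := Finset.prod_eq_zero_iff.1 ((mul_eq_zero.1 hd).resolve_left hε0)
  apply hne2 i
  rw [← hi]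
  symm
  -- the reindexing
  have hres2 : ∀ (s : Gal(F/K)) (β : Gal(G/F)),
      res (cl (r s * (AlgEquiv.restrictScalars K β : Gal(G/K)))) = s := by
    intro s β
    refine AlgEquiv.ext fun x => (algebraMap F G).injective ?_
    rw [hres _ _ (hcl _) x, AlgEquiv.mul_apply, AlgEquiv.restrictScalars_apply, β.commutes, hr]
  have hbij : Function.Bijective (fun p : Gal(F/K) × Gal(G/F) =>
      cl (r p.1 * (AlgEquiv.restrictScalars K p.2 : Gal(G/K)))) := by
    constructor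
    · rintro ⟨s, β⟩ ⟨s', β'⟩ h
      beta_reduce at h
      have h1 : s = s' := by rw [← hres2 s β, ← hres2 s' β', h]
      subst h1
      have h2 := mul_left_cancel (hcli _ _ h)
      have h3 : β = β' := AlgEquiv.ext fun x => congrArg (fun ρ : Gal(G/K) => ρ x) h2
      rw [h3]
    · intro u
      obtain ⟨σ, hσ⟩ := hAB.surj u
      have h1 : ∀ x : F, ((r (res u))⁻¹ * σ) (algebraMap F G x) = algebraMap F G x := by
        intro x
        rw [AlgEquiv.mul_apply, ← hres σ u hσ x, ← hr, ← AlgEquiv.mul_apply, inv_mul_cancel,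
          AlgEquiv.one_apply]
      obtain ⟨β, hβ⟩ := dne_fix h1
      refine ⟨(res u, β), ?_⟩
      beta_reduce
      rw [hβ, mul_inv_cancel_left]
      exact smU_inj hAB.ord ((hcl σ).symm.trans hσ)
  rw [← Fintype.sum_bijective _ hbij
    (fun p : Gal(F/K) × Gal(G/F) => χ i p.1 * (η₀ (cl (r p.1)) * (embK (cj (k p.2) : K) *
      φ (r p.1 (p.2 (lamQ J)))))) _ fun p => ?_, Fintype.sum_prod_type]
  · refine Finset.sum_congr rfl fun s _ => ?_
    show _ = ∑ y : Gal(G/F), χ i s * (η₀ (cl (r s)) * (embK (cj (k y) : K) * φ (r s (y (lamQ J)))))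
    rw [← Finset.mul_sum, ← Finset.mul_sum]
    congr 2
    unfold thX
    rw [map_sum, map_sum]
    refine Finset.sum_congr rfl fun β _ => ?_
    rw [map_mul, map_mul, AlgEquiv.commutes, hφK]
  · rw [hres2, hclm, map_mul, hclb]
    have h1 : lamQ (smU J (cl (r p.1 * (AlgEquiv.restrictScalars K p.2 : Gal(G/K))))) =
        r p.1 (p.2 (lamQ J)) := by
      rw [← hcl, lamQ_ga]
      rfl
    rw [← hclm, h1]
    ring

end

end

end Pool.Agent.Lib.MP_1a91b9_nuY.BF
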