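import Pool.Agent.Lib.MP_1a91b9_nuX.DG.Grc
import Pool.Agent.Lib.MP_1a91b9_nuY.TS.Defs

/-!
# The base field of the twisted towers: definitions

`F ⊆ G = K(J) ⊆ N = G(P)`; `k` is a character of `Gal(G/F)`. The automorphisms `s` of `N/F` with
`gk G k s P = P` form a group `T` of order `[G : F]` prime to `ℓ`; `N₁` is the field of its invariants.
-/

set_option autoImplicit false
set_option linter.unusedSectionVars false

namespace Pool.Agent.Lib.MP_1a91b9_nuY.BF

variable [Pool.Agent.Lib.MP_1a91b9_nuT.CD]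

open NumberField IsDedekindDomain WeierstrassCurve Pool.Agent.Lib.MP_1a91b9_nuT
open Pool.Agent.Lib.MP_1a91b9_nuX.DB Pool.Agent.Lib.MP_1a91b9_nuX.DG
open Pool.Agent.Lib.MP_1a91b9_nuX.DX (rs toF)
open Pool.Agent.Lib.MP_1a91b9_nuY.TS

noncomputable section

section
variable {μ : 𝓞 K} {H : Subgroup (CU μ)} (F : Type) {G : Type} [Field F] [NumberField F]
  [Algebra K F] [Field G] [NumberField G] [Algebra K G] [Algebra F G] [IsScalarTower K F G]
  [DecidableEq G]

/-- functions on the residue classes which are equivariant for the twisted action modulo `ϖ` -/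
def TI (k : Gal(G/F) → 𝓞 K) (ϖ : 𝓞 K) (J : Pt G) (c : U H → 𝓞 K) : Prop :=
  ∀ (σ : Gal(G/F)) (b u : U H), ga σ J = smU J b → ϖ ∣ k σ * c (u * b) - c u

/-- non-degeneracy at `ϖ` of the values `lamQ (u J)` on the equivariant functions -/
def NDX [FP] (H : Subgroup (CU μ)) (k : Gal(G/F) → 𝓞 K) (ϖ : 𝓞 K) (J : Pt G) : Prop :=
  ∀ c : U H → 𝓞 K, TI F k ϖ J c → (∀ w : HeightOneSpectrum (𝓞 G),
    w.valuation G (algebraMap K G (ϖ : K)) < 1 →
      w.valuation G (∑ᶠ u : U H, algebraMap K G (c u : K) * lamQ (smU J u)) < 1) →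
    ∀ u, ϖ ∣ c u

/-- the twisted trace of `lamQ J` -/
def thX [FP] (k : Gal(G/F) → 𝓞 K) (J : Pt G) : G :=
  ∑ σ : Gal(G/F), algebraMap K G (cj (k σ) : K) * σ (lamQ J)

/-- the determinant of the twisted traces; `r` is a lifting of the automorphisms of `F/K` -/
def dX [FP] (k : Gal(G/F) → 𝓞 K) (r : Gal(F/K) → Gal(G/K)) (J : Pt G) : G :=
  haveI : DecidableEq Gal(F/K) := Classical.decEq _
  Matrix.det (Matrix.of fun s t : Gal(F/K) => r s (r t (thX F k J)))

end

/-- the situation over the base field -/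
structure TwX [FP] {μ : 𝓞 K} (H : Subgroup (CU μ)) (ϖ : 𝓞 K) (ℓ q : ℕ) (F G N : Type)
    [Field F] [NumberField F] [Algebra K F] [Field G] [NumberField G] [Algebra K G] [Algebra F G]
    [IsScalarTower K F G] [IsGalois F G] [DecidableEq G] [Field N] [NumberField N] [Algebra K N]
    [Algebra F N] [Algebra G N] [IsScalarTower K F N] [IsScalarTower K G N] [IsScalarTower F G N]
    [IsGalois F N] [IsGalois G N] [DecidableEq N] (k : Gal(G/F) → 𝓞 K) (P : Pt N) (J : Pt G) :
    Prop where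
  ab : AB H F G J
  kap : Kap F G k
  top : TopG H ϖ ℓ q G N N P (up N J)

/-- `N₁` is the field of the invariants of the automorphisms `s` with `gk G k s P = P`; `τ₁` is the
restriction of `τ` -/
structure SubX (ℓ q : ℕ) (F G N N₁ : Type) [Field F] [NumberField F] [Algebra K F] [Field G]
    [NumberField G] [Algebra K G] [Algebra F G] [IsScalarTower K F G] [IsGalois F G] [Field N]
    [NumberField N] [Algebra K N] [Algebra F N] [Algebra G N] [IsScalarTower K F N]
    [IsScalarTower K G N] [IsScalarTower F G N] [IsGalois F N] [IsGalois G N] [DecidableEq N]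
    [Field N₁] [NumberField N₁] [Algebra K N₁] [Algebra N₁ N] [IsScalarTower K N₁ N]
    (k : Gal(G/F) → 𝓞 K) (P : Pt N) (τ : Gal(N/G)) (τ₁ : Gal(N₁/K)) : Prop where
  galK : IsGalois K N₁
  gal : IsGalois N₁ N
  deg : (Module.finrank N₁ N).Coprime ℓ
  mem : ∀ z : N, (∀ s : Gal(N/F), gk G k s P = P → s z = z) → ∃ z₁ : N₁, algebraMap N₁ N z₁ = z
  fix : ∀ (z₁ : N₁) (s : Gal(N/F)), gk G k s P = P → s (algebraMap N₁ N z₁) = algebraMap N₁ N z₁
  ord : orderOf τ₁ = q - 1
  rk : Module.finrank K N₁ = Module.finrank K F * (q - 1)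
  res : ∀ z₁ : N₁, algebraMap N₁ N (τ₁ z₁) = τ (algebraMap N₁ N z₁)

end

end Pool.Agent.Lib.MP_1a91b9_nuY.BF
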