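import Pool.Agent.Lib.MP_1a91b9_nuY.BF.Defs
import Pool.Agent.Lib.MP_1a91b9_nuX.DG.GalU
import Pool.Agent.Lib.MP_1a91b9_nuY.AN.Defs

/-!
# Extension of the character to the residue classes

`exists_eta0`: the conjugate of `k` extends to a character of `U H`.
-/

set_option autoImplicit false
set_option linter.unusedSectionVars false

namespace Pool.Agent.Lib.MP_1a91b9_nuY.BF

variable [Pool.Agent.Lib.MP_1a91b9_nuT.CD]

open NumberField IsDedekindDomain WeierstrassCurve Pool.Agent.Lib.MP_1a91b9_nuT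
open Pool.Agent.Lib.MP_1a91b9_nuX Pool.Agent.Lib.MP_1a91b9_nuX.DB Pool.Agent.Lib.MP_1a91b9_nuX.DG
open Pool.Agent.Lib.MP_1a91b9_nuX.DX (rs toF rs_apply rs_mul rs_toF toF_apply ga_toF exists_lift exists_of_rs_one)
open Pool.Agent.Lib.MP_1a91b9_nuY.TS

noncomputable section

section
variable {μ : 𝓞 K} {H : Subgroup (CU μ)} {F G : Type} [Field F] [NumberField F] [Algebra K F]
  [Field G] [NumberField G] [Algebra K G] [Algebra F G] [IsScalarTower K F G] [DecidableEq G]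
  {k : Gal(G/F) → 𝓞 K} {J : Pt G}

private theorem ext_res (s : Gal(G/F)) (Q : Pt G) :
    ga (AlgEquiv.restrictScalars K s : Gal(G/K)) Q = ga s Q := by
  rcases cases_pt Q with rfl | ⟨x, y, h, rfl⟩
  · rw [map_zero, map_zero]
  · rfl

private theorem ext_fin {μ : 𝓞 K} {H : Subgroup (CU μ)} (hμ : μ ≠ 0) : Finite (U H) := by
  have h1 : Finite (𝓞 K ⧸ Ideal.span {μ}) := by
    refine Ideal.finiteQuotientOfFreeOfNeBot _ ?_
    rw [Ne, Ideal.span_singleton_eq_bot]
    exact hμ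
  infer_instance

theorem exists_eta0 (hAB : AB H F G J) (hk : Kap F G k) : ∃ η₀ : U H →* ℂ,
    (∀ u, ‖η₀ u‖ = 1) ∧
    ∀ (σ : Gal(G/F)) (b : U H), ga σ J = smU J b → η₀ b = embK (cj (k σ) : K) := by
  classical
  have hfin : Finite (U H) := ext_fin hAB.ne
  have hmem : ∀ σ : Gal(G/F), ∃ u : U H, ga σ J = smU J u := by
    intro σ
    obtain ⟨u, hu⟩ := hAB.mem (AlgEquiv.restrictScalars K σ : Gal(G/K))
    exact ⟨u, (ext_res (F := F) σ J).symm.trans hu⟩
  choose c hc using hmem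
  have hmul : ∀ s t : Gal(G/F), c (s * t) = c s * c t := by
    intro s t
    refine smU_inj hAB.ord ?_
    rw [← hc, ga_mul, hc t, mul_comm (c s), ← smU_mul hAB.ord, ← hc s]
    unfold smU
    rw [ga_sm]
  have hinj : ∀ s t : Gal(G/F), ga s J = ga t J → s = t := by
    intro s t h1
    have h2 : ga (t⁻¹ * s) J = J := by rw [ga_mul, h1, ← ga_mul, inv_mul_cancel, ga_one]
    have h3 : (AlgEquiv.restrictScalars K (t⁻¹ * s) : Gal(G/K)) = 1 :=
      hAB.gen _ ((ext_res (F := F) (t⁻¹ * s) J).trans h2)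
    have h4 : t⁻¹ * s = 1 := AlgEquiv.ext fun x => congrArg (fun ρ : Gal(G/K) => ρ x) h3
    exact (inv_mul_eq_one.1 h4).symm
  obtain ⟨c', hc'⟩ : ∃ c' : Gal(G/F) →* U H, ∀ s, c' s = c s := ⟨MonoidHom.mk' c hmul, fun _ => rfl⟩
  have hci : Function.Injective c' := by
    intro s t h
    rw [hc', hc'] at h
    exact hinj s t (by rw [hc, hc, h])
  obtain ⟨κ, hκ⟩ : ∃ κ : Gal(G/F) →* ℂˣ, ∀ s, ((κ s : ℂˣ) : ℂ) = embK (cj (k s) : K) := by
    let f : Gal(G/F) →* ℂ :=
      { toFun := fun s => embK (cj (k s) : K)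
        map_one' := by
          rw [hk.one, map_one]
          exact map_one embK
        map_mul' := fun s t => by
          rw [hk.mul, map_mul]
          exact map_mul embK _ _ }
    exact ⟨MonoidHom.toHomUnits f, fun s => MonoidHom.coe_toHomUnits f s⟩
  obtain ⟨e, he⟩ : ∃ e : c'.range →* Gal(G/F), ∀ s, e ⟨c' s, ⟨s, rfl⟩⟩ = s :=
    ⟨(MonoidHom.ofInjective hci).symm.toMonoidHom, fun s =>
      (MonoidHom.ofInjective hci).symm_apply_apply s⟩
  obtain ⟨η, hη⟩ := MonoidHom.domRestrict_surjective (M := ℂ) (G := U H) c'.range (κ.comp e)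
  refine ⟨(Units.coeHom ℂ).comp η, fun u => ?_, fun σ b hb => ?_⟩
  · have h1 : ((Units.coeHom ℂ).comp η u) ^ Nat.card (U H) = 1 := by
      rw [← map_pow, pow_card_eq_one', map_one]
    exact Complex.norm_eq_one_of_pow_eq_one h1 (Nat.card_pos).ne'
  · have h1 : b = c' σ := by
      rw [hc']
      exact smU_inj hAB.ord (by rw [← hb, hc])
    have h2 : η b = κ σ := by
      have h3 : MonoidHom.domRestrictHom c'.range ℂˣ η ⟨c' σ, ⟨σ, rfl⟩⟩ =
          (κ.comp e) ⟨c' σ, ⟨σ, rfl⟩⟩ := by rw [hη]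
      rw [MonoidHom.comp_apply, he] at h3
      rw [h1, ← h3]
      rfl
    rw [← hκ, ← h2]
    rfl

end

end

end Pool.Agent.Lib.MP_1a91b9_nuY.BF
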