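import Pool.Agent.Lib.MP_1a91b9_nuY.BF.Defs

/-!
# The group of the automorphisms which fix `P` for the twisted action

`TT` is the group of the automorphisms of `N/F` which fix `P` for the twisted action; the restriction
to `G` is an isomorphism `TT → Gal(G/F)`.
-/

set_option autoImplicit false
set_option linter.unusedSectionVars false

namespace Pool.Agent.Lib.MP_1a91b9_nuY.BF

variable [Pool.Agent.Lib.MP_1a91b9_nuT.CD]

open NumberField IsDedekindDomain WeierstrassCurve Pool.Agent.Lib.MP_1a91b9_nuT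
open Pool.Agent.Lib.MP_1a91b9_nuX Pool.Agent.Lib.MP_1a91b9_nuX.DB Pool.Agent.Lib.MP_1a91b9_nuX.DG
open Pool.Agent.Lib.MP_1a91b9_nuX.DX (rs toF rs_apply rs_mul rs_toF toF_apply ga_toF exists_lift exists_of_rs_one)
open Pool.Agent.Lib.MP_1a91b9_nuY.TS

noncomputable section

section
variable {F G N : Type}
  [Field F] [NumberField F] [Algebra K F] [Field G] [NumberField G] [Algebra K G] [Algebra F G]
  [IsScalarTower K F G] [IsGalois F G] [DecidableEq G] [Field N] [NumberField N] [Algebra K N]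
  [Algebra F N] [Algebra G N] [IsScalarTower K F N] [IsScalarTower K G N] [IsScalarTower F G N]
  [DecidableEq N] {k : Gal(G/F) → 𝓞 K}

theorem up_self (P : Pt N) : up N P = P := by
  rcases cases_pt P with rfl | ⟨x, y, h, rfl⟩
  · exact map_zero (pm (IsScalarTower.toAlgHom K N N))
  · obtain ⟨h1, e1⟩ := pm_mk (IsScalarTower.toAlgHom K N N) x y h
    exact e1.trans (mk_inj.2 ⟨rfl, rfl⟩)

theorem gk_mul (hk : Kap F G k) (s t : Gal(N/F)) (P : Pt N) :
    gk G k (s * t) P = gk G k s (gk G k t P) := by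
  unfold gk
  rw [rs_mul, hk.mul, ga_mul, map_mul, ga_sm]
  rfl

theorem gk_one (hk : Kap F G k) (P : Pt N) : gk G k (1 : Gal(N/F)) P = P := by
  have h1 : rs G (1 : Gal(N/F)) = 1 := by
    apply AlgEquiv.ext
    intro x
    apply (algebraMap G N).injective
    rw [rs_apply]
    rfl
  unfold gk
  rw [h1, hk.one, ga_one, map_one]
  rfl

theorem gk_sm (s : Gal(N/F)) (c : 𝓞 K) (P : Pt N) : gk G k s (sm N c P) = sm N c (gk G k s P) := by
  unfold gk
  rw [ga_sm, sm_sm, sm_sm, mul_comm]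

theorem gk_toF (hk : Kap F G k) (τ : Gal(N/G)) (P : Pt N) : gk G k (toF F τ) P = ga τ P := by
  unfold gk
  rw [rs_toF, hk.one, map_one]
  rfl

/-- the automorphisms which fix `P` for the twisted action -/
def TT (hk : Kap F G k) (P : Pt N) : Subgroup Gal(N/F) where
  carrier := {s | gk G k s P = P}
  mul_mem' {s t} hs ht := by
    have hs' : gk G k s P = P := hs
    have ht' : gk G k t P = P := ht
    show gk G k (s * t) P = P
    rw [gk_mul hk, ht', hs']
  one_mem' := gk_one hk P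
  inv_mem' {s} hs := by
    have hs' : gk G k s P = P := hs
    show gk G k s⁻¹ P = P
    calc gk G k s⁻¹ P = gk G k s⁻¹ (gk G k s P) := by rw [hs']
      _ = P := by rw [← gk_mul hk, inv_mul_cancel, gk_one hk]

theorem mem_TT (hk : Kap F G k) {P : Pt N} {s : Gal(N/F)} : s ∈ TT hk P ↔ gk G k s P = P :=
  Iff.rfl

/-- an automorphism over `F` as an automorphism over `K` -/
theorem ga_resK (s : Gal(N/F)) (Q : Pt N) :
    ga (AlgEquiv.restrictScalars K s : Gal(N/K)) Q = ga s Q := by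
  rcases cases_pt Q with rfl | ⟨x, y, h, rfl⟩
  · rw [map_zero, map_zero]
  · rfl

end

variable [FP]

section
variable {μ : 𝓞 K} {H : Subgroup (CU μ)} {ϖ : 𝓞 K} {ℓ q : ℕ} {F G N : Type}
  [Field F] [NumberField F] [Algebra K F] [Field G] [NumberField G] [Algebra K G] [Algebra F G]
  [IsScalarTower K F G] [IsGalois F G] [DecidableEq G] [Field N] [NumberField N] [Algebra K N]
  [Algebra F N] [Algebra G N] [IsScalarTower K F N] [IsScalarTower K G N] [IsScalarTower F G N]
  [IsGalois F N] [IsGalois G N] [DecidableEq N] {k : Gal(G/F) → 𝓞 K} {P : Pt N} {J : Pt G}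

variable (D : TwX H ϖ ℓ q F G N k P J)
include D

theorem TwX.pd : PD ϖ ℓ q := D.top.pd

theorem TwX.full : Full G ϖ P := D.top.full

/-- the action on `J` and on `P` -/
theorem TwX.act (s : Gal(N/F)) : ∃ (u : U H) (d : 𝓞 K), ¬ ϖ ∣ d ∧ ga (rs G s) J = smU J u ∧
    ga s (up N J) = smU (up N J) u ∧ ga s P = sm N d P := by
  obtain ⟨u, d, hd, h1, h2⟩ := D.top.act (AlgEquiv.restrictScalars K s : Gal(N/K))
  rw [ga_resK] at h1 h2
  rw [up_self] at h2
  refine ⟨u, d, hd, ?_, h1, h2⟩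
  apply up_inj (L := N)
  have h3 : ga s (up N J) = up N (ga (rs G s) J) := DX.ga_up s J
  rw [← h3, h1]
  exact (up_sm (L := N) (rp u) J).symm

theorem TwX.comm (s t : Gal(N/F)) : s * t = t * s := by
  have h1 := D.top.comm' (AlgEquiv.restrictScalars K s) (AlgEquiv.restrictScalars K t)
  apply AlgEquiv.ext
  intro x
  exact congrArg (fun ρ : Gal(N/K) => ρ x) h1

/-- an element of the group is determined by its restriction to `G` -/
theorem TwX.rs_inj {s : Gal(N/F)} (hs : gk G k s P = P) (h1 : rs G s = 1) : s = 1 := by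
  obtain ⟨τ, rfl⟩ := exists_of_rs_one s h1
  rw [gk_toF D.kap] at hs
  rw [D.full.gen τ hs]
  rfl

theorem TwX.rs_sur (σ : Gal(G/F)) : ∃ s : Gal(N/F), gk G k s P = P ∧ rs G s = σ := by
  obtain ⟨s₀, hs₀⟩ := exists_lift (L := N) σ
  obtain ⟨u, d, hd, -, -, h2⟩ := D.act s₀
  have hkd : ¬ ϖ ∣ k σ * d := by
    intro h
    rcases D.pd.prime.dvd_or_dvd h with h3 | h3
    · apply D.pd.prime.not_isUnit
      apply isUnit_of_dvd_one
      rw [← D.kap.nrm σ]
      exact h3.mul_right _
    · exact hd h3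
  obtain ⟨e, he⟩ := D.pd.inv hkd
  have hen : ¬ ϖ ∣ e := by
    intro h3
    apply D.pd.prime.not_isUnit
    apply isUnit_of_dvd_one
    have h4 := dvd_sub (Dvd.dvd.mul_left h3 (k σ * d)) he
    rwa [sub_sub_cancel] at h4
  obtain ⟨τ, hτ⟩ := D.full.all e hen
  refine ⟨s₀ * toF F τ, ?_, ?_⟩
  · rw [gk_mul D.kap, gk_toF D.kap, hτ, gk_sm]
    unfold gk
    rw [hs₀, h2, sm_sm, sm_sm]
    have h5 : sm N (e * k σ * d) P = sm N 1 P := (D.full.ord.sm_eq_iff _ _).2 (by
      rw [mul_assoc, mul_comm e]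
      exact he)
    rw [h5, map_one]
    rfl
  · rw [rs_mul, hs₀, rs_toF, mul_one]

theorem TwX.card_TT : Nat.card (TT D.kap P) = Module.finrank F G := by
  rw [← IsGalois.card_aut_eq_finrank F G]
  refine Nat.card_congr (Equiv.ofBijective (fun s : TT D.kap P => rs G (s : Gal(N/F))) ⟨?_, ?_⟩)
  · intro s t hst
    have hst' : rs G (s : Gal(N/F)) = rs G (t : Gal(N/F)) := hst
    have h1 : ((s⁻¹ * t : TT D.kap P) : Gal(N/F)) = 1 := by
      refine D.rs_inj (s⁻¹ * t).2 ?_
      have h2 : rs G (s : Gal(N/F)) * rs G ((s⁻¹ * t : TT D.kap P) : Gal(N/F)) = rs G (t : Gal(N/F)) := by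
        rw [← rs_mul, ← Subgroup.coe_mul, mul_inv_cancel_left]
      rw [hst'] at h2
      exact mul_eq_left.1 h2
    have h3 : s⁻¹ * t = 1 := Subtype.ext h1
    exact inv_mul_eq_one.1 h3
  · intro σ
    obtain ⟨s, hs, hsσ⟩ := D.rs_sur σ
    exact ⟨⟨s, hs⟩, hsσ⟩

/-- `[G : K]` is the number of the residue classes -/
theorem TwX.card_U : Nat.card (U H) = Module.finrank K F * Module.finrank F G := by
  have h1 := D.top.cardB
  rw [← D.top.cardNL, Module.finrank_self, one_mul] at h1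
  rw [← h1, Module.finrank_mul_finrank K F G]

theorem TwX.cop_TT : (Nat.card (TT D.kap P)).Coprime ℓ := by
  rw [D.card_TT]
  refine ((Nat.Prime.coprime_iff_not_dvd D.pd.hl).2 fun h2 => D.top.cu ?_).symm
  rw [D.card_U]
  exact h2.mul_left _

/-- the coefficient of an element of the group -/
theorem TwX.coef {s : Gal(N/F)} (hs : gk G k s P = P) {e : 𝓞 K} (he : ga s P = sm N e P) :
    ϖ ∣ k (rs G s) * e - 1 := by
  unfold gk at hs
  rw [he, sm_sm] at hs
  refine (D.full.ord.sm_eq_iff _ _).1 ?_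
  rw [hs, map_one]
  rfl

end

end

end Pool.Agent.Lib.MP_1a91b9_nuY.BF
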